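import Pool.Agent.Lib.MP_a8bb0e_al.Ex.Base

/-! Automorphisms of a bilinear map with two characters, and the tame package. -/

open Matrix Filter Topology

namespace Pool.Agent.Lib.MP_a8bb0e_al.Ex

open Uni

variable {σ I : Type} [Fintype σ] [Fintype I] [DecidableEq σ] [DecidableEq I]
  {T T' T'' : σ → σ → I → ℤ}

/-- the centre matrix up to the factor `f` -/
def hS (S : I → σ → σ → ℤ) (T : σ → σ → I → ℤ) {R : Type} [CommRing R] (x : Matrix σ σ R) :
    Matrix I I R :=
  of fun c a => ∑ i, ∑ j, (S c i j : R) * bil T (fun k => x k i) (fun k => x k j) a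

section
variable {R R' : Type} [CommRing R] [CommRing R'] {g f : Matrix σ σ R} {h e : Matrix I I R}
  {S : I → σ → σ → ℤ} {n : ℕ}

omit [DecidableEq σ] [DecidableEq I] in
lemma Hom.bil (H : Hom T T' g h) (x y : σ → R) :
    bil T (g *ᵥ x) (g *ᵥ y) = bil T' x y ᵥ* h := by
  funext a
  rw [bil_mulVec]
  simp only [Uni.bil, H _ _ _, vecMul, dotProduct, Finset.sum_mul, Finset.mul_sum]
  conv_rhs => rw [Finset.sum_comm]
  refine Finset.sum_congr rfl fun i _ => ?_
  conv_rhs => rw [Finset.sum_comm]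
  exact Finset.sum_congr rfl fun j _ => Finset.sum_congr rfl fun b _ => by ring

omit [DecidableEq I] in
lemma Hom.comp (H : Hom T T' g h) (H' : Hom T' T'' f e) : Hom T T'' (g * f) (e * h) := fun i j a => by
  have : Uni.bil T ((g * f) *ᵥ Pi.single i 1) ((g * f) *ᵥ Pi.single j 1) =
      Uni.bil T'' (Pi.single i 1) (Pi.single j 1) ᵥ* (e * h) := by
    rw [← mulVec_mulVec, ← mulVec_mulVec, H.bil, H'.bil, vecMul_vecMul]
  rw [mulVec_single_one, mulVec_single_one,
    show Uni.bil T'' (Pi.single i (1 : R)) (Pi.single j 1) = _ from funext (bil_single i j)] at this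
  exact congrFun this a

omit [DecidableEq σ] [DecidableEq I] in
lemma Hom.map (H : Hom T T' g h) (φ : R →+* R') : Hom T T' (g.map φ) (h.map φ) := fun i j a => by
  simpa using congrArg φ (H i j a)

omit [DecidableEq σ] [DecidableEq I] in
lemma Hom.nat (H : Hom T T' g h) (x : Matrix σ σ R) : hS S T (g * x) = hS S T' x * h := by
  ext c a
  have : ∀ i, (fun k => (g * x) k i) = g *ᵥ fun k => x k i := fun _ => rfl
  rw [Matrix.mul_apply]
  simp only [hS, of_apply, this, H.bil, vecMul, dotProduct, Finset.sum_mul, Finset.mul_sum,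
    mul_assoc]
  rw [Finset.sum_congr rfl fun _ _ => Finset.sum_comm, Finset.sum_comm]

omit [Fintype I] in
lemma hS_one (H : LI S T n) : hS S T (1 : Matrix σ σ R) = (n : R) • 1 := by
  ext c a
  have : ∀ i, (fun k => (1 : Matrix σ σ R) k i) = Pi.single i 1 := fun i => by
    ext k; simp [one_apply, Pi.single_apply]
  have e := congrArg (Int.cast : ℤ → R) (H c a)
  simp only [hS, of_apply, this, bil_single, Tor.sm]
  simpa using e

lemma Hom.eq (H : Hom T T' g h) (L : LI S T' n) : hS S T g = (n : R) • h := by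
  rw [← Matrix.mul_one g, H.nat, hS_one L, Matrix.smul_mul, Matrix.one_mul]

lemma Hom.left (H : Hom T T' g h) (L : LI S T n) (e : g * f = 1) : hS S T' f * h = (n : R) • 1 := by
  rw [← H.nat, e, hS_one L]

omit [Fintype I] [DecidableEq σ] [DecidableEq I] in
lemma hS_map (φ : R →+* R') : (hS S T g).map φ = hS S T (g.map φ) := by
  ext; simp [hS, bil]

lemma cast_map {a b : Type} (m : Matrix a b ℤ) (φ : R →+* R') :
    (m.map (Int.castRingHom R)).map φ = m.map (Int.castRingHom R') := by ext; simp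

/-- all entries lie in the subring -/
def In (O : Subring R) {a b : Type} (M : Matrix a b R) : Prop := ∀ i j, M i j ∈ O

variable {O : Subring R}

lemma In.mul {a b c : Type} [Fintype b] {M : Matrix a b R} {M' : Matrix b c R} (H : In O M)
    (H' : In O M') : In O (M * M') := fun i j => sum_mem fun k _ => mul_mem (H i k) (H' k j)

lemma In.smul {a b : Type} {M : Matrix a b R} {c : R} (hc : c ∈ O) (H : In O M) : In O (c • M) :=
  fun i j => mul_mem hc (H i j)

lemma In.int {a b : Type} (M : Matrix a b ℤ) : In O (M.map (Int.castRingHom R)) :=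
  fun _ _ => intCast_mem O _

lemma In.det (H : In O g) : g.det ∈ O := by
  rw [det_apply']
  exact sum_mem fun _ _ => mul_mem (intCast_mem O _) (prod_mem fun i _ => H _ i)

lemma In.adj (H : In O g) : In O g.adjugate := fun i j => by
  rw [adjugate_apply]
  refine In.det fun k l => ?_
  rw [updateRow_apply, Pi.single_apply]
  split_ifs
  exacts [one_mem _, zero_mem _, H k l]

omit [Fintype I] [DecidableEq σ] [DecidableEq I] in
lemma In.hS (H : In O g) : In O (hS S T g) := fun _ _ =>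
  sum_mem fun _ _ => sum_mem fun _ _ => mul_mem (intCast_mem O _) (sum_mem fun _ _ =>
    sum_mem fun _ _ => mul_mem (mul_mem (H _ _) (H _ _)) (intCast_mem O _))

/-- weights of the torus -/
def dg (k r : ℕ) (u v : R) : Ix k r → R :=
  Sum.elim (Sum.elim (fun _ => u) fun _ => 1) fun i => if i.1 = 0 then v else 1

variable {k r : ℕ} (U : Matrix σ (Ix k r) ℤ) (U' : Matrix (Ix k r) σ ℤ)

/-- the torus -/
def dl (u v : R) : Matrix σ σ R :=
  U.map (Int.castRingHom R) * diagonal (dg k r u v) * U'.map (Int.castRingHom R)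

variable {U U'}

omit [Fintype σ] in
lemma dl_one (H : U * U' = 1) : dl U U' (1 : R) 1 = 1 := by
  rw [dl, show dg k r (1 : R) 1 = fun _ => 1 from funext (by rintro ((i | i) | i) <;> simp [dg]),
    diagonal_one, Matrix.mul_one, ← Matrix.map_mul, H, Matrix.map_one _ (map_zero _) (map_one _)]

omit [DecidableEq σ] in
lemma dl_mul (H : U' * U = 1) (u v u' v' : R) :
    dl U U' u v * dl U U' u' v' = dl U U' (u * u') (v * v') := by
  rw [dl, dl, dl, Matrix.mul_assoc, Matrix.mul_assoc (U.map _) (diagonal (dg k r u' v')),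
    ← Matrix.mul_assoc (U'.map _), ← Matrix.map_mul, H, Matrix.map_one _ (map_zero _) (map_one _),
    Matrix.one_mul, ← Matrix.mul_assoc, Matrix.mul_assoc (U.map _), diagonal_mul_diagonal]
  congr 3
  funext i
  rcases i with (i | i) | i <;> simp [dg]
  split_ifs <;> simp

omit [Fintype σ] [DecidableEq σ] in
lemma dl_map (φ : R →+* R') (u v : R) : (dl U U' u v).map φ = dl U U' (φ u) (φ v) := by
  rw [dl, dl, Matrix.map_mul, Matrix.map_mul, diagonal_map (map_zero _), cast_map, cast_map]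
  congr 3
  funext i
  rcases i with (i | i) | i <;> simp [dg, apply_ite φ]

omit [Fintype σ] [DecidableEq σ] in
lemma dl_in {u v : R} (hu : u ∈ O) (hv : v ∈ O) : In O (dl U U' u v) :=
  ((In.int U).mul fun i j => by
    rw [diagonal_apply]
    split_ifs
    · rcases i with (i | i) | i <;> simp only [dg, Sum.elim_inl, Sum.elim_inr]
      exacts [hu, one_mem _, by split_ifs; exacts [hv, one_mem _]]
    · exact zero_mem _).mul (In.int U')

lemma det_dg {u v : R} (hv : r = 0 → v = 1) : (diagonal (dg k r u v)).det = u ^ k * v := by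
  rw [det_diagonal, Fintype.prod_sum_type, Fintype.prod_sum_type]
  rcases r with _ | r
  · simp [dg, hv rfl]
  · simp [dg]

lemma det_dl (H : U * U' = 1) (H' : U' * U = 1) {u v : R} (hv : r = 0 → v = 1) :
    (dl U U' u v).det = u ^ k * v := by
  rw [dl, det_conj_of_mul_eq_one, det_dg hv] <;>
    simp only [← Matrix.map_mul, H, H', Matrix.map_one _ (map_zero _) (map_one _)]

omit [Fintype σ] [DecidableEq σ] in
lemma dl_cont [TopologicalSpace R] [IsTopologicalRing R] :
    Continuous fun t : R × R => dl U U' t.1 t.2 :=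
  (continuous_const.matrix_mul (Continuous.matrix_diagonal (continuous_pi fun i => by
    rcases i with (i | i) | i <;> simp only [dg, Sum.elim_inl, Sum.elim_inr]
    exacts [continuous_fst, continuous_const,
      by split_ifs; exacts [continuous_snd, continuous_const]]))).matrix_mul continuous_const

omit [Fintype I] [DecidableEq σ] [DecidableEq I] in
lemma hS_cont [TopologicalSpace R] [IsTopologicalRing R] :
    Continuous fun x : Matrix σ σ R => hS S T x :=
  continuous_matrix fun _ _ => by simp only [hS, bil, of_apply]; fun_prop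

end

/-- an automorphism with its two characters -/
def Au (T : σ → σ → I → ℤ) (k w : ℕ) (γ : ℤ) {F : Type} [Field F] (g : Matrix σ σ F)
    (h : Matrix I I F) (l b : F) : Prop :=
  l ≠ 0 ∧ b ≠ 0 ∧ Hom T T g h ∧ g.det = l ^ k * b ∧ h.det = l ^ γ * g.det ^ w

section
variable {k w : ℕ} {γ : ℤ} {F F' : Type} [Field F] [Field F'] {g g' : Matrix σ σ F}
  {h h' : Matrix I I F} {l b l' b' : F}

lemma Au.dg (H : Au T k w γ g h l b) : g.det ≠ 0 :=
  H.2.2.2.1.trans_ne (mul_ne_zero (pow_ne_zero _ H.1) H.2.1)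

lemma Au.dh (H : Au T k w γ g h l b) : h.det ≠ 0 :=
  H.2.2.2.2.trans_ne (mul_ne_zero (zpow_ne_zero _ H.1) (pow_ne_zero _ H.dg))

lemma Au.iso (H : Au T k w γ g h l b) : IsoT T T g g⁻¹ h h⁻¹ :=
  ⟨mul_nonsing_inv _ H.dg.isUnit, mul_nonsing_inv _ H.dh.isUnit, H.2.2.1⟩

lemma Au.mul (H : Au T k w γ g h l b) (H' : Au T k w γ g' h' l' b') :
    Au T k w γ (g * g') (h' * h) (l * l') (b * b') :=
  ⟨mul_ne_zero H.1 H'.1, mul_ne_zero H.2.1 H'.2.1, H.2.2.1.comp H'.2.2.1,
    by rw [det_mul, H.2.2.2.1, H'.2.2.2.1]; ring,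
    by rw [det_mul, det_mul, H.2.2.2.2, H'.2.2.2.2, mul_zpow]; ring⟩

lemma Au.inv (H : Au T k w γ g h l b) : Au T k w γ g⁻¹ h⁻¹ l⁻¹ b⁻¹ :=
  ⟨inv_ne_zero H.1, inv_ne_zero H.2.1, H.iso.symm.2.2,
    by rw [det_nonsing_inv, H.2.2.2.1, Ring.inverse_eq_inv', mul_inv, inv_pow],
    by rw [det_nonsing_inv, det_nonsing_inv, H.2.2.2.2, Ring.inverse_eq_inv', mul_inv, inv_pow,
      _root_.inv_zpow]⟩

lemma Au.map (H : Au T k w γ g h l b) (φ : F →+* F') :
    Au T k w γ (g.map φ) (h.map φ) (φ l) (φ b) := by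
  have e : ∀ {a : Type} [Fintype a] [DecidableEq a] (m : Matrix a a F), (m.map φ).det = φ m.det :=
    fun m => (RingHom.map_det φ m).symm
  exact ⟨(map_ne_zero φ).2 H.1, (map_ne_zero φ).2 H.2.1, H.2.2.1.map φ,
    by rw [e, H.2.2.2.1, map_mul, map_pow], by rw [e, e, H.2.2.2.2, map_mul, map_pow, map_zpow₀]⟩

end

/-- the automorphism group is a split torus over a group with strong approximation -/
structure Pk (T : σ → σ → I → ℤ) where
  k : ℕ
  r : ℕ
  w : ℕ
  γ : ℤ
  U : Matrix σ (Ix k r) ℤ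
  U' : Matrix (Ix k r) σ ℤ
  hγ : γ = 1 ∨ γ = -1
  h1 : U * U' = 1
  h2 : U' * U = 1
  A : ∀ (F : Type) [Field F] [CharZero F] (g g' : Matrix σ σ F) (h h' : Matrix I I F),
    IsoT T T g g' h h' → ∃ l b, Au T k w γ g h l b ∧ (k = 0 → l = 1) ∧ (r = 0 → b = 1)
  B : ∀ (g : Matrix σ σ ℤ) (h : Matrix I I ℚ) (l b : ℚ),
    Au T k w γ (g.map (Int.castRingHom ℚ)) h l b → (k = 0 → l = 1) →
      ∃ l0 b0 : ℤ, l = l0 ∧ b = b0
  C : ∀ (F : Type) [Field F] [CharZero F] (u v : F), u ≠ 0 → v ≠ 0 → (k = 0 → u = 1) →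
    (r = 0 → v = 1) → ∃ h, Au T k w γ (dl U U' u v) h u v
  D : ∀ N : ℕ, N ≠ 0 → ∀ z : ∀ p : PS N, Matrix σ σ ℚ_[p], (∀ p, ∃ h, Au T k w γ (z p) h 1 1) →
    ∀ V : Set (∀ p : PS N, Matrix σ σ ℚ_[p]), IsOpen V → z ∈ V → ∃ s : Matrix σ σ (Lam N),
      IsUnit s ∧ (fun p => s.map (lc p)) ∈ V ∧ ∃ h, Hom T T (s.map (Lam N).subtype) h

end Pool.Agent.Lib.MP_a8bb0e_al.Ex
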