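import Pool.Agent.Lib.MP_a8bb0e_al.Ex.Au

/-! From approximation of matrices to an isomorphism of extensions, for two lattices. -/

open scoped commutatorElement
open Matrix

namespace Pool.Agent.Lib.MP_a8bb0e_al.Ex

open Uni Tor

variable {G H B B' : Type} [Group G] [Group H] [Group B] [Group B'] {σ I : Type} [Fintype σ]
  [Fintype I] [DecidableEq σ] [DecidableEq I]

lemma exists_hom2 (E : Ext G σ I) (E' : Ext H σ I) {s : σ → H} {y : σ → G}
    (hs : ∀ i, E'.p (s i) = Pi.single i 1) {a : Matrix σ σ ℤ} {b : Matrix I I ℤ}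
    (hy : ∀ i, E.p (y i) = a *ᵥ Pi.single i 1) (h : Hom (ten E) (ten E') a b) :
    ∃ F : H →* G, (∀ i, F (s i) = y i) ∧ (∀ u, E.p (F u) = a *ᵥ E'.p u) ∧
      ∀ c, F (E'.i c) = E.i (c ᵥ* b) := by
  obtain ⟨F, h1, h2⟩ := exists_hom' E' hs y (MonoidHom.mk' (fun c => E.i (c.toAdd ᵥ* b))
    fun a b => by rw [toAdd_mul, add_vecMul, E.i_add]) (fun _ _ => E.i_cen _ _) fun i k => by
      rw [← E.i_w, hy, hy, w_eq_bil, mulVec_single_one, mulVec_single_one]
      exact congrArg E.i (funext fun c => h i k c)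
  obtain ⟨g, -, h3, -⟩ := mats_of_hom E' E F
  refine ⟨F, h1, fun u => ?_, h2⟩
  rw [h3, show g = a from Matrix.ext_of_mulVec_single fun i => by rw [← hy, ← h1, h3, hs]]

/-- the matrices come from an injective endomorphism of `G` -/
def Cp (E : Ext B σ I) (π : G →* B) (g : Matrix σ σ ℤ) (h : Matrix I I ℤ) : Prop :=
  ∃ (φ : G →* G) (φ' : B →* B), Function.Injective φ ∧ (∀ x, π (φ x) = φ' (π x)) ∧
    (∀ u, E.p (φ' u) = g *ᵥ E.p u) ∧ ∀ c, φ' (E.i c) = E.i (c ᵥ* h)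

theorem back2 [Group.IsNilpotent G] [Group.FG G] [Group.IsNilpotent H] [Group.FG H]
    (E : Ext B σ I) (E' : Ext B' σ I) {π : G →* B} (hπ : Function.Surjective π) [Finite π.ker]
    {π' : H →* B'} (hπ' : Function.Surjective π') [Finite π'.ker]
    (hc : Nat.card π.ker ≤ Nat.card π'.ker) (h : SameFin G H) (hB : SameFin B B')
    (app : ∀ D : ℕ, 0 < D → ∃ L, 0 < L ∧ ∀ (g0 : Matrix σ σ ℤ) (h0 : Matrix I I ℤ)
      (g' : Matrix σ σ (ZMod L)) (h' : Matrix I I (ZMod L)),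
      IsoT (ten E) (ten E') (g0.map (Int.castRingHom _)) g' (h0.map (Int.castRingHom _)) h' →
      ∃ (g a a' : Matrix σ σ ℤ) (h b b' : Matrix I I ℤ), Cp E π g h ∧
        IsoT (ten E) (ten E') a a' b b' ∧ (∀ i j, (D : ℤ) ∣ (g * a - g0) i j) ∧
        ∀ i j, (D : ℤ) ∣ (b * h - h0) i j) : Nonempty (H ≃* G) := by
  have := Group.nilpotent_of_surjective π hπ
  have := Group.fg_of_surjective hπ
  have := Group.nilpotent_of_surjective π' hπ'
  have := Group.fg_of_surjective hπ'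
  obtain ⟨c1, hc1⟩ := exists_sep π.ker
  obtain ⟨c2, hc2⟩ := exists_sep π'.ker
  obtain ⟨D, hD, d1, d2⟩ : ∃ D, 0 < D ∧
      (∀ t ∈ π.ker, t ∈ Vm G D → t = 1) ∧ ∀ t ∈ π'.ker, t ∈ Vm H D → t = 1 :=
    ⟨Nat.card π.ker ^ c1 * Nat.card π'.ker ^ c2,
      Nat.mul_pos (pow_pos Nat.card_pos _) (pow_pos Nat.card_pos _),
      fun t ht h => hc1 t ht (Vm_dvd (dvd_mul_right _ _) h),
      fun t ht h => hc2 t ht (Vm_dvd (dvd_mul_left _ _) h)⟩
  obtain ⟨L, hL, app⟩ := app D hD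
  obtain ⟨N, hN, l1⟩ := lev1 E E'
  obtain ⟨f, f', hf, hf', hff⟩ := down E hπ hπ' Nat.card_pos (fun _ => ker_pow) (levels h)
    (M := N * (2 * (L * D))) (by positivity)
  obtain ⟨h0, hh⟩ := l1 _ f'
  obtain ⟨g0, g', h', hI, hg⟩ := lev2 E E' (Nat.mul_pos hL hD)
    (f := (red (MonoidHom.id B) (dvd_mul_left _ N)).comp f')
    ((red_surj Function.surjective_id (dvd_mul_left _ N)).comp hf') hh
  have hI1 := hI.map (ZMod.castHom (dvd_mul_right L D) (ZMod L))
  have hI2 := hI.map (ZMod.castHom (dvd_mul_left D L) (ZMod D))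
  rw [cast_map, cast_map] at hI1 hI2
  obtain ⟨g, a, a', h1, b, b', ⟨φ, φ', p1, p2, p3, p4⟩, p5, p6, p7⟩ := app g0 h0 _ _ hI1
  have dD : D ∣ N * (2 * (L * D)) := ⟨N * 2 * L, by ring⟩
  let α := (red (MonoidHom.id B) dD).comp f'
  choose s hs using fun i : σ => E'.p_surj (Pi.single i 1)
  have inv : ∀ c : I → ℤ, ∃ c', ∀ l, (D : ℤ) ∣ c l - (c' ᵥ* h1) l := fun c => by
    obtain ⟨m, hm⟩ : ∃ m : Matrix I I ℤ, m.map (Int.castRingHom (ZMod D)) =
        h'.map (ZMod.castHom (dvd_mul_left D L) (ZMod D)) :=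
      ⟨Matrix.map _ ZMod.cast, Matrix.ext fun i j => ZMod.intCast_zmod_cast _⟩
    refine ⟨c ᵥ* m ᵥ* b, fun l => (ZMod.intCast_zmod_eq_zero_iff_dvd _ _).1 ?_⟩
    have e : (b * h1).map (Int.castRingHom (ZMod D)) = h0.map (Int.castRingHom (ZMod D)) :=
      (map_eq_iff _ _ _).1 fun i j => (ZMod.intCast_zmod_eq_zero_iff_dvd _ _).2 (p7 i j)
    change Int.castRingHom (ZMod D) _ = 0
    rw [map_sub, vecMul_vecMul, vecMul_vecMul, RingHom.map_vecMul, Matrix.map_mul, e, hm,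
      mul_eq_one_comm.1 hI2.2.1, vecMul_one]
    exact sub_self _
  have : ∀ i, ∃ y, E.p y = a *ᵥ Pi.single i 1 ∧ (φ' y : B ⧸ Vm B D) = α (s i) := fun i => by
    obtain ⟨x, hx⟩ := QuotientGroup.mk_surjective (f' (s i))
    obtain ⟨z, hz⟩ := E.p_surj (a *ᵥ Pi.single i 1)
    obtain ⟨y, hy⟩ := hg (s i) x (by rw [MonoidHom.comp_apply, ← hx, red_mk, MonoidHom.id_apply])
    choose w hw using fun l => p6 l i
    obtain ⟨v, c, e⟩ := E.root (k := (φ' z)⁻¹ * x) (M := D) (y := L • y - w) (by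
      rw [E.p_mul, E.p_inv, p3, hz, mulVec_mulVec, eq_add_of_sub_eq hy, hs, mulVec_single_one,
        mulVec_single_one]
      ext l
      have := hw l
      simp only [Matrix.sub_apply] at this
      simp only [Pi.add_apply, Pi.neg_apply, col_apply, Pi.smul_apply, Pi.sub_apply, nsmul_eq_mul,
        Nat.cast_mul, Pi.mul_apply, Pi.natCast_apply]
      linear_combination -this)
    obtain ⟨c', hc'⟩ := inv c
    refine ⟨z * E.i c', by rw [E.p_mul, E.p_i, add_zero, hz], ?_⟩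
    rw [MonoidHom.comp_apply, ← hx, red_mk, MonoidHom.id_apply, eq_mul_of_inv_mul_eq e, map_mul, p4,
      QuotientGroup.mk_mul, QuotientGroup.mk_mul, QuotientGroup.mk_mul, QuotientGroup.mk_pow,
      quot_pow, one_mul, i_congr E hc']
  choose y hy hy' using this
  obtain ⟨γ, q1, q2, q3⟩ := exists_hom2 E E' hs hy p5.2.2
  have q4 : ∀ u, (φ' (γ u) : B ⧸ Vm B D) = α u :=
    ext_hom E' hs (F := (QuotientGroup.mk' _).comp (φ'.comp γ)) (fun i => by rw [← hy', ← q1]; rfl)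
      fun c => by
        change ((φ' (γ _) : B) : B ⧸ Vm B D) = _
        have e := congrArg (red (MonoidHom.id B) (show D ∣ 2 * (L * D) from ⟨2 * L, by ring⟩)) (hh c)
        obtain ⟨x, hx⟩ := QuotientGroup.mk_surjective (f' (E'.i c))
        rw [← hx, red_mk, red_mk, red_mk, MonoidHom.id_apply, MonoidHom.id_apply,
          MonoidHom.id_apply] at e
        rw [q3, p4, MonoidHom.comp_apply, ← hx, red_mk, MonoidHom.id_apply, e]
        refine i_congr E fun l => ?_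
        rw [vecMul_vecMul, ← Pi.sub_apply, ← vecMul_sub]
        exact Finset.dvd_sum fun k _ => (p7 k l).mul_left _
  have sγ : Function.Surjective γ := fun k => by
    obtain ⟨u, hu⟩ := E'.p_surj (a' *ᵥ E.p k)
    obtain ⟨c, hc⟩ := E.of_p_eq (u := k) (v := γ u) (by rw [q2, hu, mulVec_mulVec, p5.1, one_mulVec])
    exact ⟨u * E'.i (c ᵥ* b'), by
      rw [map_mul, q3, vecMul_vecMul, mul_eq_one_comm.1 p5.2.1, vecMul_one, ← hc]⟩
  have iγ := (symm hB).inj γ sγ
  have kφ := fun t => ker_onto (π := π) (t := t) p1 fun t ht => by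
    rw [MonoidHom.mem_ker, p2, ht, map_one]
  have iφ : Function.Injective φ' := (injective_iff_map_eq_one _).2 fun x hx => by
    obtain ⟨x, rfl⟩ := hπ x
    obtain ⟨t, ht, e⟩ := kφ (φ x) ((p2 x).trans hx)
    rw [← p1 e]; exact ht
  obtain ⟨Φ, r1, r2⟩ := pullback hπ d1 (φ'.comp (γ.comp π'))
    ((red (MonoidHom.id G) dD).comp f) fun x => by
      refine Eq.trans ?_ (q4 _).symm
      obtain ⟨z, hz⟩ := QuotientGroup.mk_surjective (f x)
      rw [MonoidHom.comp_apply, MonoidHom.comp_apply, hff, ← hz, red_mk, red_mk, red_mk, red_mk,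
        MonoidHom.id_apply, MonoidHom.id_apply]
  have iΦ : Function.Injective Φ := (injective_iff_map_eq_one _).2 fun x hx =>
    d2 x (iγ (iφ (by rw [map_one, map_one, ← map_one π, ← hx, r1]; rfl)))
      (ker_le h hD _ ((red_surj Function.surjective_id dD).comp hf) (by rw [← r2, hx]; rfl))
  have kΦ : ∀ t ∈ π.ker, ∃ x, Φ x = t := fun t ht => by
    have mem : ∀ x : π'.ker, Φ x ∈ π.ker := fun x => by
      rw [MonoidHom.mem_ker, r1, MonoidHom.comp_apply, MonoidHom.comp_apply, x.2, map_one, map_one]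
    have inj : Function.Injective fun x : π'.ker => (⟨Φ x, mem x⟩ : π.ker) :=
      fun x y e => Subtype.ext (iΦ (congrArg (fun z : π.ker => z.1) e))
    obtain ⟨x, e⟩ := (inj.bijective_of_nat_card_le hc).2 ⟨t, ht⟩
    exact ⟨x, congrArg Subtype.val e⟩
  have eq : Φ.range = φ.range := by
    ext z
    constructor
    · rintro ⟨x, rfl⟩
      obtain ⟨u, hu⟩ := hπ (γ (π' x))
      obtain ⟨t, -, e⟩ := kφ ((φ u)⁻¹ * Φ x) (by
        rw [MonoidHom.mem_ker, map_mul, map_inv, p2, hu, r1, inv_mul_eq_one]; rfl)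
      exact ⟨u * t, by rw [map_mul, e, mul_inv_cancel_left]⟩
    · rintro ⟨u, rfl⟩
      obtain ⟨x, hx⟩ := (sγ.comp hπ') (π u)
      obtain ⟨t, e⟩ := kΦ ((Φ x)⁻¹ * φ u) (by
        rw [MonoidHom.mem_ker, map_mul, map_inv, p2, ← hx, r1, inv_mul_eq_one]; rfl)
      exact ⟨x * t, by rw [map_mul, e, mul_inv_cancel_left]⟩
  exact ⟨(MonoidHom.ofInjective iΦ).trans
    ((MulEquiv.subgroupCongr eq).trans (MonoidHom.ofInjective p1).symm)⟩

end Pool.Agent.Lib.MP_a8bb0e_al.Ex
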