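import Pool.Agent.Lib.MP_a8bb0e_al.Ex.Base

/-! The quotient of a class two group by its torsion subgroup. -/

open Matrix
open scoped commutatorElement

namespace Pool.Agent.Lib.MP_a8bb0e_al.Ex

open Uni Tor

theorem exists_left {B σ I : Type} [Group B] [Fintype σ] [Fintype I] [DecidableEq σ] [DecidableEq I]
    (E : Ext B σ I) {f : ℕ} (hf : ∀ c, E.i c ^ f ∈ commutator B) : ∃ S, LI S (ten E) f := by
  let L : (σ → σ → ℤ) →+ (I → ℤ) := AddMonoidHom.mk'
    (fun X a => ∑ i, ∑ j, X i j * ten E i j a) fun X Y => by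
      funext a
      simp [add_mul, Finset.sum_add_distrib]
  have h : commutator B ≤ (E.J.comp (AddMonoidHom.toMultiplicative L)).range :=
    Subgroup.commutator_le.2 fun u _ v _ => ⟨.ofAdd fun i j => E.p u i * E.p v j, by
      rw [← E.i_w, w_eq_bil]; rfl⟩
  choose S hS using fun c : I => h (hf (Pi.single c 1))
  refine ⟨fun c => (S c).toAdd, fun c a => ?_⟩
  have := congrFun (E.i_inj (c := L (S c).toAdd) ((hS c).trans (E.i_smul f _).symm)) a
  refine this.trans ?_
  simp [Pi.single_apply, eq_comm]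

theorem cl2_of {G : Type} [Group G] [Group.IsNilpotent G] (h : Group.nilpotencyClass G = 2) :
    Cl2 G := ⟨fun a b c => by
  have := Subgroup.lowerCentralSeries_nilpotencyClass (G := G)
  rw [h, Subgroup.lowerCentralSeries_succ, Subgroup.top_lowerCentralSeries_one, eq_bot_iff,
    Subgroup.commutator_le] at this
  exact commutatorElement_eq_one_iff_commute.1 (Subgroup.mem_bot.1
    (this _ (Subgroup.commutator_mem_commutator trivial trivial) c trivial))⟩

lemma rank_eq {A C : Type} [CommGroup A] [AddCommGroup C] (φ : A →* Multiplicative C)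
    (h1 : ∀ x, φ x = 1 → IsOfFinOrder x) (h2 : ∀ y, ∃ n, 0 < n ∧ y ^ n ∈ φ.range) :
    Module.finrank ℤ (Additive A) = Module.finrank ℤ C := by
  let ψ : Additive A →ₗ[ℤ] C := (AddMonoidHom.mk' (fun x : Additive A => (φ x.toMul).toAdd)
    fun x y => by simp).toIntLinearMap
  have e1 : Module.rank ℤ (LinearMap.ker ψ) = 0 := rank_eq_zero_iff.2 fun x => by
    obtain ⟨n, hn, e⟩ := isOfFinOrder_iff_pow_eq_one.1 (h1 x.1.toMul x.2)
    refine ⟨n, by exact_mod_cast hn.ne', Subtype.ext ?_⟩
    rw [natCast_zsmul]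
    exact e
  have e2 : Module.rank ℤ (C ⧸ LinearMap.range ψ) = 0 := rank_eq_zero_iff.2 fun y => by
    obtain ⟨y, rfl⟩ := Submodule.Quotient.mk_surjective _ y
    obtain ⟨n, hn, x, e⟩ := h2 (.ofAdd y)
    refine ⟨n, by exact_mod_cast hn.ne', ?_⟩
    rw [← Submodule.Quotient.mk_smul, Submodule.Quotient.mk_eq_zero, natCast_zsmul]
    exact ⟨.ofMul x, congrArg Multiplicative.toAdd e⟩
  rw [Module.finrank, Module.finrank, ← ψ.rank_range_add_rank_ker,
    ← (LinearMap.range ψ).rank_quotient_add_rank, e1, e2, add_zero, zero_add]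

lemma fin_tor (A : Type) [CommGroup A] [Module.Finite ℤ (Additive A)] :
    Finite (CommGroup.torsion A) := by
  have := Module.finite_of_fg_torsion (Submodule.torsion ℤ (Additive A))
    (Submodule.torsion_isTorsion)
  refine Finite.of_injective (β := Submodule.torsion ℤ (Additive A))
    (fun x => ⟨.ofMul x.1, ?_⟩) fun x y e => Subtype.ext (Subtype.mk.inj e)
  obtain ⟨n, hn, e⟩ := isOfFinOrder_iff_pow_eq_one.1 x.2
  refine ⟨⟨n, mem_nonZeroDivisors_of_ne_zero (by exact_mod_cast hn.ne')⟩, ?_⟩
  change (n : ℤ) • Additive.ofMul x.1 = 0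
  rw [natCast_zsmul]
  exact e

/-- the torsion subgroup of a group of class two -/
def tors (G : Type) [Group G] [Cl2 G] : Subgroup G where
  carrier := {x | IsOfFinOrder x}
  one_mem' := IsOfFinOrder.one
  inv_mem' := IsOfFinOrder.inv
  mul_mem' := fun {x y} hx hy => by
    obtain ⟨m, hm, e⟩ := isOfFinOrder_iff_pow_eq_one.1 hx
    obtain ⟨n, hn, e'⟩ := isOfFinOrder_iff_pow_eq_one.1 hy
    refine IsOfFinOrder.of_pow (n := m * n) ?_ (mul_pos hm hn).ne'
    rw [mul_pow_cl2, pow_mul, e, pow_mul', e', one_pow, one_pow, one_mul, one_mul]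
    refine IsOfFinOrder.pow (isOfFinOrder_iff_pow_eq_one.2 ⟨n, hn, ?_⟩)
    rw [← comm_pow_left (Cl2.c y x y), e', commutatorElement_one_left]

instance (G : Type) [Group G] [Cl2 G] : (tors G).Normal :=
  ⟨fun _ hx g => (MulAut.conj g).toMonoidHom.isOfFinOrder hx⟩

theorem exists_bar' (G : Type) [Group G] [Group.FG G] [Cl2 G] :
    ∃ (B : Type) (_ : Group B) (π : G →* B)
      (E : Ext B (Fin (Module.finrank ℤ (Additive (Abelianization G))))
        (Fin (Module.finrank ℤ (Additive (Abelianization (commutator G)))))),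
      Function.Surjective π ∧ Finite π.ker ∧
      Nat.card π.ker = Nat.card {x : G // IsOfFinOrder x} ∧
      E.J.range.comap π = (CommGroup.torsion (Abelianization G)).comap Abelianization.of ∧
      0 < Nat.card (CommGroup.torsion (Abelianization G)) ∧
      ∀ c, E.i c ^ Nat.card (CommGroup.torsion (Abelianization G)) ∈ commutator B := by
  have : Group.FG (Abelianization G) :=
    Group.fg_of_surjective (f := Abelianization.of) (QuotientGroup.mk_surjective)
  have : Module.Finite ℤ (Ab G) := Module.Finite.iff_addGroup_fg.2 inferInstance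
  have : Module.Finite ℤ (Der G) :=
    Module.Finite.of_surjective (TensorProduct.lift (om (H := G))) fun c =>
      der_le (LinearMap.range (TensorProduct.lift (om (H := G)))).toAddSubgroup
        (fun a b => LinearMap.mem_range_self _ (a ⊗ₜ b)) c
  have f1 := fin_tor (Abelianization G)
  have f2 := fin_tor (commutator G)
  have f3 : Finite (tors G) := by
    refine (Abelianization.of.comp (tors G).subtype).finite_iff_finite_ker_range.2 ⟨?_, ?_⟩
    · refine Finite.of_injective (β := CommGroup.torsion (commutator G))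
        (fun x => ⟨⟨x.1.1, ab_eq_zero.1 x.2⟩, ?_⟩) fun x y e =>
          Subtype.ext (Subtype.ext (congrArg (fun z : CommGroup.torsion (commutator G) => z.1.1) e))
      exact Submonoid.isOfFinOrder_coe.1 x.1.2
    · refine Finite.of_injective (β := CommGroup.torsion (Abelianization G))
        (fun x => ⟨x.1, ?_⟩) fun x y e => Subtype.ext (Subtype.mk.inj e)
      obtain ⟨_, y, rfl⟩ := x
      exact Abelianization.of.isOfFinOrder y.2
  let π := QuotientGroup.mk' (tors G)
  have hπ : Function.Surjective π := QuotientGroup.mk'_surjective _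
  have hk : π.ker = tors G := QuotientGroup.ker_mk' _
  have h1 : ∀ x, π x = 1 ↔ IsOfFinOrder x := fun x => QuotientGroup.eq_one_iff x
  have : Cl2 (G ⧸ tors G) := ⟨fun a b c => by
    obtain ⟨a, rfl⟩ := hπ a
    obtain ⟨b, rfl⟩ := hπ b
    obtain ⟨c, rfl⟩ := hπ c
    rw [← map_commutatorElement]
    exact (Cl2.c a b c).map π⟩
  obtain ⟨n, m, ⟨E⟩⟩ := exists_ext (H := G ⧸ tors G) fun x k hk e => by
    obtain ⟨x, rfl⟩ := hπ x
    rw [← map_pow, h1] at e
    exact (h1 x).2 (e.of_pow hk.ne')
  have hc : (commutator G).map π = commutator (G ⧸ tors G) := by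
    rw [commutator_def, commutator_def, Subgroup.map_commutator,
      Subgroup.map_top_of_surjective π hπ]
  have h2 : ∀ x, E.P (π x) = 1 ↔ IsOfFinOrder (Abelianization.of x) := fun x => by
    constructor
    · intro h
      obtain ⟨c, hc'⟩ := (E.ex _).1 h
      obtain ⟨N, hN, e⟩ := E.tor c
      rw [hc', ← hc, ← map_pow] at e
      obtain ⟨d, hd, e⟩ := e
      have : IsOfFinOrder (d⁻¹ * x ^ N) := (h1 _).1 (by rw [map_mul, map_inv, e, inv_mul_cancel])
      have := Abelianization.of.isOfFinOrder this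
      rw [map_mul, map_inv, show Abelianization.of d = 1 from ab_eq_zero.2 hd, inv_one, one_mul,
        map_pow] at this
      exact this.of_pow hN.ne'
    · intro h
      have := (Abelianization.lift (E.P.comp π)).isOfFinOrder h
      exact (isOfFinOrder_iff_eq_one _).1 this
  have h3 : ∀ d : commutator G, π d ∈ E.J.range := fun d =>
    (E.ex _).1 (Abelianization.commutator_subset_ker (E.P.comp π) d.2)
  have r1 : Module.finrank ℤ (Additive (Abelianization G)) = n := by
    rw [rank_eq (Abelianization.lift (E.P.comp π)) (fun x hx => ?_) fun y => ⟨1, one_pos, ?_⟩,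
      Module.finrank_fin_fun]
    · obtain ⟨x, rfl⟩ : ∃ y, Abelianization.of y = x := QuotientGroup.mk_surjective x
      exact (h2 x).1 hx
    · obtain ⟨x, hx⟩ := (E.Ps.comp hπ) y
      exact ⟨Abelianization.of x, hx.trans (pow_one y).symm⟩
  let ρ : commutator G →* Multiplicative (Fin m → ℤ) :=
    (MonoidHom.ofInjective E.Ji).symm.toMonoidHom.comp
      ((π.comp (commutator G).subtype).codRestrict E.J.range h3)
  have hρ : ∀ d, E.J (ρ d) = π d := fun d => MonoidHom.apply_ofInjective_symm E.Ji _
  have r2 : Module.finrank ℤ (Additive (Abelianization (commutator G))) = m := by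
    rw [rank_eq (Abelianization.lift ρ) (fun x hx => ?_) fun y => ?_, Module.finrank_fin_fun]
    · obtain ⟨x, rfl⟩ : ∃ y, Abelianization.of y = x := QuotientGroup.mk_surjective x
      refine Abelianization.of.isOfFinOrder (Submonoid.isOfFinOrder_coe.1 ((h1 x).1 ?_))
      rw [← hρ, show ρ x = 1 from hx, map_one]
    · obtain ⟨N, hN, e⟩ := E.tor y
      rw [← hc] at e
      obtain ⟨d, hd, e⟩ := e
      exact ⟨N, hN, Abelianization.of ⟨d, hd⟩, E.Ji (by
        rw [map_pow, ← e]; exact hρ _)⟩
  subst r1 r2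
  refine ⟨_, inferInstance, π, E, hπ, by rwa [hk], by rw [hk]; rfl, ?_, Nat.card_pos, fun c => ?_⟩
  · ext x
    exact (E.ex _).symm.trans (h2 x)
  · obtain ⟨x, hx⟩ := hπ (E.i c)
    have h4 := (h2 x).1 (by rw [hx]; exact (E.ex _).2 ⟨_, rfl⟩)
    rw [← hx, ← map_pow, ← hc]
    refine Subgroup.mem_map_of_mem π (ab_eq_zero.1 ?_)
    change Abelianization.of _ = 1
    rw [map_pow]
    exact congrArg Subtype.val
      (pow_card_eq_one' (x := (⟨_, h4⟩ : CommGroup.torsion (Abelianization G))))

end Pool.Agent.Lib.MP_a8bb0e_al.Ex
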