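import Pool.Agent.Lib.MP_a8bb0e_al.Ex.Dens
import Pool.Agent.Lib.MP_a8bb0e_al.Tor.E

/-! Shared definitions for class two groups of extreme type. -/

open Matrix

namespace Pool.Agent.Lib.MP_a8bb0e_al.Ex

variable {σ I : Type} [Fintype σ] [Fintype I] [DecidableEq σ] [DecidableEq I]

/-- index type of a symplectic basis -/
abbrev Ix (k r : ℕ) := (Fin k ⊕ Fin k) ⊕ Fin r

/-- nondegenerate part of a normal form -/
def Jd {k : ℕ} (d : Fin k → ℤ) : Matrix (Fin k ⊕ Fin k) (Fin k ⊕ Fin k) ℤ :=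
  fromBlocks 0 (diagonal d) (-diagonal d) 0

/-- a homomorphism of bilinear maps -/
def Hom (T T' : σ → σ → I → ℤ) {R : Type} [CommRing R] (g : Matrix σ σ R) (h : Matrix I I R) :
    Prop :=
  ∀ i j a, ∑ k, ∑ l, g k i * g l j * (T k l a : R) = ∑ b, (T' i j b : R) * h b a

/-- antisymmetry -/
def Alt (T : σ → σ → I → ℤ) : Prop := ∀ i j a, T j i a = -T i j a

/-- the values of `T` span `f` times the lattice -/
def LI (S : I → σ → σ → ℤ) (T : σ → σ → I → ℤ) (f : ℕ) : Prop :=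
  ∀ c a, ∑ i, ∑ j, S c i j * T i j a = if c = a then (f : ℤ) else 0

/-- the bivector `Ω` spans the kernel of `T` -/
def Ker (T : σ → σ → I → ℤ) (Ω : Matrix σ σ ℤ) : Prop :=
  Ωᵀ = -Ω ∧ ∀ (F : Type) [Field F] [CharZero F] (X : Matrix σ σ F),
    (∀ a, ∑ i, ∑ j, X i j * (T i j a : F) = 0) ↔ ∃ c : F, X - Xᵀ = c • Ω.map (Int.castRingHom F)

end Pool.Agent.Lib.MP_a8bb0e_al.Ex
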