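import Pool.Agent.Lib.MP_a8bb0e_al.Ex.Pad

/-! Approximation of equivalences modulo a deep level by integral ones. -/

open Matrix Filter Topology

namespace Pool.Agent.Lib.MP_a8bb0e_al.Ex

open Uni

variable {σ I : Type} [Fintype σ] [Fintype I] [DecidableEq σ] [DecidableEq I]
  {T T' : σ → σ → I → ℤ}

lemma both {p : ℕ} [Fact p.Prime] {g a a' : Matrix σ σ ℚ_[p]} (h1 : In (PadicInt.subring p) g)
    (h2 : ‖g.det‖ = 1) (h3 : In (PadicInt.subring p) (g * a)) (h4 : ‖(g * a).det‖ = 1)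
    (h : a * a' = 1) : In (PadicInt.subring p) a ∧ In (PadicInt.subring p) a' := by
  have u1 : IsUnit g.det := (norm_ne_zero_iff.1 (h2.trans_ne one_ne_zero)).isUnit
  have u2 : IsUnit (g * a).det := (norm_ne_zero_iff.1 (h4.trans_ne one_ne_zero)).isUnit
  have a1 := (h1.inv h2).mul h3
  have a2 := (h3.inv h4).mul h1
  rw [nonsing_inv_mul_cancel_left _ _ u1] at a1
  rw [show (g * a)⁻¹ * g = a' by
    rw [← nonsing_inv_mul_cancel_left _ a' u2, Matrix.mul_assoc g, h, Matrix.mul_one]] at a2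
  exact ⟨a1, a2⟩

lemma both' {p : ℕ} [Fact p.Prime] {g a a' : Matrix σ σ ℚ_[p]} (h1 : In (PadicInt.subring p) g)
    (h2 : ‖g.det‖ = 1) (h3 : In (PadicInt.subring p) (a * g)) (h4 : ‖(a * g).det‖ = 1)
    (h : a' * a = 1) : In (PadicInt.subring p) a ∧ In (PadicInt.subring p) a' := by
  have := both (g := gᵀ) (a := aᵀ) (a' := a'ᵀ) (fun i j => h1 j i) (by rwa [det_transpose])
    (by rw [← transpose_mul]; exact fun i j => h3 j i) (by rwa [← transpose_mul, det_transpose])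
    (by rw [← transpose_mul, h, transpose_one])
  exact ⟨fun i j => this.1 j i, fun i j => this.2 j i⟩

theorem core (P : Pk T) {S S' : I → σ → σ → ℤ} {f f' e : ℕ} (L1 : LI S T f) (L2 : LI S' T' f')
    (hf : 0 < f) (hf' : 0 < f') (he : 0 < e) {ρ ρ' : Matrix σ σ ℚ} {η η' : Matrix I I ℚ}
    (hρ : IsoT T T' ρ ρ' η η') (Φ : Matrix σ σ ℤ → Matrix I I ℤ → Prop)
    (crit : ∀ u v : ℕ, 0 < u → 0 < v → (u * v).Coprime e → (P.k = 0 → u = 1) → (P.r = 0 → v = 1) →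
      ∃ (g : Matrix σ σ ℤ) (h : Matrix I I ℤ) (l b : ℚ), Φ g h ∧ |l| = u ∧ |b| = v ∧
        (P.k = 0 → l = 1) ∧ (P.r = 0 → b = 1) ∧
        Au T P.k P.w P.γ (g.map (Int.castRingHom ℚ)) (h.map (Int.castRingHom ℚ)) l b)
    {D : ℕ} (hD : 0 < D) : ∃ L, 0 < L ∧ ∀ (g0 : Matrix σ σ ℤ) (h0 : Matrix I I ℤ)
      (g' : Matrix σ σ (ZMod L)) (h' : Matrix I I (ZMod L)),
      IsoT T T' (g0.map (Int.castRingHom _)) g' (h0.map (Int.castRingHom _)) h' →
      ∃ (g a a' : Matrix σ σ ℤ) (h b b' : Matrix I I ℤ), Φ g h ∧ IsoT T T' a a' b b' ∧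
        (∀ i j, (D : ℤ) ∣ (g * a - g0) i j) ∧ ∀ i j, (D : ℤ) ∣ (b * h - h0) i j := by
  obtain ⟨n0, m0, d0⟩ := exists_den ρ
  obtain ⟨n1, m1, d1⟩ := exists_den ρ'
  obtain ⟨N, hN, N1, N2, N3, N4, N5, d0, d1⟩ : ∃ N, N ≠ 0 ∧ N ≠ 1 ∧ D ∣ N ∧ e ∣ N ∧ f ∣ N ∧ f' ∣ N ∧
      In (Lam N) ρ ∧ In (Lam N) ρ' :=
    ⟨2 * (D * e * f * f' * n0 * n1), by positivity, by omega, ⟨2 * e * f * f' * n0 * n1, by ring⟩,
      ⟨2 * D * f * f' * n0 * n1, by ring⟩, ⟨2 * D * e * f' * n0 * n1, by ring⟩,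
      ⟨2 * D * e * f * n0 * n1, by ring⟩, d0 _ ⟨2 * D * e * f * f' * n1, by ring⟩,
      d1 _ ⟨2 * D * e * f * f' * n0, by ring⟩⟩
  choose k hk using fun p : PS N => lift_padic T T' p (ε := ‖(D : ℚ_[p])‖)
    (norm_pos_iff.2 (by exact_mod_cast hD.ne'))
  obtain ⟨L, hL, dL⟩ : ∃ L, 0 < L ∧ ∀ p : PS N, p.1 ^ k p ∣ L :=
    ⟨∏ p : PS N, p.1 ^ k p, Finset.prod_pos fun p _ => pow_pos (Fact.out : p.1.Prime).pos _,
      fun p => Finset.dvd_prod_of_mem _ (Finset.mem_univ p)⟩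
  refine ⟨L, hL, fun g0 h0 g' h' hI => ?_⟩
  choose G G' H H' c1 c2 c3 using fun p : PS N => hk p g0 h0 _ _ (by
    have := hI.map (ZMod.castHom (dL p) (ZMod (p.1 ^ k p)))
    rwa [cast_map, cast_map] at this)
  let c := fun p : PS N => Rat.castHom ℚ_[p]
  choose l b x1 x2 x3 using fun p : PS N => P.A _ _ _ _ _
    (((c1 p).map PadicInt.Coe.ringHom).trans (hρ.map (c p)).symm)
  let W : ∀ p : PS N, Set (Matrix σ σ ℚ_[p]) := fun p =>
    {w | Near p D g0 w ∧ Near p D h0 ((f' : ℚ_[p])⁻¹ • hS S' T w)}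
  have oW : ∀ p, IsOpen (W p) := fun p =>
    Near.open.inter (Near.open.preimage (f := fun w => (f' : ℚ_[p])⁻¹ • hS S' T w)
      ((hS_cont (S := S') (T := T)).const_smul (f' : ℚ_[p])⁻¹))
  have sm : ∀ {F : Type} [Field F] [CharZero F] {n : ℕ}, 0 < n → ∀ m : Matrix I I F,
      (n : F)⁻¹ • (n : F) • m = m := fun hn m => inv_smul_smul₀ (by exact_mod_cast hn.ne') m
  obtain ⟨ε, hε, hV⟩ := Metric.isOpen_iff.1 (isOpen_set_pi Set.finite_univ fun p _ =>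
    (oW p).preimage (f := fun t : ℚ_[p] × ℚ_[p] => (G p).map PadicInt.Coe.ringHom * ρ'.map (c p) *
      dl P.U P.U' t.1 t.2 * ρ.map (c p))
      ((continuous_const.matrix_mul dl_cont).matrix_mul continuous_const)) (fun _ => (1, 1))
    fun p _ => by
      rw [Set.mem_preimage, dl_one P.h1, Matrix.mul_one, Matrix.mul_assoc,
        (hρ.map (c p)).symm.1, Matrix.mul_one]
      refine ⟨near_of (c1 p).1 (c2 p), ?_⟩
      rw [Hom.eq ((c1 p).map _).2.2 L2, sm hf']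
      exact near_of (c1 p).2.1 (c3 p)
  obtain ⟨q1, u, a1, a2, a3, a4, a5, a6, a7⟩ := approx_unit hN N1 l (fun p => (x1 p).1) hε
  obtain ⟨q2, v, b1, b2, b3, b4, b5, b6, b7⟩ := approx_unit hN N1 b (fun p => (x1 p).2.1) hε
  obtain ⟨g, h, l0, b0, hΦ, e1, e2, e3, e4, e5⟩ := crit u v a4 b4
    ((Nat.Coprime.mul_left a5 b5).coprime_dvd_right N3) (fun e => (a7 fun p => x2 p e).2)
    fun e => (b7 fun p => x3 p e).2
  have sg : ∀ {q l0 : ℚ} {u : ℕ}, q ≠ 0 → q ∈ Lam N → q⁻¹ ∈ Lam N → 0 < u → |l0| = u →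
      ∃ y : ℚ, y ≠ 0 ∧ y ∈ Lam N ∧ y⁻¹ ∈ Lam N ∧ l0 * y = u * q ∧ (l0 = 1 → y = q) ∧
        ∀ p : PS N, ‖c p l0‖ = ‖(u : ℚ_[p])‖ := fun {q l0 u} h1 h2 h3 h4 h5 => by
    rcases eq_or_eq_neg_of_abs_eq h5 with rfl | rfl
    · exact ⟨q, h1, h2, h3, rfl, fun _ => rfl, fun p => by simp⟩
    · exact ⟨-q, neg_ne_zero.2 h1, neg_mem h2, by rw [inv_neg]; exact neg_mem h3, by ring,
        fun e => by have : (0 : ℚ) ≤ u := u.cast_nonneg; linarith, fun p => by simp⟩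
  obtain ⟨y1, s1, s2, s3, s4, s5, s6⟩ := sg a1 a2 a3 a4 e1
  obtain ⟨y2, t1, t2, t3, t4, t5, t6⟩ := sg b1 b2 b3 b4 e2
  have k1 : P.k = 0 → y1 = 1 := fun e => (s5 (e3 e)).trans (a7 fun p => x2 p e).1
  have k2 : P.r = 0 → y2 = 1 := fun e => (t5 (e4 e)).trans (b7 fun p => x3 p e).1
  obtain ⟨hy, Ay⟩ := P.C ℚ y1 y2 s1 t1 k1 k2
  have iy : dl P.U P.U' y1 y2 * dl P.U P.U' y1⁻¹ y2⁻¹ = 1 := by
    rw [dl_mul P.h2, mul_inv_cancel₀ s1, mul_inv_cancel₀ t1, dl_one P.h1]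
  have ne : ∀ (p : PS N) {u : ℕ} {q : ℚ} {x : ℚ_[p]}, 0 < u → q ≠ 0 → x ≠ 0 →
      u * (q : ℚ_[p]) / x ≠ 0 := fun p u q x h1 h2 h3 =>
    div_ne_zero (mul_ne_zero (by exact_mod_cast h1.ne') (by exact_mod_cast h2)) h3
  choose ht At using fun p : PS N => P.C ℚ_[p] (u * (q1 : ℚ_[p]) / l p) (v * (q2 : ℚ_[p]) / b p)
    (ne p a4 a1 (x1 p).1) (ne p b4 b1 (x1 p).2.1)
    (fun e => by simp [(a7 fun p => x2 p e).1, (a7 fun p => x2 p e).2, x2 p e])
    fun e => by simp [(b7 fun p => x3 p e).1, (b7 fun p => x3 p e).2, x3 p e]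
  have one : ∀ (p : PS N) {l0 y q : ℚ} {u : ℕ} {x : ℚ_[p]}, l0 ≠ 0 → y ≠ 0 → x ≠ 0 →
      l0 * y = u * q → (c p l0)⁻¹ * x * (u * (q : ℚ_[p]) / x) * (c p y)⁻¹ = 1 :=
    fun p l0 y q u x h1 h2 h3 h4 => by
      have h5 := congrArg (c p) h4
      have := (map_ne_zero (c p)).2 h1
      have := (map_ne_zero (c p)).2 h2
      rw [map_mul, map_mul, map_natCast] at h5
      rw [show (q : ℚ_[p]) = c p q from rfl, ← h5]
      field_simp
  obtain ⟨s, us, hs, hs', Hs⟩ := P.D N hN _ (fun p => ⟨_, by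
      have := (((e5.map (c p)).inv.mul (x1 p)).mul (At p)).mul (Ay.map (c p)).inv
      rwa [one p e5.1 s1 (x1 p).1 s4, one p e5.2.1 t1 (x1 p).2.1 t4] at this⟩)
    (Set.univ.pi fun p => (fun z => (g.map (Int.castRingHom ℚ)).map (c p) *
      (z * (dl P.U P.U' y1 y2).map (c p) * ρ.map (c p))) ⁻¹' W p)
    (isOpen_set_pi Set.finite_univ fun p _ => (oW p).preimage (continuous_const.matrix_mul
      ((continuous_id.matrix_mul continuous_const).matrix_mul continuous_const))) fun p _ => by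
      rw [Set.mem_preimage, nonsing_inv_mul_cancel_right _ _ (Ay.map (c p)).dg.isUnit,
        Matrix.mul_assoc, Matrix.mul_assoc, mul_nonsing_inv_cancel_left _ _ (e5.map (c p)).dg.isUnit,
        ← Matrix.mul_assoc]
      exact hV (show (fun p : PS N => (u * (q1 : ℚ_[p]) / l p, v * (q2 : ℚ_[p]) / b p)) ∈ _ from
        (dist_pi_lt_iff hε).2 fun p => by
          rw [Prod.dist_eq, dist_eq_norm, dist_eq_norm]; exact max_lt (a6 p) (b6 p)) p trivial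
  obtain ⟨s', ss⟩ := us.exists_right_inv
  have Ha := (Hs.comp Ay.2.2.1).comp hρ.2.2
  generalize η * (hy * hs') = β at Ha
  have aa : s.map (Lam N).subtype * dl P.U P.U' y1 y2 * ρ *
      (ρ' * (dl P.U P.U' y1⁻¹ y2⁻¹ * s'.map (Lam N).subtype)) = 1 := by
    rw [Matrix.mul_assoc, ← Matrix.mul_assoc ρ, hρ.1, Matrix.one_mul, Matrix.mul_assoc,
      ← Matrix.mul_assoc (dl _ _ _ _), iy, Matrix.one_mul, ← Matrix.map_mul, ss,
      Matrix.map_one _ (map_zero _) (map_one _)]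
  have i1 : In (Lam N) (s.map (Lam N).subtype * dl P.U P.U' y1 y2 * ρ) :=
    (In.mul (fun i j => (s i j).2) (dl_in s2 t2)).mul d0
  have i2 : In (Lam N) (ρ' * (dl P.U P.U' y1⁻¹ y2⁻¹ * s'.map (Lam N).subtype)) :=
    d1.mul ((dl_in s3 t3).mul fun i j => (s' i j).2)
  have w1 : ∀ p, (g.map (Int.castRingHom ℚ)).map (c p) *
      (s.map (Lam N).subtype * dl P.U P.U' y1 y2 * ρ).map (c p) ∈ W p := fun p => by
    rw [Matrix.map_mul, Matrix.map_mul]; exact hs p trivial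
  generalize s.map (Lam N).subtype * dl P.U P.U' y1 y2 * ρ = a at Ha aa i1 w1
  generalize ρ' * (dl P.U P.U' y1⁻¹ y2⁻¹ * s'.map (Lam N).subtype) = a' at aa i2
  have bb : ((f : ℚ)⁻¹ • hS S T' a') * β = 1 := by rw [Matrix.smul_mul, Ha.left L1 aa, sm hf]
  have i3 : In (Lam N) β := by
    rw [← sm hf' β, ← Ha.eq L2]; exact i1.hS.smul (inv_mem fun _ _ h => h.trans N5)
  have i4 : In (Lam N) ((f : ℚ)⁻¹ • hS S T' a') := i2.hS.smul (inv_mem fun _ _ h => h.trans N4)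
  generalize (f : ℚ)⁻¹ • hS S T' a' = β' at bb i4
  have w2 : ∀ p : PS N, Near p D h0 (β.map (c p) * (h.map (Int.castRingHom ℚ)).map (c p)) := fun p => by
    have := (w1 p).2
    rwa [((e5.map (c p)).2.2.1.comp (Ha.map (c p))).eq L2, sm hf'] at this
  have n1 : ∀ p : PS N, ‖((g.map (Int.castRingHom ℚ)).map (c p)).det‖ = 1 := fun p => by
    rw [(e5.map (c p)).2.2.2.1, norm_mul, norm_pow, s6, t6, norm_cop p a5, norm_cop p b5, one_pow,
      one_mul]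
  have j1 := fun p : PS N => both (by rw [cast_map]; exact In.int g) (n1 p) (w1 p).1.in (w1 p).1.2
    (a' := a'.map (c p)) (by rw [← Matrix.map_mul, aa, Matrix.map_one _ (map_zero _) (map_one _)])
  have j2 := fun p : PS N => both' (by rw [cast_map]; exact In.int h) (by
      rw [(e5.map (c p)).2.2.2.2, norm_mul, norm_pow, norm_zpow, n1, s6, norm_cop p a5, one_pow,
        _root_.one_zpow, one_mul]) (w2 p).in (w2 p).2
    (a' := β'.map (c p)) (by rw [← Matrix.map_mul, bb, Matrix.map_one _ (map_zero _) (map_one _)])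
  obtain ⟨a, rfl⟩ := int_of_lam hN i1 fun p => (j1 p).1
  obtain ⟨a', rfl⟩ := int_of_lam hN i2 fun p => (j1 p).2
  obtain ⟨β, rfl⟩ := int_of_lam hN i3 fun p => (j2 p).1
  obtain ⟨β', rfl⟩ := int_of_lam hN i4 fun p => (j2 p).2
  obtain ⟨z1, z2, z3⟩ := (isoT_map_iff (T := T) (T' := T') (Int.castRingHom ℚ)).1
    ⟨aa, mul_eq_one_comm.1 bb, Ha⟩
  refine ⟨g, a, a', h, β, β', hΦ, ⟨Matrix.ext fun i j => sub_eq_zero.1 (Int.cast_eq_zero.1 (z1 i j)),
    Matrix.ext fun i j => sub_eq_zero.1 (Int.cast_eq_zero.1 (z2 i j)),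
    fun i j a => sub_eq_zero.1 (Int.cast_eq_zero.1 (z3 i j a))⟩,
    fun i j => dvd_of_norm hN N2 fun p => ?_, fun i j => dvd_of_norm hN N2 fun p => ?_⟩
  · have := (w1 p).1.1 i j
    rw [cast_map, cast_map, ← Matrix.map_mul] at this
    simpa using this
  · have := (w2 p).1 i j
    rw [cast_map, cast_map, ← Matrix.map_mul] at this
    simpa using this

end Pool.Agent.Lib.MP_a8bb0e_al.Ex
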