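import Pool.Agent.Lib.MP_a8bb0e_al.Ex.Gen

/-! Strong approximation for the isometry group of an alternating form. -/

open Matrix

namespace Pool.Agent.Lib.MP_a8bb0e_al.Ex

/-- prime divisors -/
abbrev PS (N : ℕ) := N.primeFactors

instance (N : ℕ) (p : PS N) : Fact p.1.Prime := ⟨Nat.prime_of_mem_primeFactors p.2⟩

/-- rationals that are integral away from `N` -/
def Lam (N : ℕ) : Subring ℚ where
  carrier := {q | ∀ (p : ℕ) [Fact p.Prime], ¬ p ∣ N → ‖(q : ℚ_[p])‖ ≤ 1}
  mul_mem' := fun {a b} ha hb p _ hp => by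
    rw [Rat.cast_mul, norm_mul]; exact mul_le_one₀ (ha p hp) (norm_nonneg _) (hb p hp)
  one_mem' := fun p _ _ => by simp
  add_mem' := fun {a b} ha hb p _ hp => by
    rw [Rat.cast_add]; exact (Padic.nonarchimedean _ _).trans (max_le (ha p hp) (hb p hp))
  zero_mem' := fun p _ _ => by simp
  neg_mem' := fun {a} ha p _ hp => by rw [Rat.cast_neg, norm_neg]; exact ha p hp

variable {N : ℕ}

/-- localisation map -/
noncomputable def lc (p : PS N) : Lam N →+* ℚ_[p] := (Rat.castHom _).comp (Lam N).subtype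

lemma crt (x : ∀ p : PS N, ℤ_[p]) (k : ℕ) :
    ∃ z : ℕ, ∀ p : PS N, ‖(x p : ℚ_[p]) - z‖ ≤ (p : ℝ) ^ (-k : ℤ) := by
  obtain ⟨z, hz⟩ := Nat.chineseRemainderOfFinset (fun p : PS N => (x p).appr k) (fun p => p.1 ^ k)
    Finset.univ (fun p _ => pow_ne_zero _ (Fact.out : p.1.Prime).ne_zero) fun p _ q _ h =>
      Nat.Coprime.pow _ _ ((Nat.coprime_primes Fact.out Fact.out).2 (Subtype.val_injective.ne h))
  refine ⟨z, fun p => ?_⟩
  have h1 := (PadicInt.norm_le_pow_iff_mem_span_pow _ _).2 (PadicInt.appr_spec k (x p))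
  have h2 := (Padic.norm_int_le_pow_iff_dvd (p := p) ((x p).appr k - z) k).2
    (by simpa using (hz p (Finset.mem_univ _)).dvd)
  rw [show (x p : ℚ_[p]) - z = (x p - (x p).appr k : ℤ_[p]) + (((x p).appr k - z : ℤ) : ℚ_[p]) by
    push_cast; ring]
  exact (Padic.nonarchimedean _ _).trans (max_le h1 h2)

lemma small (ε : ℝ) (hε : 0 < ε) : ∃ k : ℕ, ∀ p : PS N, (p : ℝ) ^ (-k : ℤ) < ε := by
  obtain ⟨k, hk⟩ := exists_pow_lt_of_lt_one hε (show (2 : ℝ)⁻¹ < 1 by norm_num)
  refine ⟨k, fun p => lt_of_le_of_lt ?_ hk⟩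
  rw [_root_.zpow_neg, zpow_natCast, ← inv_pow]
  gcongr
  exact_mod_cast (Fact.out : p.1.Prime).two_le

lemma inv_mem {f : ℕ} (h : ∀ p : ℕ, p.Prime → p ∣ f → p ∣ N) : (f : ℚ)⁻¹ ∈ Lam N := fun p _ hp => by
  rw [Rat.cast_inv, Rat.cast_natCast, norm_inv, Padic.norm_natCast_eq_one_iff.2
    ((Nat.Prime.coprime_iff_not_dvd Fact.out).2 fun e => hp (h p Fact.out e)), inv_one]

lemma dense (hN : N ≠ 0) : DenseRange fun (q : Lam N) (p : PS N) => lc p q := by
  let C := (RingHom.pi fun p : PS N => lc p).range.topologicalClosure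
  have h1 : ∀ y : ∀ p : PS N, ℤ_[p], (fun p : PS N => (y p : ℚ_[p])) ∈ C := fun y =>
    Metric.mem_closure_iff.2 fun ε hε => by
      obtain ⟨k, hk⟩ := small (N := N) ε hε
      obtain ⟨z, hz⟩ := crt y k
      exact ⟨_, ⟨z, rfl⟩, (dist_pi_lt_iff hε).2 fun p => by
        rw [dist_eq_norm, map_natCast]; exact (hz p).trans_lt (hk p)⟩
  intro x
  have h2 : ∀ p : PS N, ∀ᶠ j in Filter.atTop, ‖(N : ℚ_[p]) ^ j * x p‖ ≤ 1 := fun p => by
    have := (tendsto_pow_atTop_nhds_zero_of_norm_lt_one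
      (Padic.norm_natCast_lt_one_iff.2 (Nat.dvd_of_mem_primeFactors p.2))).mul_const (x p)
    rw [zero_mul] at this
    exact (this.norm.eventually (ge_mem_nhds (by simp))).mono fun _ h => h
  obtain ⟨j, hj⟩ := (Filter.eventually_all.2 h2).exists
  have h3 := C.mul_mem (C.pow_mem (Subring.le_topologicalClosure _
    ⟨⟨_, inv_mem (f := N) fun _ _ h => h⟩, rfl⟩) j) (h1 fun p => ⟨_, hj p⟩)
  refine (show _ = x from funext fun p => ?_) ▸ h3
  have : (N : ℚ_[p]) ≠ 0 := by exact_mod_cast hN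
  simp [lc, ← mul_assoc, this]

lemma exists_norm (x : ∀ p : PS N, ℚ_[p]) (hx : ∀ p, x p ≠ 0) :
    ∃ q : ℚ, q ≠ 0 ∧ q ∈ Lam N ∧ q⁻¹ ∈ Lam N ∧ ∀ p : PS N, ‖(q : ℚ_[p])‖ = ‖x p‖ := by
  have h0 : ∀ (r : PS N) (p : ℕ) [Fact p.Prime], p ≠ r → ∀ z : ℤ, ‖(r : ℚ_[p]) ^ z‖ = 1 :=
    fun r p _ h z => by
      rw [norm_zpow, Padic.norm_natCast_eq_one_iff.2 ((Nat.coprime_primes Fact.out Fact.out).2 h),
        _root_.one_zpow]
  have h1 : ∀ (p : ℕ) [Fact p.Prime], ¬ p ∣ N →
      ‖((∏ r : PS N, (r : ℚ) ^ (x r).valuation : ℚ) : ℚ_[p])‖ = 1 := fun p _ hp => by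
    push_cast
    rw [norm_prod]
    exact Finset.prod_eq_one fun r _ => h0 r p (fun e => hp (e ▸ Nat.dvd_of_mem_primeFactors r.2)) _
  refine ⟨∏ r : PS N, (r : ℚ) ^ (x r).valuation, Finset.prod_ne_zero_iff.2 fun r _ =>
    zpow_ne_zero _ (by exact_mod_cast (Fact.out : r.1.Prime).ne_zero), fun p _ hp => (h1 p hp).le,
    fun p _ hp => by rw [Rat.cast_inv, norm_inv, h1 p hp, inv_one], fun p => ?_⟩
  push_cast
  rw [norm_prod, Finset.prod_eq_single p (fun r _ h => h0 r p (Subtype.val_injective.ne h.symm) _)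
    (by simp), Padic.norm_p_zpow, Padic.norm_eq_zpow_neg_valuation (hx p)]

variable {ι ρ : Type} [Fintype ι] [DecidableEq ι] [Fintype ρ] [DecidableEq ρ]

/-- the form with nondegenerate part `J` -/
def Om (J : Matrix ι ι ℤ) (ρ R : Type) [CommRing R] : Matrix (ι ⊕ ρ) (ι ⊕ ρ) R :=
  fromBlocks (J.map (Int.castRingHom R)) 0 0 0

/-- invertible isometries that are integral away from `N` -/
def Gam (J : Matrix ι ι ℤ) (ρ : Type) [Fintype ρ] [DecidableEq ρ] (N : ℕ) :
    Submonoid (Matrix (ι ⊕ ρ) (ι ⊕ ρ) (Lam N)) where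
  carrier := {s | sᵀ * Om J ρ _ * s = Om J ρ _ ∧ IsUnit s}
  one_mem' := ⟨by simp, isUnit_one⟩
  mul_mem' := fun {a b} ha hb => ⟨by
    rw [transpose_mul, Matrix.mul_assoc, Matrix.mul_assoc, ← Matrix.mul_assoc _ a,
      ← Matrix.mul_assoc aᵀ, ← Matrix.mul_assoc aᵀ, ha.1, ← Matrix.mul_assoc, hb.1], ha.2.mul hb.2⟩

omit [DecidableEq ι] in
lemma alt_map {J : Matrix ι ι ℤ} (hJ : Jᵀ = -J) (R : Type) [CommRing R] [NoZeroDivisors R]
    [CharZero R] (x : ι → R) : x ⬝ᵥ J.map (Int.castRingHom R) *ᵥ x = 0 := by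
  have : (J.map (Int.castRingHom R))ᵀ = -J.map (Int.castRingHom R) := by
    rw [← transpose_map, hJ]; ext; simp
  have h := dotProduct_mulVec x (J.map (Int.castRingHom R)) x
  rw [← mulVec_transpose, this, neg_mulVec, neg_dotProduct, dotProduct_comm _ x] at h
  exact CharZero.eq_neg_self_iff.1 h

theorem approx (hN : N ≠ 0) {J : Matrix ι ι ℤ} (hJ : Jᵀ = -J) (hd : J.det ≠ 0)
    (A : ∀ p : PS N, Matrix ι ι ℚ_[p]) (C : ∀ p : PS N, Matrix ρ ι ℚ_[p])
    (B : ∀ p : PS N, Matrix ρ ρ ℚ_[p])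
    (hA : ∀ p, (A p)ᵀ * J.map (Int.castRingHom _) * A p = J.map (Int.castRingHom _))
    (hB : ∀ p, (B p).det = 1) {U : Set (∀ p : PS N, Matrix (ι ⊕ ρ) (ι ⊕ ρ) ℚ_[p])} (hU : IsOpen U)
    (h : (fun p => fromBlocks (A p) 0 (C p) (B p)) ∈ U) :
    ∃ s ∈ Gam J ρ N, (fun p => s.map (lc p)) ∈ U := by
  let φ : Matrix (ι ⊕ ρ) (ι ⊕ ρ) (Lam N) →* ∀ p : PS N, Matrix (ι ⊕ ρ) (ι ⊕ ρ) ℚ_[p] :=
    MonoidHom.pi fun p => (lc p).mapMatrix.toMonoidHom
  let K := ((Gam J ρ N).map φ).topologicalClosure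
  have par : ∀ {X : Type} [Finite X] (g : (X → Lam N) → Matrix (ι ⊕ ρ) (ι ⊕ ρ) (Lam N))
      (g' : ∀ p : PS N, (X → ℚ_[p]) → Matrix (ι ⊕ ρ) (ι ⊕ ρ) ℚ_[p]), (∀ x, g x ∈ Gam J ρ N) →
      (∀ p, Continuous (g' p)) → (∀ p x, (g x).map (lc p) = g' p fun i => lc p (x i)) →
      (∀ p, g' p 0 = 1) → ∀ p y, Pi.mulSingle p (g' p y) ∈ K := by
    intro X _ g g' h1 h2 h3 h4 p y
    have : ∀ z : X → ∀ p : PS N, ℚ_[p], (fun p => g' p fun i => z i p) ∈ K := fun z =>
      (DenseRange.piMap fun _ : X => dense hN).induction_on z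
        ((Submonoid.isClosed_topologicalClosure _).preimage
          (continuous_pi fun p => (h2 p).comp (by fun_prop)))
        fun x => Submonoid.le_topologicalClosure _ ⟨_, h1 x, funext fun p => h3 p x⟩
    have e : (fun q => g' q fun i => (Pi.single p (y i) : ∀ p : PS N, ℚ_[p]) q) =
        Pi.mulSingle p (g' p y) := funext fun q => by
      by_cases e : q = p
      · subst e; simp
      · simp [e, ← h4 q, Pi.zero_def]
    exact e ▸ this fun i => Pi.single p (y i)
  have : (fun p => fromBlocks (A p) 0 (C p) (B p)) ∈ K := by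
    refine Submonoid.pi_mem_of_mulSingle_mem _ fun p => ?_
    have hd' : (J.map (Int.castRingHom ℚ_[p])).det ≠ 0 := by
      rw [← RingHom.mapMatrix_apply, ← RingHom.map_det]; simpa using hd
    have hA' : (A p).det ≠ 0 := fun e => hd' (by rw [← hA p, det_mul, e, mul_zero])
    have e : fromBlocks (A p) 0 (C p) (B p) = fromBlocks 1 0 (C p * (A p)⁻¹) 1 *
        fromBlocks 1 0 0 (B p) * fromBlocks (A p) 0 0 1 := by
      simp [fromBlocks_multiply, Matrix.mul_assoc, nonsing_inv_mul _ hA'.isUnit]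
    rw [e, Pi.mulSingle_mul, Pi.mulSingle_mul]
    refine mul_mem (mul_mem ?_ ?_) ?_
    · exact par (X := ρ × ι) (fun x => fromBlocks 1 0 (of fun i j => x (i, j)) 1)
        (fun p x => fromBlocks 1 0 (of fun i j => x (i, j)) 1)
        (fun x => ⟨by simp [Om, fromBlocks_transpose, fromBlocks_multiply],
          (isUnit_iff_isUnit_det _).2 (by simp)⟩)
        (fun p => continuous_const.matrix_fromBlocks continuous_const
          (continuous_matrix fun i j => continuous_apply _) continuous_const)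
        (fun p x => by simp [fromBlocks_map]; rfl)
        (fun p => by rw [← fromBlocks_one]; rfl) p fun q => (C p * (A p)⁻¹) q.1 q.2
    · refine sl_ind (fun M => Pi.mulSingle p (fromBlocks 1 0 0 M) ∈ K) (by simp [one_mem])
        (fun i j c hij => ?_) (fun M M' h1 h2 => ?_) _ (hB p)
      · exact par (X := Unit) (fun x => fromBlocks 1 0 0 (transvection i j (x ())))
          (fun p x => fromBlocks 1 0 0 (transvection i j (x ())))
          (fun x => ⟨by simp [Om, fromBlocks_transpose, fromBlocks_multiply],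
            (isUnit_iff_isUnit_det _).2 (by simp [det_transvection_of_ne _ _ hij])⟩)
          (fun p => continuous_const.matrix_fromBlocks continuous_const continuous_const
            (continuous_const.add (continuous_matrix fun a b => by
              simp only [single_apply]; split_ifs <;> fun_prop)))
          (fun p x => by
            simp only [fromBlocks_map, transvection]
            congr 1 <;> ext <;> simp [one_apply, single_apply, apply_ite (lc p)])
          (fun p => by simp) p fun _ => c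
      · have := mul_mem h1 h2
        rw [← Pi.mulSingle_mul, fromBlocks_multiply] at this
        simpa using this
    · refine sp_ind (alt_map hJ _) hd' (fun M => Pi.mulSingle p (fromBlocks M 0 0 1) ∈ K)
        (by simp [one_mem]) (fun M w c h2 => ?_) _ (hA p)
      have h1 := par (X := Option ι)
        (fun x => fromBlocks (tv (J.map (Int.castRingHom _)) (fun i => x (some i)) (x none)) 0 0 1)
        (fun p x => fromBlocks (tv (J.map (Int.castRingHom _)) (fun i => x (some i)) (x none)) 0 0 1)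
        (fun x => ⟨by simpa [Om, fromBlocks_transpose, fromBlocks_multiply] using tv_iso (alt_map hJ _) _ _,
          (isUnit_iff_isUnit_det _).2 (by
            rw [det_fromBlocks_zero₁₂, det_one, mul_one, ← isUnit_iff_isUnit_det]
            exact IsUnit.of_mul_eq_one _
              (by rw [tv_add (alt_map hJ _), add_neg_cancel, tv_zero]))⟩)
        (fun p => Continuous.matrix_fromBlocks (continuous_matrix fun a b => by
            simp only [tv, Matrix.add_apply, Matrix.smul_apply, vecMulVec_apply, mulVec, dotProduct]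
            fun_prop) continuous_const continuous_const continuous_const)
        (fun p x => by
          simp only [fromBlocks_map, tv]
          congr 1 <;> ext <;>
            simp [one_apply, apply_ite (lc p), vecMulVec_apply, mulVec, dotProduct])
        (fun p => by simp [tv]) p fun o => o.elim c w
      have := mul_mem h1 h2
      rw [← Pi.mulSingle_mul, fromBlocks_multiply] at this
      simpa using this
  obtain ⟨_, h1, s, hs, rfl⟩ := mem_closure_iff.1 this U hU h
  exact ⟨s, hs, h1⟩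

end Pool.Agent.Lib.MP_a8bb0e_al.Ex
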