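import Pool.Agent.Lib.MP_a8bb0e_al.Ex.Base

/-! Alternating bilinear maps whose kernel on bivectors has rank at most one. -/

open Matrix

namespace Pool.Agent.Lib.MP_a8bb0e_al.Ex

open Uni Tor

variable {σ I : Type} [Fintype σ] [Fintype I] [DecidableEq σ] [DecidableEq I]
  {T T' : σ → σ → I → ℤ} {Ω Ω' : Matrix σ σ ℤ} {F : Type} [Field F] [CharZero F]

omit [DecidableEq σ] in
lemma ev_conj {R : Type} [CommRing R] (M g X : Matrix σ σ R) :
    ∑ k, ∑ l, (g * X * gᵀ) k l * M k l = ∑ i, ∑ j, X i j * ∑ k, ∑ l, g k i * g l j * M k l := by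
  simp only [Matrix.mul_apply, transpose_apply, Finset.mul_sum, Finset.sum_mul]
  rw [Finset.sum_congr rfl fun k _ => Finset.sum_comm, Finset.sum_comm]
  conv_rhs => rw [Finset.sum_comm]
  refine Finset.sum_congr rfl fun j _ => ?_
  rw [Finset.sum_congr rfl fun k _ => Finset.sum_comm, Finset.sum_comm]
  refine Finset.sum_congr rfl fun i _ => Finset.sum_congr rfl fun k _ =>
    Finset.sum_congr rfl fun l _ => by ring

omit [DecidableEq σ] [DecidableEq I] in
lemma ev_hom {R : Type} [CommRing R] {g : Matrix σ σ R} {h : Matrix I I R} (H : Hom T T' g h)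
    (X : Matrix σ σ R) (a : I) : ∑ k, ∑ l, (g * X * gᵀ) k l * (T k l a : R) =
      ∑ b, (∑ i, ∑ j, X i j * (T' i j b : R)) * h b a := by
  refine (ev_conj (Matrix.of fun k l => (T k l a : R)) g X).trans ?_
  simp only [of_apply]
  simp only [H _ _ a]
  simp only [Finset.mul_sum, Finset.sum_mul]
  conv_rhs => rw [Finset.sum_comm]
  refine Finset.sum_congr rfl fun i _ => ?_
  conv_rhs => rw [Finset.sum_comm]
  exact Finset.sum_congr rfl fun j _ => Finset.sum_congr rfl fun b _ => by ring

omit [Fintype σ] [DecidableEq σ] in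
lemma skew_map (h : Ωᵀ = -Ω) (R : Type) [CommRing R] :
    (Ω.map (Int.castRingHom R))ᵀ = -Ω.map (Int.castRingHom R) := by
  rw [← transpose_map, h]; ext; simp

omit [DecidableEq σ] [DecidableEq I] in
lemma k0 (h1 : Ker T Ω) (h2 : Ker T' Ω') {g : Matrix σ σ F} {h : Matrix I I F}
    (H : Hom T T' g h) : ∃ l : F,
      g * Ω'.map (Int.castRingHom F) * gᵀ = l • Ω.map (Int.castRingHom F) := by
  have e := (h2.2 F (Ω'.map (Int.castRingHom F))).2
    ⟨2, by rw [skew_map h2.1, sub_neg_eq_add, two_smul]⟩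
  obtain ⟨c, hc⟩ := (h1.2 F (g * Ω'.map (Int.castRingHom F) * gᵀ)).1 fun a => by
    rw [ev_hom H]; simp only [e, zero_mul, Finset.sum_const_zero]
  rw [transpose_mul, transpose_mul, transpose_transpose, skew_map h2.1, Matrix.neg_mul,
    Matrix.mul_neg, sub_neg_eq_add, ← Matrix.mul_assoc, ← two_smul F] at hc
  exact ⟨2⁻¹ * c, by rw [mul_smul, ← hc, inv_smul_smul₀ two_ne_zero]⟩

theorem k1 (h1 : Ker T Ω) (h2 : Ker T' Ω') {g g' : Matrix σ σ F} {h h' : Matrix I I F}
    (H : IsoT T T' g g' h h') : ∃ l : F, l ≠ 0 ∧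
      g * Ω'.map (Int.castRingHom F) * gᵀ = l • Ω.map (Int.castRingHom F) := by
  obtain ⟨l, hl⟩ := k0 h1 h2 H.2.2
  obtain ⟨l', hl'⟩ := k0 h2 h1 H.symm.2.2
  by_cases c : l = 0
  · have a := mul_eq_one_comm.1 H.1
    have e : ∀ {g g' X : Matrix σ σ F}, g' * g = 1 → g * X * gᵀ = 0 → X = 0 := fun {g g' X} a b => by
      have := congrArg (fun M => g' * M * g'ᵀ) b
      simp only [Matrix.mul_zero, Matrix.zero_mul] at this
      rwa [← Matrix.mul_assoc, ← Matrix.mul_assoc, a, Matrix.one_mul, Matrix.mul_assoc,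
        ← transpose_mul, a, transpose_one, Matrix.mul_one] at this
    rw [c, zero_smul] at hl
    rw [e a hl, smul_zero] at hl'
    exact ⟨1, one_ne_zero, by rw [hl, e H.1 hl', smul_zero]⟩
  · exact ⟨l, c, hl⟩

omit [DecidableEq I] in
theorem k2 (_ha : Alt T) (h1 : Ker T Ω) (h2 : Ker T' Ω') {g : Matrix σ σ F} {l : F}
    (e : g * Ω'.map (Int.castRingHom F) * gᵀ = l • Ω.map (Int.castRingHom F)) :
    ∃ h, Hom T T' g h := by
  let L : Matrix σ σ F → Matrix σ σ F →ₗ[F] F := fun M =>
    { toFun := fun X => ∑ i, ∑ j, X i j * M i j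
      map_add' := fun X Y => by simp [add_mul, Finset.sum_add_distrib]
      map_smul' := fun c X => by simp [Finset.mul_sum, mul_assoc] }
  have hL : ∀ M i j, L M (single i j 1) = M i j := fun M i j => by
    simp [L, single_apply, ite_and]
  have : ∀ a, ∃ c : I → F, ∑ b, c b • L (Matrix.of fun i j => (T' i j b : F)) =
      L (Matrix.of fun i j => ∑ k, ∑ l, g k i * g l j * (T k l a : F)) := fun a =>
    (Submodule.mem_span_range_iff_exists_fun F).1 (mem_span_of_iInf_ker_le_ker fun X hX => by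
      obtain ⟨c, hc⟩ := (h2.2 F X).1 fun b => (Submodule.mem_iInf _).1 hX b
      refine (ev_conj (Matrix.of fun k l => (T k l a : F)) g X).symm.trans
        ((h1.2 F _).2 ⟨c * l, ?_⟩ a)
      rw [transpose_mul, transpose_mul, transpose_transpose, ← Matrix.mul_assoc, ← Matrix.sub_mul,
        ← Matrix.mul_sub, hc, Matrix.mul_smul, Matrix.smul_mul, e, mul_smul])
  choose c hc using this
  refine ⟨Matrix.of fun b a => c a b, fun i j a => ?_⟩
  have := LinearMap.congr_fun (hc a) (single i j 1)
  simp only [LinearMap.sum_apply, LinearMap.smul_apply, hL, of_apply, smul_eq_mul] at this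
  rw [← this]
  exact Finset.sum_congr rfl fun _ _ => mul_comm _ _

variable {n : ℕ} {T : Fin n → Fin n → I → ℤ} {S : I → Fin n → Fin n → ℤ} {f : ℕ}

/-- the induced map on bivectors -/
def tau (T : Fin n → Fin n → I → ℤ) (R : Type) [CommRing R] : Matrix I (Pr n) R :=
  Matrix.of fun a p => (T p.1.1 p.1.2 a : R)

section
variable {R : Type} [CommRing R]

/-- coordinates of the alternation of a matrix -/
def upv (X : Matrix (Fin n) (Fin n) R) : Pr n → R := fun p => X p.1.1 p.1.2 - X p.1.2 p.1.1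

lemma alt_up' (X : Matrix (Fin n) (Fin n) R) : alt (upv X) = X - Xᵀ :=
  alt_ext (fun i j => by simp) (fun i => by simp) fun _ => rfl

omit [Fintype I] [DecidableEq I] in
lemma ev_alt (ha : Alt T) (v : Pr n → R) (a : I) :
    ∑ i, ∑ j, alt v i j * (T i j a : R) = 2 * (tau T R *ᵥ v) a := by
  simp only [alt_apply, Finset.sum_mul, mulVec, dotProduct, tau, of_apply, Finset.mul_sum]
  rw [Finset.sum_congr rfl fun i _ => Finset.sum_comm, Finset.sum_comm]
  refine Finset.sum_congr rfl fun q _ => ?_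
  simp only [sub_mul, Finset.sum_sub_distrib, ite_and, ite_mul, zero_mul, Finset.sum_ite_irrel,
    Finset.sum_const_zero, Finset.sum_ite_eq, Finset.mem_univ, if_true, ha q.1.1 q.1.2 a]
  push_cast; ring

omit [Fintype I] [DecidableEq I] in
lemma ev_up [NoZeroDivisors R] [CharZero R] (ha : Alt T) (X : Matrix (Fin n) (Fin n) R) (a : I) :
    ∑ i, ∑ j, X i j * (T i j a : R) = (tau T R *ᵥ upv X) a := by
  have := ev_alt ha (upv X) a
  simp only [alt_up', Matrix.sub_apply, transpose_apply, sub_mul, Finset.sum_sub_distrib] at this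
  rw [Finset.sum_comm (f := fun i j => X j i * _),
    Finset.sum_congr rfl fun i _ => Finset.sum_congr rfl fun j _ =>
      show X i j * (T j i a : R) = -(X i j * T i j a) by rw [ha i j a]; push_cast; ring] at this
  simp only [Finset.sum_neg_distrib, sub_neg_eq_add, ← two_mul] at this
  exact mul_left_cancel₀ two_ne_zero this

end

lemma tau_surj (ha : Alt T) (hS : LI S T f) (hf : 0 < f) (F : Type) [Field F] [CharZero F] :
    Function.Surjective (tau T F).mulVecLin := fun y => by
  refine ⟨upv (Matrix.of fun i j => ∑ c, y c / f * S c i j), funext fun a => ?_⟩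
  have h0 : (f : F) ≠ 0 := by exact_mod_cast hf.ne'
  have : ∀ c, ∑ i, ∑ j, (S c i j : F) * T i j a = if c = a then (f : F) else 0 := fun c => by
    exact_mod_cast congrArg (Int.cast : ℤ → F) (hS c a)
  rw [mulVecLin_apply, ← ev_up ha]
  simp only [of_apply, Finset.sum_mul]
  rw [Finset.sum_congr rfl fun i _ => Finset.sum_comm, Finset.sum_comm]
  simp only [mul_assoc, ← Finset.mul_sum, this]
  simp [h0]

theorem exists_ker (ha : Alt T) (hS : LI S T f) (hf : 0 < f)
    (hc : n.choose 2 ≤ Fintype.card I + 1) : ∃ Ω, Ker T Ω := by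
  suffices ∃ v : Pr n → ℤ, ∀ (F : Type) [Field F] [CharZero F] (u : Pr n → F),
      tau T F *ᵥ u = 0 ↔ ∃ c : F, u = c • fun p => (v p : F) by
    obtain ⟨v, hv⟩ := this
    refine ⟨alt v, Matrix.ext fun i j => alt_swap v i j, fun F _ _ X => ?_⟩
    have e : (alt v).map (Int.castRingHom F) = alt fun p => (v p : F) := by
      ext i j; simp [alt_apply, apply_ite (Int.cast : ℤ → F)]
    simp only [ev_up ha]
    rw [e, ← alt_up', ← funext_iff]
    exact (hv F _).trans (exists_congr fun c => by
      rw [← map_smul]; exact ⟨congrArg _, alt_inj⟩)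
  have hk : ∀ (F : Type) [Field F] [CharZero F], Fintype.card I +
      Module.finrank F (LinearMap.ker (tau T F).mulVecLin) = n.choose 2 := fun F _ _ => by
    have := LinearMap.finrank_range_add_finrank_ker (tau T F).mulVecLin
    rwa [LinearMap.range_eq_top.2 (tau_surj ha hS hf F), finrank_top,
      Module.finrank_fintype_fun_eq_card, Module.finrank_fintype_fun_eq_card, card_Pr] at this
  by_cases h : ∃ v, v ≠ 0 ∧ tau T ℤ *ᵥ v = 0
  · obtain ⟨v, h1, h2⟩ := h
    refine ⟨v, fun F _ _ u => ?_⟩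
    have h3 : tau T F *ᵥ (fun p => (v p : F)) = 0 := funext fun a => by
      have := congrArg (Int.cast : ℤ → F) (congrFun h2 a)
      simpa [tau, mulVec, dotProduct] using this
    refine ⟨fun hu => ?_, fun ⟨c, e⟩ => by rw [e, mulVec_smul, h3, smul_zero]⟩
    have h4 : (⟨_, h3⟩ : LinearMap.ker (tau T F).mulVecLin) ≠ 0 := fun e =>
      h1 (funext fun p => by simpa using congrFun (congrArg Subtype.val e) p)
    have h5 := hk F
    have h6 := (Module.finrank_pos_iff_exists_ne_zero (R := F)).2 ⟨_, h4⟩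
    have h7 : Module.finrank F (LinearMap.ker (tau T F).mulVecLin) = 1 := by omega
    obtain ⟨c, e⟩ := (finrank_eq_one_iff_of_nonzero' _ h4).1 h7 ⟨u, hu⟩
    exact ⟨c, (congrArg Subtype.val e).symm⟩
  · refine ⟨0, fun F _ _ u => ⟨fun hu => ⟨0, ?_⟩, fun ⟨c, e⟩ => by
      rw [e]; exact funext fun a => by simp [mulVec, dotProduct]⟩⟩
    have h1 := LinearMap.finrank_le_finrank_of_injective (f := (tau T ℤ).mulVecLin)
      ((injective_iff_map_eq_zero _).2 fun v hv => by_contra fun c => h ⟨v, c, hv⟩)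
    rw [Module.finrank_fintype_fun_eq_card, Module.finrank_fintype_fun_eq_card, card_Pr] at h1
    have h5 := hk F
    rw [zero_smul]
    exact (Submodule.eq_bot_iff _).1 ((Submodule.finrank_eq_zero
      (S := LinearMap.ker (tau T F).mulVecLin)).1 (by omega)) u hu

lemma det_wedge (n : ℕ) : ∃ w : ℕ, ∀ (F : Type) [Field F] [CharZero F]
    (g : Matrix (Fin n) (Fin n) F), g.det ≠ 0 → (wedge g g).det = g.det ^ w := by
  refine ⟨(Finset.univ.filter fun p : Pr n => (p.1.1 : ℕ) = 0).card, fun F _ _ g hg => ?_⟩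
  have hm : ∀ A B : Matrix (Fin n) (Fin n) F,
      (wedge (A * B) (A * B)).det = (wedge A A).det * (wedge B B).det := fun A B => by
    rw [wedge_mul, det_mul, mul_comm]
  have hd : ∀ d : Fin n → F, (wedge (diagonal d) (diagonal d)).det = ∏ p : Pr n, d p.1.1 * d p.1.2 :=
    fun d => by
      rw [← det_diagonal]
      congr 1
      ext p q
      simp only [wedge, of_apply, diagonal_apply]
      by_cases e : p = q
      · subst e; simp [p.2.ne, p.2.ne']
      · have a1 : ¬(q.1.1 = p.1.1 ∧ q.1.2 = p.1.2) := fun c =>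
          e (Subtype.ext (Prod.ext c.1.symm c.2.symm))
        have a2 : ¬(q.1.2 = p.1.1 ∧ q.1.1 = p.1.2) := fun c =>
          lt_asymm p.2 (by rw [← c.1, ← c.2]; exact q.2)
        rw [if_neg e]
        split_ifs <;> simp_all
  have hs : ∀ A : Matrix (Fin n) (Fin n) F, A.det = 1 → (wedge A A).det = 1 :=
    sl_ind _ (by rw [wedge_one, det_one]) (fun i j c hij => by
      have a1 := hm (transvection i j c) (transvection i j (-c))
      have a2 := hm (transvection i j c) (transvection i j c)
      rw [transvection_mul_transvection_same _ _ hij] at a1 a2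
      rw [add_neg_cancel, transvection_zero, wedge_one, det_one] at a1
      have a3 : diagonal (Function.update 1 i (2 : F)) * transvection i j c =
          transvection i j (c + c) * diagonal (Function.update 1 i 2) := by
        ext k l
        simp only [transvection, diagonal_mul, mul_diagonal, Matrix.add_apply, single_apply,
          one_apply]
        by_cases e1 : k = l <;> by_cases e2 : i = k ∧ j = l
        · exact absurd (e2.1.trans (e1.trans e2.2.symm)) hij
        · subst e1; simp [e2]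
        · obtain ⟨rfl, rfl⟩ := e2
          simp [hij, hij.symm, two_mul]
        · simp [e1, e2]
      have a4 := congrArg (fun A => (wedge A A).det) a3
      simp only [hm, a2] at a4
      rw [mul_comm] at a4
      have a5 := mul_right_cancel₀ (by
        rw [hd]
        refine Finset.prod_ne_zero_iff.2 fun p _ => mul_ne_zero ?_ ?_ <;>
          rw [Function.update_apply] <;> split_ifs <;> simp) a4
      exact (mul_eq_left₀ (left_ne_zero_of_mul_eq_one a1.symm)).1 a5.symm)
      fun A B a b => by rw [hm, a, b, mul_one]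
  rcases n with _ | n
  · rw [hs g (by simp)]; simp
  let d : F → Fin (n + 1) → F := fun c i => if i = 0 then c else 1
  have e : g = diagonal (d g.det) * (diagonal (d g.det⁻¹) * g) := by
    rw [← Matrix.mul_assoc, diagonal_mul_diagonal, show (fun i => d g.det i * d g.det⁻¹ i) = 1 from
      funext fun i => by simp only [d]; split_ifs <;> simp [hg]]
    simp
  have a := hm (diagonal (d g.det)) (diagonal (d g.det⁻¹) * g)
  rw [← e, hs (_ * g) (by rw [det_mul, det_diagonal]; simp [d, hg]), mul_one, hd] at a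
  rw [a, ← Finset.prod_const, Finset.prod_filter]
  exact Finset.prod_congr rfl fun p _ => by simp [d, (Fin.ne_zero_of_lt p.2)]

theorem k3 (ha : Alt T) (hS : LI S T f) (hf : 0 < f) {Ω : Matrix (Fin n) (Fin n) ℤ} (h1 : Ker T Ω) :
    ∃ w : ℕ, ∀ (F : Type) [Field F] [CharZero F] (g g' : Matrix (Fin n) (Fin n) F)
      (h h' : Matrix I I F), IsoT T T g g' h h' → ∃ l : F, l ≠ 0 ∧
        g * Ω.map (Int.castRingHom F) * gᵀ = l • Ω.map (Int.castRingHom F) ∧ (Ω = 0 → l = 1) ∧
        h.det * l = g.det ^ w := by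
  obtain ⟨w, hw⟩ := det_wedge n
  refine ⟨w, fun F _ _ g g' h h' H => ?_⟩
  obtain ⟨l, a1, a2, a3⟩ : ∃ l : F, l ≠ 0 ∧
      g * Ω.map (Int.castRingHom F) * gᵀ = l • Ω.map (Int.castRingHom F) ∧ (Ω = 0 → l = 1) := by
    by_cases c : Ω = 0
    · exact ⟨1, one_ne_zero, by simp [c], fun _ => rfl⟩
    · obtain ⟨l, a1, a2⟩ := k1 h1 h1 H
      exact ⟨l, a1, a2, fun e => absurd e c⟩
  refine ⟨l, a1, a2, a3, ?_⟩
  let W := toLin' (wedge gᵀ gᵀ)
  let K := LinearMap.ker (tau T F).mulVecLin
  have hW : ∀ v, alt (W v) = g * alt v * gᵀ := fun v => alt_wedge gᵀ v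
  have hc : ∀ v, tau T F *ᵥ W v = hᵀ *ᵥ (tau T F *ᵥ v) := fun v => funext fun a => by
    refine mul_left_cancel₀ (two_ne_zero (α := F)) ?_
    rw [← ev_alt ha, hW, ev_hom H.2.2]
    simp only [ev_alt ha, mulVec_transpose, vecMul, dotProduct, Finset.mul_sum, mul_assoc]
  have hK : ∀ v, v ∈ K ↔ ∃ c : F, alt v = c • Ω.map (Int.castRingHom F) := fun v => by
    have e : alt v - (alt v)ᵀ = (2 : F) • alt v := by
      ext i j; rw [Matrix.sub_apply, transpose_apply, alt_swap v i j]; simp [two_mul]
    have := h1.2 F (alt v)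
    simp only [ev_alt ha, mul_eq_zero, two_ne_zero, false_or, e] at this
    refine (funext_iff.trans this).trans ⟨fun ⟨c, a⟩ => ⟨2⁻¹ * c, ?_⟩, fun ⟨c, a⟩ => ⟨2 * c, ?_⟩⟩
    · rw [mul_smul, ← a, inv_smul_smul₀ two_ne_zero]
    · rw [a, mul_smul]
  have he : K ≤ K.comap W := fun v hv => by
    change tau T F *ᵥ W v = 0
    rw [hc, show tau T F *ᵥ v = 0 from hv, mulVec_zero]
  have d1 := W.det_eq_det_mul_det K he
  have d2 : W.restrict (p := K) (q := K) he = l • LinearMap.id := by
    refine LinearMap.ext fun v => Subtype.ext (alt_inj ?_)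
    obtain ⟨c, a⟩ := (hK v).1 v.2
    change alt (W v) = alt (l • v.1)
    rw [hW, map_smul, a, Matrix.mul_smul, Matrix.smul_mul, a2, smul_comm]
  have d3 : (K.mapQ K W he).det = h.det := by
    let e := (tau T F).mulVecLin.quotKerEquivOfSurjective (tau_surj ha hS hf F)
    rw [← LinearMap.det_conj _ e, ← det_transpose h, ← LinearMap.det_toLin']
    congr 1
    refine LinearMap.ext fun y => ?_
    obtain ⟨x, rfl⟩ := e.surjective y
    obtain ⟨v, rfl⟩ := K.mkQ_surjective x
    simp only [LinearMap.comp_apply, LinearEquiv.coe_coe, LinearEquiv.symm_apply_apply]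
    exact hc v
  have d4 : l ^ Module.finrank F K = l := by
    by_cases c : Ω = 0
    · rw [a3 c, one_pow]
    have e : alt ((2 : F)⁻¹ • upv (Ω.map (Int.castRingHom F))) = Ω.map (Int.castRingHom F) := by
      rw [map_smul, alt_up', skew_map h1.1, sub_neg_eq_add, ← two_smul F,
        inv_smul_smul₀ two_ne_zero]
    rw [(finrank_eq_one_iff_of_nonzero' (⟨_, (hK _).2 ⟨1, by rw [e, one_smul]⟩⟩ : K) fun a =>
      c ?_).2 fun v => ?_, pow_one]
    · rw [show (2 : F)⁻¹ • upv (Ω.map (Int.castRingHom F)) = 0 from congrArg Subtype.val a,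
        map_zero] at e
      ext i j
      simpa using (congrFun (congrFun e i) j).symm
    · obtain ⟨c, a⟩ := (hK v).1 v.2
      exact ⟨c, Subtype.ext (alt_inj (by rw [a, Submodule.coe_smul, map_smul, e]))⟩
  rw [d2, d3, LinearMap.det_smul, LinearMap.det_id, mul_one, d4, LinearMap.det_toLin',
    hw F _ (by rw [det_transpose]; exact det_ne_zero_of_right_inverse H.1), det_transpose] at d1
  rw [d1, mul_comm]

end Pool.Agent.Lib.MP_a8bb0e_al.Ex
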