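import Mathlib

/-! Generation of symplectic and special linear groups over a field by transvections. -/

open Matrix

namespace Pool.Agent.Lib.MP_a8bb0e_al.Ex

variable {ι : Type} [Fintype ι] [DecidableEq ι]

/-- symplectic transvection -/
def tv {R : Type} [CommRing R] (J : Matrix ι ι R) (w : ι → R) (c : R) : Matrix ι ι R :=
  1 + c • vecMulVec w (J *ᵥ w)

section
variable {R : Type} [CommRing R] {J : Matrix ι ι R}

lemma tv_mulVec (w z : ι → R) (c : R) : tv J w c *ᵥ z = z + (c * (z ⬝ᵥ J *ᵥ w)) • w := by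
  rw [tv, add_mulVec, one_mulVec, smul_mulVec, vecMulVec_mulVec, dotProduct_comm, op_smul_eq_smul,
    smul_smul]

omit [DecidableEq ι] in
lemma skew (hJ : ∀ x, x ⬝ᵥ J *ᵥ x = 0) (x y : ι → R) : x ⬝ᵥ J *ᵥ y = -(y ⬝ᵥ J *ᵥ x) := by
  have := hJ (x + y)
  rw [mulVec_add, add_dotProduct, dotProduct_add, dotProduct_add, hJ, hJ] at this
  linear_combination this

lemma iso_iff {A K : Matrix ι ι R} :
    Aᵀ * J * A = K ↔ ∀ x y, (A *ᵥ x) ⬝ᵥ J *ᵥ (A *ᵥ y) = x ⬝ᵥ K *ᵥ y := by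
  have : ∀ x y, (A *ᵥ x) ⬝ᵥ J *ᵥ (A *ᵥ y) = x ⬝ᵥ (Aᵀ * J * A) *ᵥ y := fun x y => by
    rw [← mulVec_mulVec, ← mulVec_mulVec, dotProduct_mulVec x, vecMul_transpose]
  refine ⟨fun h x y => by rw [this, h], fun h => Matrix.ext fun i j => ?_⟩
  simpa using (this (Pi.single i 1) (Pi.single j 1)).symm.trans (h _ _)

lemma tv_iso (hJ : ∀ x, x ⬝ᵥ J *ᵥ x = 0) (w : ι → R) (c : R) : (tv J w c)ᵀ * J * tv J w c = J :=
  iso_iff.2 fun x y => by
    simp only [tv_mulVec, mulVec_add, mulVec_smul, add_dotProduct, dotProduct_add, smul_dotProduct,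
      dotProduct_smul, smul_eq_mul, hJ, skew hJ w y]
    ring

lemma tv_add (hJ : ∀ x, x ⬝ᵥ J *ᵥ x = 0) (w : ι → R) (c d : R) :
    tv J w c * tv J w d = tv J w (c + d) :=
  Matrix.ext_of_mulVec_single fun i => by
    simp only [← mulVec_mulVec, tv_mulVec, add_dotProduct, smul_dotProduct, hJ, smul_zero, add_zero]
    module

lemma tv_zero (w : ι → R) : tv J w 0 = 1 := by rw [tv, zero_smul, add_zero]

end

variable {F : Type} [Field F]

theorem sp_ind {J : Matrix ι ι F} (hJ : ∀ x, x ⬝ᵥ J *ᵥ x = 0) (hd : J.det ≠ 0)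
    (P : Matrix ι ι F → Prop) (h1 : P 1) (hm : ∀ A w c, P A → P (tv J w c * A))
    (A : Matrix ι ι F) (hA : Aᵀ * J * A = J) : P A := by
  suffices ∀ (W : Submodule F (ι → F)) (A : Matrix ι ι F), Aᵀ * J * A = J →
      (∀ x, x ∈ W ↔ A *ᵥ x = x) → P A from
    this (LinearMap.ker (A.mulVecLin - LinearMap.id)) A hA fun x => by simp [sub_eq_zero]
  intro W
  induction W using WellFoundedGT.induction with
  | ind W ih =>
  intro A hA hW
  by_cases ht : ∀ x, x ∈ W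
  · rwa [show A = 1 from Matrix.ext_of_mulVec_single fun i => by rw [(hW _).1 (ht _), one_mulVec]]
  obtain ⟨x, hx⟩ := not_forall.1 ht
  have key : ∀ A' : Matrix ι ι F, A'ᵀ * J * A' = J → (∀ w ∈ W, A' *ᵥ w = w) → A' *ᵥ x = x → P A' :=
    fun A' h1 h2 h3 => ih (LinearMap.ker (A'.mulVecLin - LinearMap.id))
      (lt_of_le_of_ne (fun w hw => by simp [h2 w hw]) fun e => hx (by rw [e]; simp [h3])) A' h1
      fun x => by simp [sub_eq_zero]
  have back : ∀ (A' : Matrix ι ι F) w c, P (tv J w c * A') → P A' := fun A' w c h => by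
    have := hm _ w (-c) h
    rwa [← Matrix.mul_assoc, tv_add hJ, neg_add_cancel, tv_zero, Matrix.one_mul] at this
  have step : ∀ (A' : Matrix ι ι F) (z : ι → F), A'ᵀ * J * A' = J → (∀ w ∈ W, A' *ᵥ w = w) →
      (∀ w ∈ W, w ⬝ᵥ J *ᵥ (z - x) = 0) → (A' *ᵥ x) ⬝ᵥ J *ᵥ z ≠ 0 → ∃ w c,
        (tv J w c * A')ᵀ * J * (tv J w c * A') = J ∧ (∀ v ∈ W, (tv J w c * A') *ᵥ v = v) ∧
          (tv J w c * A') *ᵥ x = z := fun A' z h1 h2 h3 h4 => by
    refine ⟨z - A' *ᵥ x, ((A' *ᵥ x) ⬝ᵥ J *ᵥ z)⁻¹, ?_, fun v hv => ?_, ?_⟩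
    · exact iso_iff.2 fun a b => by
        rw [← mulVec_mulVec, ← mulVec_mulVec, iso_iff.1 (tv_iso hJ _ _), iso_iff.1 h1]
    · have := iso_iff.1 h1 v x
      have h5 := h3 v hv
      rw [h2 v hv] at this
      rw [mulVec_sub, dotProduct_sub] at h5
      rw [← mulVec_mulVec, h2 v hv, tv_mulVec, mulVec_sub, dotProduct_sub, this, h5, mul_zero,
        zero_smul, add_zero]
    · rw [← mulVec_mulVec, tv_mulVec, mulVec_sub, dotProduct_sub, hJ, sub_zero, inv_mul_cancel₀ h4,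
        one_smul, add_sub_cancel]
  have hA' := fun w hw => (hW w).1 hw
  by_cases h0 : (A *ᵥ x) ⬝ᵥ J *ᵥ x = 0
  · have sep : ∀ y ∉ W, ∃ s, (∀ w ∈ W, w ⬝ᵥ J *ᵥ s = 0) ∧ y ⬝ᵥ J *ᵥ s ≠ 0 := fun y hy => by
      obtain ⟨f, h1, h2⟩ := W.exists_dual_map_eq_bot_of_notMem hy inferInstance
      have : ∀ z, z ⬝ᵥ J *ᵥ (J⁻¹ *ᵥ fun i => f (Pi.single i 1)) = f z := fun z => by
        rw [mulVec_mulVec, mul_nonsing_inv _ hd.isUnit, one_mulVec]
        conv_rhs => rw [pi_eq_sum_univ' z]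
        simp [dotProduct]
      exact ⟨_, fun w hw => by
        rw [this]; exact (Submodule.eq_bot_iff _).1 h2 _ ⟨w, hw, rfl⟩, by rwa [this]⟩
    obtain ⟨s, a1, a2, a3⟩ : ∃ s, (∀ w ∈ W, w ⬝ᵥ J *ᵥ s = 0) ∧ x ⬝ᵥ J *ᵥ s ≠ 0 ∧
        (A *ᵥ x) ⬝ᵥ J *ᵥ s ≠ 0 := by
      obtain ⟨s, a1, a2⟩ := sep x hx
      obtain ⟨t, b1, b2⟩ := sep (A *ᵥ x) fun h => hx (by
        have hd' : A.det ≠ 0 := fun e => hd (by rw [← hA, det_mul, e, mul_zero])
        rwa [mulVec_injective_of_det_mem_nonZeroDivisors (mem_nonZeroDivisors_of_ne_zero hd')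
          (hA' _ h)] at h)
      by_cases c1 : (A *ᵥ x) ⬝ᵥ J *ᵥ s = 0
      · by_cases c2 : x ⬝ᵥ J *ᵥ t = 0
        · exact ⟨s + t, fun w hw => by rw [mulVec_add, dotProduct_add, a1 w hw, b1 w hw, add_zero],
            by rwa [mulVec_add, dotProduct_add, c2, add_zero],
            by rwa [mulVec_add, dotProduct_add, c1, zero_add]⟩
        · exact ⟨t, b1, c2, b2⟩
      · exact ⟨s, a1, a2, c1⟩
    obtain ⟨w, c, b1, b2, b3⟩ := step A (x + s) hA hA' (fun w hw => by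
      rw [add_sub_cancel_left, a1 w hw]) (by rwa [mulVec_add, dotProduct_add, h0, zero_add])
    obtain ⟨w', c', c1, c2, c3⟩ := step _ x b1 b2 (fun w _ => by simp) (by
      rwa [b3, add_dotProduct, hJ, zero_add, skew hJ, neg_ne_zero])
    exact back _ _ _ (back _ _ _ (key _ c1 c2 c3))
  · obtain ⟨w, c, c1, c2, c3⟩ := step A x hA hA' (fun w _ => by simp) h0
    exact back _ _ _ (key _ c1 c2 c3)

theorem sl_ind (P : Matrix ι ι F → Prop) (h1 : P 1) (ht : ∀ i j c, i ≠ j → P (transvection i j c))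
    (hm : ∀ A B, P A → P B → P (A * B)) (A : Matrix ι ι F) (hA : A.det = 1) : P A := by
  rcases subsingleton_or_nontrivial ι with h | h
  · rwa [show A = 1 from Matrix.ext fun i j => by
      rw [Subsingleton.elim j i, one_apply_eq, ← det_eq_elem_of_subsingleton A i, hA]]
  refine SpecialLinearGroup.diagonal_transvection_induction' (fun M => P M.1) ⟨A, hA⟩
    (fun i j hij c hc => ?_) (fun i j hij c => ht i j c hij) fun A B => hm _ _
  have : (SpecialLinearGroup.diag2n hij c hc).1 = transvection i j c * transvection j i (-c⁻¹) *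
      transvection i j (c - 1) * transvection j i 1 * transvection i j (-1) := by
    rw [SpecialLinearGroup.diag2n_coe]
    ext k l
    simp only [transvection, mul_add, add_mul, Matrix.mul_one, Matrix.one_mul,
      single_mul_single_same, single_mul_single_of_ne _ _ _ _ hij,
      single_mul_single_of_ne _ _ _ _ hij.symm, Matrix.add_apply, single_apply, diagonal_apply,
      one_apply, add_zero]
    by_cases a1 : k = i <;> by_cases a2 : k = j <;> by_cases a3 : l = i <;> by_cases a4 : l = j <;>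
      simp_all [eq_comm] <;> field_simp <;> ring
  rw [this]
  exact hm _ _ (hm _ _ (hm _ _ (hm _ _ (ht _ _ _ hij) (ht _ _ _ hij.symm)) (ht _ _ _ hij))
    (ht _ _ _ hij.symm)) (ht _ _ _ hij)

end Pool.Agent.Lib.MP_a8bb0e_al.Ex
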