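import Pool.Agent.Lib.MP_a8bb0e_al.Ex.Base

/-! Hall type decompositions of subgroups of finite index in nilpotent groups. -/

open Matrix

namespace Pool.Agent.Lib.MP_a8bb0e_al.Ex

open Uni Tor

lemma pw (Q : Type) [Group Q] [Finite Q] [Group.IsNilpotent Q] (a : ℕ) :
    ∃ (τ κ : Q →* Q) (t A B : ℕ), (∀ x, τ x = x ^ t) ∧ (∀ x, τ x * κ x = x) ∧
      (∀ x, τ x ^ A = 1) ∧ (∀ x, κ x ^ B = 1) ∧ (∀ p : ℕ, p.Prime → p ∣ A → p ∣ a) ∧
      B.Coprime a := by
  classical
  obtain ⟨ι, _, p, b, R, _, h1, h2, h3, ⟨e⟩⟩ := split Q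
  let A := ∏ i with p i ∣ a, p i ^ b i
  let B := ∏ i with ¬ p i ∣ a, p i ^ b i
  have hA : ∀ q : ℕ, q.Prime → q ∣ A → q ∣ a := fun q hq h => by
    obtain ⟨i, hi, h⟩ := (Prime.dvd_finsetProd_iff hq.prime _).1 h
    rw [(Nat.prime_dvd_prime_iff_eq hq (h2 i)).1 (hq.dvd_of_dvd_pow h)]
    exact (Finset.mem_filter.1 hi).2
  have hB : B.Coprime a := Nat.Coprime.prod_left fun i hi =>
    (((h2 i).coprime_iff_not_dvd).2 (Finset.mem_filter.1 hi).2).pow_left _
  have hAB : A.Coprime B := Nat.coprime_of_dvd fun q hq h h' =>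
    hq.one_lt.ne' (Nat.eq_one_of_dvd_coprimes hB h' (hA q hq h))
  have kA : ∀ i, p i ∣ a → ∀ x : R i, x ^ A = 1 := fun i hi x =>
    orderOf_dvd_iff_pow_eq_one.1 ((orderOf_dvd_natCard x).trans (by
      rw [h3]; exact Finset.dvd_prod_of_mem _ (Finset.mem_filter.2 ⟨Finset.mem_univ _, hi⟩)))
  have kB : ∀ i, ¬ p i ∣ a → ∀ x : R i, x ^ B = 1 := fun i hi x =>
    orderOf_dvd_iff_pow_eq_one.1 ((orderOf_dvd_natCard x).trans (by
      rw [h3]; exact Finset.dvd_prod_of_mem _ (Finset.mem_filter.2 ⟨Finset.mem_univ _, hi⟩)))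
  obtain ⟨t, t1, t2⟩ := Nat.chineseRemainder hAB 1 0
  let τ : (∀ i, R i) →* ∀ i, R i :=
    MonoidHom.pi fun i => if p i ∣ a then Pi.evalMonoidHom R i else 1
  let κ : (∀ i, R i) →* ∀ i, R i :=
    MonoidHom.pi fun i => if p i ∣ a then 1 else Pi.evalMonoidHom R i
  have e1 : ∀ x i, τ x i = if p i ∣ a then x i else 1 := fun x i => by
    simp only [τ, MonoidHom.pi_apply]; split_ifs <;> rfl
  have e2 : ∀ x i, κ x i = if p i ∣ a then 1 else x i := fun x i => by
    simp only [κ, MonoidHom.pi_apply]; split_ifs <;> rfl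
  refine ⟨e.toMonoidHom.comp (τ.comp e.symm.toMonoidHom),
    e.toMonoidHom.comp (κ.comp e.symm.toMonoidHom), t, A, B, fun x => ?_, fun x => ?_,
    fun x => ?_, fun x => ?_, hA, hB⟩ <;> obtain ⟨x, rfl⟩ := e.surjective x <;>
    simp only [MonoidHom.comp_apply, MulEquiv.coe_toMonoidHom, e.symm_apply_apply, ← map_pow,
      ← map_mul e, e.map_eq_one_iff, e.apply_eq_iff_eq] <;> funext i
  · rw [e1, Pi.pow_apply]
    split_ifs with h
    · rw [pow_eq_pow_of_modEq t1 (kA i h _), pow_one]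
    · rw [pow_eq_pow_of_modEq t2 (kB i h _), pow_zero]
  · rw [Pi.mul_apply, e1, e2]
    split_ifs <;> simp
  · rw [e1, Pi.pow_apply]
    split_ifs with h
    · exact kA i h _
    · rfl
  · rw [e2, Pi.pow_apply]
    split_ifs with h
    · rfl
    · exact kB i h _

lemma prime_index {X Q : Type} [Group X] [Group Q] [Finite Q] (g : X →* Q) (Y : Subgroup Q) {A : ℕ}
    (h : ∀ x, g x ^ A = 1) {p : ℕ} (hp : p.Prime) (hd : p ∣ (Y.comap g).index) : p ∣ A := by
  have := Fact.mk hp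
  rw [Subgroup.index_comap] at hd
  obtain ⟨⟨_, x, rfl⟩, hx⟩ := exists_prime_orderOf_dvd_card' (G := g.range) p
    (hd.trans (Subgroup.index_dvd_card _))
  exact hx ▸ orderOf_dvd_of_pow_eq_one (Subtype.ext (h x))

section Hall
variable {G : Type} [Group G] [Group.IsNilpotent G]

theorem up (K : Subgroup G) {p a : ℕ} (hp : p.Prime) (hK : K.index.Coprime p) (R : Type) [Group R]
    (hR : Nat.card R = p ^ a) (f : K →* R) (hf : Function.Surjective f) :
    ∃ F : G →* R, Function.Surjective F := by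
  have : Finite R := Nat.finite_of_card_ne_zero (by rw [hR]; exact (pow_pos hp.pos a).ne')
  have : (f.ker.map K.subtype).FiniteIndex := ⟨by
    rw [Subgroup.index_map_subtype]
    refine mul_ne_zero Subgroup.FiniteIndex.index_ne_zero fun h => ?_
    rw [h, Nat.coprime_zero_left] at hK
    exact hp.one_lt.ne' hK⟩
  let N := (f.ker.map K.subtype).normalCore
  let π := QuotientGroup.mk' N
  obtain ⟨τ, κ, -, A, B, -, h2, h3, h4, h5, h6⟩ := pw (G ⧸ N) p
  let g := (τ.comp π).rangeRestrict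
  have hs : Function.Surjective (g.comp K.subtype) := fun q => by
    obtain ⟨y, hy, e⟩ := map_eq_top g (MonoidHom.rangeRestrict_surjective _) K (by
      refine Nat.coprime_of_dvd fun r hr d1 d2 => ?_
      have := prime_index (τ.comp π) ⊥ (fun x => h3 _) hr (by
        rwa [MonoidHom.comap_bot, Subgroup.index_ker])
      exact hr.one_lt.ne' (Nat.eq_one_of_dvd_coprimes hK d1 (h5 r hr this))) q
    exact ⟨⟨y, hy⟩, e⟩
  obtain ⟨F, hF⟩ := descend hs f fun k hk => by
    have e1 : τ (π k) = 1 := congrArg Subtype.val hk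
    have e2 : π ((k : G) ^ B) = 1 := by
      rw [map_pow, ← h2 (π k), e1, one_mul, h4]
    obtain ⟨k', hk', e⟩ := Subgroup.normalCore_le _ ((QuotientGroup.eq_one_iff _).1 e2)
    have e3 : f k ^ B = 1 := by
      rw [← map_pow, ← show k' = k ^ B from Subtype.ext e]; exact hk'
    exact orderOf_eq_one_iff.1 (Nat.eq_one_of_dvd_coprimes (h6.pow_right a)
      (orderOf_dvd_of_pow_eq_one e3) (hR ▸ orderOf_dvd_natCard _))
  exact ⟨F.comp g, fun r => (hf r).elim fun k hk => ⟨k, (hF k).trans hk⟩⟩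

omit [Group.IsNilpotent G] in
lemma restr (K : Subgroup G) {p a : ℕ} (hK : K.index.Coprime p) (R : Type) [Group R]
    (hR : Nat.card R = p ^ a) (f : G →* R) (hf : Function.Surjective f) :
    ∃ F : K →* R, Function.Surjective F :=
  ⟨f.comp K.subtype, fun q => by
    obtain ⟨y, hy, rfl⟩ := map_eq_top f hf K (by rw [hR]; exact hK.pow_right a) q
    exact ⟨⟨y, hy⟩, rfl⟩⟩

theorem hall (Y J : Subgroup G) [J.Normal] [Y.FiniteIndex] (h : SameFin G Y) (a : ℕ) :
    ∃ (K : Subgroup G) (s t : ℕ), SameFin G K ∧ s.Coprime a ∧ t.Coprime a ∧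
      Y.index = s * K.index ∧ Y.relIndex J = t * K.relIndex J ∧
      ∀ p : ℕ, p.Prime → p ∣ K.index * K.relIndex J → p ∣ a := by
  let N := Y.normalCore
  let π := QuotientGroup.mk' N
  obtain ⟨τ, κ, t, A, B, h1, h2, h3, h4, h5, h6⟩ := pw (G ⧸ N) a
  let K := (Y.map π).comap (τ.comp π)
  have hY : ∀ x, π x ∈ Y.map π ↔ x ∈ Y := fun x => by
    rw [← Subgroup.mem_comap, Subgroup.comap_map_eq_self]
    rw [QuotientGroup.ker_mk']
    exact Y.normalCore_le
  have hYK : Y ≤ K := fun y hy => by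
    change τ (π y) ∈ Y.map π
    rw [h1]
    exact pow_mem ((hY y).2 hy) t
  have c1 : ∀ L ≤ K, (Y.relIndex L).Coprime a := fun L hL => by
    have : Y.subgroupOf L = (Y.map π).comap ((κ.comp π).comp L.subtype) := by
      ext x
      change (x : G) ∈ Y ↔ κ (π x) ∈ Y.map π
      rw [← hY, ← (Y.map π).mul_mem_cancel_left (x := τ (π x)) (y := κ (π x)) (hL x.2), h2]
    refine Nat.coprime_of_dvd fun r hr d1 d2 => ?_
    rw [Subgroup.relIndex, this] at d1
    exact hr.one_lt.ne' (Nat.eq_one_of_dvd_coprimes h6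
      (prime_index ((κ.comp π).comp L.subtype) _ (fun x => h4 _) hr d1) d2)
  have c2 : ∀ p : ℕ, p.Prime → p ∣ K.index → p ∣ a := fun p hp d =>
    h5 p hp (prime_index (τ.comp π) _ (fun x => h3 _) hp d)
  have c3 : ∀ p : ℕ, p.Prime → p ∣ K.relIndex J → p ∣ a := fun p hp d =>
    h5 p hp (prime_index ((τ.comp π).comp J.subtype) (Y.map π) (fun x => h3 _) hp d)
  have c4 : ∀ p : ℕ, p.Prime → ¬ p ∣ a → K.index.Coprime p := fun p hp d =>
    (hp.coprime_iff_not_dvd.2 fun d' => d (c2 p hp d')).symm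
  let e := Subgroup.subgroupOfEquivOfLe hYK
  refine ⟨K, Y.relIndex K, Y.relIndex (K ⊓ J), fun Q _ _ =>
    ⟨surj_of_p (fun p b hp R _ hR ⟨f, hf⟩ => ?_) Q, surj_of_p (fun p b hp R _ hR ⟨f, hf⟩ => ?_) Q⟩,
    c1 K le_rfl, c1 _ inf_le_left, (Subgroup.relIndex_mul_index hYK).symm,
    by rw [Subgroup.relIndex_inf_mul_relIndex, inf_eq_left.2 hYK],
    fun p hp d => (hp.dvd_mul.1 d).elim (c2 p hp) (c3 p hp)⟩
  · have : Finite R := Nat.finite_of_card_ne_zero (by rw [hR]; exact (pow_pos hp.pos b).ne')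
    by_cases hd : p ∣ a
    · obtain ⟨F, hF⟩ := restr (Y.subgroupOf K) ((c1 K le_rfl).coprime_dvd_right hd) R hR f hf
      exact (h R).1 ⟨F.comp e.symm.toMonoidHom, hF.comp e.symm.surjective⟩
    · exact up K hp (c4 p hp hd) R hR f hf
  · have : Finite R := Nat.finite_of_card_ne_zero (by rw [hR]; exact (pow_pos hp.pos b).ne')
    by_cases hd : p ∣ a
    · obtain ⟨F, hF⟩ := (h R).2 ⟨f, hf⟩
      exact up (Y.subgroupOf K) hp ((c1 K le_rfl).coprime_dvd_right hd) R hR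
        (F.comp e.toMonoidHom) (hF.comp e.surjective)
    · exact restr K (c4 p hp hd) R hR f hf

end Hall

end Pool.Agent.Lib.MP_a8bb0e_al.Ex
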