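import Pool.Agent.Lib.MP_a8bb0e_al.Ex.Base

/-! Frobenius normal form of an integral alternating matrix. -/

open Matrix

namespace Pool.Agent.Lib.MP_a8bb0e_al.Ex

lemma nf_mod (n : ℕ) : ∀ (M : Type) [AddCommGroup M] [Module.Free ℤ M] [Module.Finite ℤ M]
    (B : M →ₗ[ℤ] M →ₗ[ℤ] ℤ), (∀ x y, B y x = -B x y) → Module.finrank ℤ M = n →
    ∃ (k r : ℕ) (d : Fin k → ℤ) (e f : Fin k → M) (z : Fin r → M), (∀ i, d i ≠ 0) ∧
      k + k + r ≤ n ∧ (∀ w, w ∈ Submodule.span ℤ (Set.range (Sum.elim (Sum.elim e f) z))) ∧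
      (∀ i j, B (e i) (e j) = 0) ∧ (∀ i j, B (f i) (f j) = 0) ∧
      (∀ i j, B (e i) (f j) = if i = j then d i else 0) ∧ ∀ i w, B (z i) w = 0 := by
  induction n using Nat.strong_induction_on with
  | _ n ih =>
  intro M _ _ _ B hB hn
  have h0 : ∀ x, B x x = 0 := fun x => by have := hB x x; omega
  by_cases hz : ∀ x y, B x y = 0
  · refine ⟨0, _, Fin.elim0, Fin.elim0, Fin.elim0, Module.finBasis ℤ M, fun i => i.elim0,
      by omega, fun w => ?_, fun i => i.elim0, fun i => i.elim0, fun i => i.elim0,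
      fun i w => hz _ _⟩
    exact Submodule.span_mono (by rw [Set.Sum.elim_range]; exact Set.subset_union_right)
      ((Module.finBasis ℤ M).mem_span w)
  have hex : ∃ m : ℕ, 0 < m ∧ ∃ x y, B x y = m := by
    push Not at hz
    obtain ⟨x, y, h⟩ := hz
    rcases lt_or_gt_of_ne h with c | c
    · exact ⟨(B x y).natAbs, by omega, y, x, by rw [hB]; omega⟩
    · exact ⟨(B x y).natAbs, by omega, x, y, by omega⟩
  classical
  obtain ⟨hm, x, y, hxy⟩ := Nat.find_spec hex
  have hmin : ∀ u v, 0 ≤ B u v → B u v < Nat.find hex → B u v = 0 := fun u v a1 a2 => by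
    by_contra c
    exact Nat.find_min hex (m := (B u v).natAbs) (by omega) ⟨by omega, u, v, by omega⟩
  generalize Nat.find hex = m at hm hxy hmin
  have hm' : (0 : ℤ) < m := by omega
  have d1 : ∀ w, ∃ a : ℤ, B w y = a * m := fun w => by
    have e1 : B (w - (B w y / m) • x) y = B w y % m := by
      rw [map_sub, map_zsmul, LinearMap.sub_apply, LinearMap.smul_apply, hxy, Int.emod_def]
      simp only [smul_eq_mul]; ring
    have := hmin _ _ (e1 ▸ Int.emod_nonneg _ hm'.ne') (e1 ▸ Int.emod_lt_of_pos _ hm')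
    exact exists_eq_mul_left_of_dvd (Int.dvd_of_emod_eq_zero (e1 ▸ this))
  have d2 : ∀ w, ∃ a : ℤ, B x w = a * m := fun w => by
    have e1 : B x (w - (B x w / m) • y) = B x w % m := by
      rw [map_sub, map_zsmul, hxy, Int.emod_def]
      simp only [smul_eq_mul]; ring
    have := hmin _ _ (e1 ▸ Int.emod_nonneg _ hm'.ne') (e1 ▸ Int.emod_lt_of_pos _ hm')
    exact exists_eq_mul_left_of_dvd (Int.dvd_of_emod_eq_zero (e1 ▸ this))
  let N : Submodule ℤ M := LinearMap.ker (B x) ⊓ LinearMap.ker (B y)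
  have hN : ∀ w : N, B x w = 0 ∧ B y w = 0 := fun w => w.2
  have dec : ∀ w, ∃ (a b : ℤ) (u : N), w = a • x + b • y + u := fun w => by
    obtain ⟨a, ha⟩ := d1 w
    obtain ⟨b, hb⟩ := d2 w
    refine ⟨a, b, ⟨w - a • x - b • y, ?_, ?_⟩, by simp⟩
    · simp [h0, hxy, hb]
    · simp [h0, hB x y, hxy, hB w y, ha]
  have hle : 2 + Module.finrank ℤ N ≤ n := by
    have := LinearMap.finrank_le_finrank_of_injective
      (f := ((LinearMap.toSpanSingleton ℤ M x).coprod (LinearMap.toSpanSingleton ℤ M y)).coprod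
        N.subtype) ((injective_iff_map_eq_zero _).2 fun ⟨⟨a, b⟩, u⟩ h => by
        have h : a • x + b • y + u = 0 := h
        have a1 := congrArg (B x) h
        have a2 := congrArg (B y) h
        simp [h0, hxy, hB x y, hN u, hm.ne'] at a1 a2
        simpa [a1, a2] using h)
    rwa [Module.finrank_prod, Module.finrank_prod, Module.finrank_self, hn] at this
  obtain ⟨k, r, d, e, f, z, b1, b2, b3, b4, b5, b6, b7⟩ :=
    ih _ (by omega) N (B.domRestrict₁₂ N N) (fun u v => hB _ _) rfl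
  simp only [LinearMap.domRestrict₁₂_apply] at b4 b5 b6 b7
  have hN' : ∀ w : N, B w x = 0 ∧ B w y = 0 := fun w => by
    rw [hB x, hB y, (hN w).1, (hN w).2]; simp
  refine ⟨k + 1, r, Fin.cons m d, Fin.cons x fun i => e i, Fin.cons y fun i => f i, fun i => z i,
    fun i => Fin.cases (by simpa using hm.ne') (fun i => by simpa using b1 i) i, by omega,
    fun w => ?_, fun i j => ?_, fun i j => ?_, fun i j => ?_, fun i w => ?_⟩
  · obtain ⟨a, b, u, rfl⟩ := dec w
    refine add_mem (add_mem (Submodule.smul_mem _ _ (Submodule.subset_span ⟨.inl (.inl 0), rfl⟩))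
      (Submodule.smul_mem _ _ (Submodule.subset_span ⟨.inl (.inr 0), rfl⟩))) ?_
    have := Submodule.mem_map_of_mem (f := N.subtype) (b3 u)
    rw [Submodule.map_span] at this
    refine Submodule.span_mono ?_ this
    rintro _ ⟨_, ⟨(i | i) | i, rfl⟩, rfl⟩
    exacts [⟨.inl (.inl i.succ), rfl⟩, ⟨.inl (.inr i.succ), rfl⟩, ⟨.inr i, rfl⟩]
  · refine Fin.cases ?_ (fun i => ?_) i <;> refine Fin.cases ?_ (fun j => ?_) j <;>
      simp [h0, hN, hN', b4]
  · refine Fin.cases ?_ (fun i => ?_) i <;> refine Fin.cases ?_ (fun j => ?_) j <;>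
      simp [h0, hN, hN', b5]
  · refine Fin.cases ?_ (fun i => ?_) i <;> refine Fin.cases ?_ (fun j => ?_) j <;>
      simp [hxy, hN, hN', b6, (Fin.succ_ne_zero _).symm]
  · obtain ⟨a, b, u, rfl⟩ := dec w
    simp [hN', b7]

variable {σ : Type} [Fintype σ] [DecidableEq σ]

theorem normal_form {Ω : Matrix σ σ ℤ} (h : Ωᵀ = -Ω) :
    ∃ (k r : ℕ) (d : Fin k → ℤ) (U : Matrix σ (Ix k r) ℤ) (U' : Matrix (Ix k r) σ ℤ),
      (∀ i, d i ≠ 0) ∧ U * U' = 1 ∧ U' * U = 1 ∧ Uᵀ * Ω * U = fromBlocks (Jd d) 0 0 0 := by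
  have hB : ∀ x y, toLinearMap₂' ℤ Ω y x = -toLinearMap₂' ℤ Ω x y := fun x y => by
    rw [toLinearMap₂'_apply', toLinearMap₂'_apply', dotProduct_mulVec, ← mulVec_transpose, h,
      neg_mulVec, neg_dotProduct, dotProduct_comm]
  obtain ⟨k, r, d, e, f, z, b1, b2, b3, b4, b5, b6, b7⟩ := nf_mod _ (σ → ℤ) _ hB rfl
  let U : Matrix σ (Ix k r) ℤ := (Matrix.of (Sum.elim (Sum.elim e f) z))ᵀ
  choose c hc using fun i => (Submodule.mem_span_range_iff_exists_fun ℤ).1 (b3 (Pi.single i 1))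
  have h1 : U * (Matrix.of c)ᵀ = 1 := by
    ext i j
    have := congrFun (hc j) i
    simp only [Finset.sum_apply, Pi.smul_apply, smul_eq_mul] at this
    rw [Matrix.mul_apply, one_apply, ← Pi.single_apply, ← this]
    exact Finset.sum_congr rfl fun _ _ => mul_comm _ _
  have h2 : Fintype.card σ = Fintype.card (Ix k r) := by
    have := (rank_mul_le_left U (Matrix.of c)ᵀ).trans (rank_le_card_width U)
    rw [h1, rank_one] at this
    simp only [Module.finrank_fintype_fun_eq_card] at b2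
    exact le_antisymm this (by simpa using b2)
  refine ⟨k, r, d, U, _, b1, h1, (mul_eq_one_comm_of_equiv (Fintype.equivOfCardEq h2)).1 h1, ?_⟩
  ext i j
  have : (Uᵀ * Ω * U) i j =
      toLinearMap₂' ℤ Ω (Sum.elim (Sum.elim e f) z i) (Sum.elim (Sum.elim e f) z j) := by
    rw [toLinearMap₂'_apply', Matrix.mul_assoc]; rfl
  rw [this]
  rcases i with (i | i) | i <;> rcases j with (j | j) | j <;>
    simp only [Sum.elim_inl, Sum.elim_inr, b4, b5, b6, b7, hB (e _) (f _), hB (z _) (e _),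
      hB (z _) (f _)] <;> simp [Jd, diagonal_apply, eq_comm]
  split_ifs with c <;> simp [c]

lemma rank_nf {Ω : Matrix σ σ ℤ} {k r : ℕ} {d : Fin k → ℤ} {U : Matrix σ (Ix k r) ℤ}
    {U' : Matrix (Ix k r) σ ℤ} (hd : ∀ i, d i ≠ 0) (h1 : U * U' = 1)
    (h2 : Uᵀ * Ω * U = fromBlocks (Jd d) 0 0 0) (F : Type) [Field F] [CharZero F] :
    (Ω.map (Int.castRingHom F)).rank = k + k := by
  let φ := Int.castRingHom F
  let P : Matrix (Ix k r) (Fin k ⊕ Fin k) ℤ := fromRows 1 0
  have e1 : Ω = (P.transpose * U')ᵀ * Jd d * (Pᵀ * U') := by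
    have : P * Jd d * Pᵀ = fromBlocks (Jd d) 0 0 0 := by
      simp only [P, transpose_fromRows, fromRows_mul]
      ext (i | i) (j | j) <;> simp
    rw [transpose_mul, transpose_transpose, Matrix.mul_assoc _ P, Matrix.mul_assoc,
      ← Matrix.mul_assoc _ Pᵀ, this, ← h2, Matrix.mul_assoc, h1, Matrix.mul_one,
      ← Matrix.mul_assoc, ← transpose_mul, h1, transpose_one, Matrix.one_mul]
  have e2 : Jd d = (U * P)ᵀ * Ω * (U * P) := by
    rw [transpose_mul, Matrix.mul_assoc _ Uᵀ, Matrix.mul_assoc, ← Matrix.mul_assoc _ U, h2]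
    simp [P, transpose_fromRows, fromBlocks_mul_fromRows, fromCols_mul_fromRows]
  have e3 : ((Jd d).map φ).rank = k + k := by
    rw [rank_of_isUnit _ (IsUnit.of_mul_eq_one
      (fromBlocks 0 (-diagonal fun i => (d i : F)⁻¹) (diagonal fun i => (d i : F)⁻¹) 0) ?_)]
    · simp
    have : ∀ i, (d i : F) * (d i : F)⁻¹ = 1 := fun i => mul_inv_cancel₀ (by exact_mod_cast hd i)
    simp [Jd, fromBlocks_map, fromBlocks_multiply, φ, this]
  refine le_antisymm ?_ ?_
  · rw [e1, Matrix.map_mul, Matrix.map_mul, ← e3]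
    exact (rank_mul_le_left _ _).trans (rank_mul_le_right _ _)
  · rw [← e3, e2, Matrix.map_mul, Matrix.map_mul]
    exact (rank_mul_le_left _ _).trans (rank_mul_le_right _ _)

theorem rat_sim {Ω Ω' : Matrix σ σ ℤ} (h : Ωᵀ = -Ω) (h' : Ω'ᵀ = -Ω') {F : Type} [Field F]
    [CharZero F] {g g' : Matrix σ σ F} {l : F} (hg : g * g' = 1) (hl : l ≠ 0)
    (e : gᵀ * Ω.map (Int.castRingHom F) * g = l • Ω'.map (Int.castRingHom F)) :
    ∃ a a' : Matrix σ σ ℚ, a * a' = 1 ∧
      aᵀ * Ω.map (Int.castRingHom ℚ) * a = Ω'.map (Int.castRingHom ℚ) := by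
  obtain ⟨k, r, d, U, U', a1, a2, a3, a4⟩ := normal_form h
  obtain ⟨k', r', d', V, V', b1, b2, b3, b4⟩ := normal_form h'
  obtain rfl : k = k' := by
    have c1 := rank_nf a1 a2 a4 F
    have c2 := rank_nf b1 b2 b4 F
    have c3 : Ω'.map (Int.castRingHom F) = (l⁻¹ • gᵀ) * Ω.map (Int.castRingHom F) * g := by
      rw [Matrix.smul_mul, Matrix.smul_mul, e, inv_smul_smul₀ hl]
    have c4 : Ω.map (Int.castRingHom F) = (l • g'ᵀ) * Ω'.map (Int.castRingHom F) * g' := by
      rw [Matrix.smul_mul, ← Matrix.mul_smul, ← e, ← Matrix.mul_assoc, ← Matrix.mul_assoc,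
        ← transpose_mul, hg, transpose_one, Matrix.one_mul, Matrix.mul_assoc, hg, Matrix.mul_one]
    have c5 := c3.symm ▸ (rank_mul_le_left ((l⁻¹ • gᵀ) * Ω.map (Int.castRingHom F)) g).trans
      (rank_mul_le_right _ _)
    have c6 := c4.symm ▸ (rank_mul_le_left ((l • g'ᵀ) * Ω'.map (Int.castRingHom F)) g').trans
      (rank_mul_le_right _ _)
    omega
  obtain rfl : r = r' := by
    have c : ∀ {r : ℕ} {U : Matrix σ (Ix k r) ℤ} {U' : Matrix (Ix k r) σ ℤ}, U * U' = 1 →
        U' * U = 1 → Fintype.card σ = k + k + r := fun {r U U'} a b => by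
      have c1 := (rank_mul_le_left U U').trans (rank_le_card_width U)
      have c2 := (rank_mul_le_left U' U).trans (rank_le_card_width U')
      rw [a, rank_one] at c1
      rw [b, rank_one] at c2
      simpa using le_antisymm c1 c2
    have := c a2 a3
    have := c b2 b3
    omega
  let φ := Int.castRingHom ℚ
  let D : (Fin k → ℤ) → (Fin k → ℤ) → Matrix (Ix k r) (Ix k r) ℚ := fun d d' =>
    fromBlocks (fromBlocks (diagonal fun i => (d' i : ℚ) / d i) 0 0 1) 0 0 1
  have a1' : ∀ i, (d i : ℚ) ≠ 0 := fun i => by exact_mod_cast a1 i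
  have b1' : ∀ i, (d' i : ℚ) ≠ 0 := fun i => by exact_mod_cast b1 i
  have m1 : ∀ {α β : Type} [Fintype β] [DecidableEq α] {A : Matrix α β ℤ} {B : Matrix β α ℤ},
      A * B = 1 → A.map φ * B.map φ = 1 := fun a => by
    rw [← Matrix.map_mul, a, Matrix.map_one _ (map_zero φ) (map_one φ)]
  refine ⟨U.map φ * D d d' * V'.map φ, V.map φ * D d' d * U'.map φ, ?_, ?_⟩
  · have : D d d' * D d' d = 1 := by
      simp [D, fromBlocks_multiply, div_mul_div_cancel₀ (a1' _), div_self (b1' _)]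
    rw [Matrix.mul_assoc, Matrix.mul_assoc (V.map φ), ← Matrix.mul_assoc (V'.map φ), m1 b3,
      Matrix.one_mul, Matrix.mul_assoc, ← Matrix.mul_assoc (D d d'), this, Matrix.one_mul, m1 a2]
  · have c1 : (D d d')ᵀ * (Uᵀ * Ω * U).map φ * D d d' = (Vᵀ * Ω' * V).map φ := by
      rw [a4, b4]
      simp [D, Jd, fromBlocks_map, fromBlocks_multiply, fromBlocks_transpose, φ,
        div_mul_cancel₀ _ (a1' _), mul_div_cancel₀ _ (a1' _)]
    have c2 := congrArg (fun M => (V'.map φ)ᵀ * M * V'.map φ) c1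
    simp only [Matrix.map_mul, transpose_map, Matrix.mul_assoc, m1 b2, Matrix.mul_one] at c2
    rw [← Matrix.mul_assoc _ (V.map φ)ᵀ, ← transpose_mul, m1 b2, transpose_one,
      Matrix.one_mul] at c2
    rw [← c2]
    simp only [transpose_mul, Matrix.mul_assoc]
    rfl

end Pool.Agent.Lib.MP_a8bb0e_al.Ex
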