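import Pool.Agent.Lib.MP_a8bb0e_al.Ex.Au
import Pool.Agent.Lib.MP_a8bb0e_al.Ex.NF
import Pool.Agent.Lib.MP_a8bb0e_al.Ex.Dual

/-! Bilinear maps of extreme type are tame. -/

open Matrix

namespace Pool.Agent.Lib.MP_a8bb0e_al.Ex

open Uni

variable {σ I : Type} [Fintype σ] [Fintype I] [DecidableEq σ] [DecidableEq I]
  {T T' : σ → σ → I → ℤ} {k r : ℕ} {d : Fin k → ℤ}

lemma Jd_skew : (Jd d)ᵀ = -Jd d := by simp [Jd, fromBlocks_transpose, fromBlocks_neg]

lemma Jd_det (hd : ∀ i, d i ≠ 0) : (Jd d).det ≠ 0 := by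
  refine left_ne_zero_of_mul (b := (Jd d).det) ?_
  rw [← det_mul, Jd, fromBlocks_multiply]
  simp [Finset.prod_eq_zero_iff, hd]

lemma Jd_sc {R : Type} [CommRing R] (u : R) :
    (diagonal (Sum.elim (fun _ => u) fun _ => 1))ᵀ * (Jd d).map (Int.castRingHom R) *
      diagonal (Sum.elim (fun _ => u) fun _ => 1) = u • (Jd d).map (Int.castRingHom R) := by
  ext (i | i) (j | j) <;> simp [Jd, mul_comm]

lemma blk (hd : ∀ i, d i ≠ 0) {F : Type} [Field F] [CharZero F] {x : Matrix (Ix k r) (Ix k r) F}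
    {l : F} (hl : l ≠ 0) (h : xᵀ * Om (Jd d) (Fin r) F * x = l • Om (Jd d) (Fin r) F) :
    x = fromBlocks x.toBlocks₁₁ 0 x.toBlocks₂₁ x.toBlocks₂₂ ∧ x.toBlocks₁₁.det = l ^ k ∧
      x.toBlocks₁₁ᵀ * (Jd d).map (Int.castRingHom F) * x.toBlocks₁₁ =
        l • (Jd d).map (Int.castRingHom F) := by
  have hJ : ((Jd d).map (Int.castRingHom F)).det ≠ 0 := by
    rw [← RingHom.mapMatrix_apply, ← RingHom.map_det]; simpa using Jd_det hd
  rw [← fromBlocks_toBlocks x, Om, fromBlocks_transpose, fromBlocks_multiply, fromBlocks_multiply,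
    fromBlocks_smul, fromBlocks_inj] at h
  simp only [Matrix.mul_zero, add_zero, Matrix.zero_mul, smul_zero] at h
  have h1 := sp_ind (alt_map (Jd_skew (d := d)) F) hJ (fun A => A.det = 1) det_one (fun A w c h => by
    rw [det_mul, h, mul_one, tv, ← smul_vecMulVec, vecMulVec_eq Unit,
      det_one_add_replicateCol_mul_replicateRow, dotProduct_smul, dotProduct_comm,
      alt_map Jd_skew, smul_zero, add_zero])
    (x.toBlocks₁₁ * diagonal (Sum.elim (fun _ => l⁻¹) fun _ => 1)) (by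
      rw [transpose_mul, Matrix.mul_assoc, Matrix.mul_assoc, ← Matrix.mul_assoc _ x.toBlocks₁₁,
        ← Matrix.mul_assoc x.toBlocks₁₁ᵀ, ← Matrix.mul_assoc x.toBlocks₁₁ᵀ, h.1, Matrix.smul_mul,
        Matrix.mul_smul, ← Matrix.mul_assoc, Jd_sc, smul_inv_smul₀ hl])
  have h2 : x.toBlocks₁₁.det = l ^ k := by
    rw [det_mul, det_diagonal, Fintype.prod_sum_type] at h1
    simpa [mul_inv_eq_one₀ (pow_ne_zero k hl)] using h1
  refine ⟨?_, h2, h.1⟩
  have h3 : IsUnit (x.toBlocks₁₁ᵀ * (Jd d).map (Int.castRingHom F)).det := by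
    rw [det_mul, det_transpose, h2]
    exact (mul_ne_zero (pow_ne_zero k hl) hJ).isUnit
  rw [← (nonsing_inv_mul_cancel_left _ _ h3).symm.trans
    ((congrArg _ h.2.1).trans (Matrix.mul_zero _)), fromBlocks_toBlocks]

/-- properties of a group of similitudes -/
structure SP (U : Matrix σ (Ix k r) ℤ) (U' : Matrix (Ix k r) σ ℤ)
    (Sim : ∀ (F : Type) [Field F], Matrix σ σ F → F → Prop) : Prop where
  h1 : U * U' = 1
  h2 : U' * U = 1
  a : ∀ (F : Type) [Field F] (u v : F), Sim F (dl U U' u v) u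
  u : ∀ (F : Type) [Field F] [CharZero F] g l l', k ≠ 0 → Sim F g l → Sim F g l' → l = l'
  d : ∀ (F : Type) [Field F] [CharZero F] g l, l ≠ 0 → r = 0 → Sim F g l → g.det = l ^ k
  e : ∀ (g : Matrix σ σ ℤ) (l : ℚ), l ≠ 0 → Sim ℚ (g.map (Int.castRingHom ℚ)) l →
    ∃ a b : ℤ, l ^ k = a ∧ g.det = a * b
  g : ∀ N : ℕ, N ≠ 0 → ∀ z : ∀ p : PS N, Matrix σ σ ℚ_[p], (∀ p, Sim _ (z p) 1 ∧ (z p).det = 1) →
    ∀ V : Set (∀ p : PS N, Matrix σ σ ℚ_[p]), IsOpen V → z ∈ V → ∃ s : Matrix σ σ (Lam N),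
      IsUnit s ∧ (fun p => s.map (lc p)) ∈ V ∧ Sim ℚ (s.map (Lam N).subtype) 1

variable {U : Matrix σ (Ix k r) ℤ} {U' : Matrix (Ix k r) σ ℤ}
  {Sim : ∀ (F : Type) [Field F], Matrix σ σ F → F → Prop}

lemma SP.tr (H : SP U U' Sim) : SP U'ᵀ Uᵀ fun F _ g l => Sim F gᵀ l where
  h1 := by rw [← transpose_mul, H.h1, transpose_one]
  h2 := by rw [← transpose_mul, H.h2, transpose_one]
  a F _ u v := by
    have := H.a F u v
    rwa [dl, transpose_mul, transpose_mul, diagonal_transpose, ← Matrix.mul_assoc]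
  u F _ _ g := H.u F _
  d F _ _ g l h1 h2 h3 := (det_transpose g).symm.trans (H.d F _ l h1 h2 h3)
  e g l h1 h2 := det_transpose g ▸ H.e gᵀ l h1 h2
  g N hN z hz V hV h := by
    obtain ⟨s, a1, a2, a3⟩ := H.g N hN (fun p => (z p)ᵀ)
      (fun p => ⟨(hz p).1, (det_transpose _).trans (hz p).2⟩) ((fun z p => (z p)ᵀ) ⁻¹' V)
      (hV.preimage (continuous_pi fun p => (continuous_apply p).matrix_transpose)) h
    exact ⟨sᵀ, (isUnit_transpose s).2 a1, a2, a3⟩

theorem sp_of {Ω : Matrix σ σ ℤ} (hd : ∀ i, d i ≠ 0) (h1 : U * U' = 1) (h2 : U' * U = 1)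
    (h3 : Uᵀ * Ω * U = fromBlocks (Jd d) 0 0 0) :
    SP U U' fun F _ g l => gᵀ * Ω.map (Int.castRingHom F) * g = l • Ω.map (Int.castRingHom F) := by
  have a1 : ∀ (R : Type) [CommRing R], U.map (Int.castRingHom R) * U'.map (Int.castRingHom R) = 1 :=
    fun R _ => by rw [← Matrix.map_mul, h1, Matrix.map_one _ (map_zero _) (map_one _)]
  have a2 : ∀ (R : Type) [CommRing R], U'.map (Int.castRingHom R) * U.map (Int.castRingHom R) = 1 :=
    fun R _ => by rw [← Matrix.map_mul, h2, Matrix.map_one _ (map_zero _) (map_one _)]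
  have a3 : ∀ (R : Type) [CommRing R], (U.map (Int.castRingHom R))ᵀ * Ω.map (Int.castRingHom R) *
      U.map (Int.castRingHom R) = Om (Jd d) (Fin r) R := fun R _ => by
    rw [← transpose_map, ← Matrix.map_mul, ← Matrix.map_mul, h3, Om, fromBlocks_map]
    simp
  have a4 : ∀ (R : Type) [CommRing R], (U'.map (Int.castRingHom R))ᵀ * Om (Jd d) (Fin r) R *
      U'.map (Int.castRingHom R) = Ω.map (Int.castRingHom R) := fun R _ => by
    rw [← a3, Matrix.mul_assoc, Matrix.mul_assoc, a1, Matrix.mul_one, ← Matrix.mul_assoc,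
      ← transpose_mul, a1, transpose_one, Matrix.one_mul]
  have b1 : ∀ (R : Type) [CommRing R] (g : Matrix σ σ R) (l : R),
      gᵀ * Ω.map (Int.castRingHom R) * g = l • Ω.map (Int.castRingHom R) →
      (U'.map (Int.castRingHom R) * g * U.map (Int.castRingHom R))ᵀ * Om (Jd d) (Fin r) R *
        (U'.map (Int.castRingHom R) * g * U.map (Int.castRingHom R)) = l • Om (Jd d) (Fin r) R :=
    fun R _ g l h => by
      rw [← a3 R, ← Matrix.smul_mul, ← Matrix.mul_smul, ← h, a3, ← a4]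
      simp only [transpose_mul, Matrix.mul_assoc]
  have b2 : ∀ (R : Type) [CommRing R] (x : Matrix (Ix k r) (Ix k r) R) (l : R),
      xᵀ * Om (Jd d) (Fin r) R * x = l • Om (Jd d) (Fin r) R →
      (U.map (Int.castRingHom R) * x * U'.map (Int.castRingHom R))ᵀ * Ω.map (Int.castRingHom R) *
        (U.map (Int.castRingHom R) * x * U'.map (Int.castRingHom R)) =
          l • Ω.map (Int.castRingHom R) := fun R _ x l h => by
    rw [← a4 R, ← Matrix.smul_mul, ← Matrix.mul_smul, ← h, a4, ← a3]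
    simp only [transpose_mul, Matrix.mul_assoc]
  refine ⟨h1, h2, fun F _ u v => b2 F _ u ?_, fun F _ _ g l l' hk e e' => ?_,
    fun F _ _ g l hl hr e => ?_, fun g l hl e => ?_, fun N hN z hz V hV h => ?_⟩
  · rw [dg, ← fromBlocks_diagonal, Om, fromBlocks_transpose, fromBlocks_multiply,
      fromBlocks_multiply, fromBlocks_smul, ← Jd_sc]
    simp
  · have i : Fin k := ⟨0, Nat.pos_of_ne_zero hk⟩
    have := congrFun (congrFun ((b1 F g l e).symm.trans (b1 F g l' e')) (.inl (.inl i))) (.inl (.inr i))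
    simpa [Om, Jd, hd] using this
  · subst hr
    obtain ⟨c1, c2, -⟩ := blk hd hl (b1 F g l e)
    rw [← det_conj_of_mul_eq_one (a2 F) (a1 F), c1, det_fromBlocks_zero₁₂, c2, det_isEmpty, mul_one]
  · obtain ⟨c1, c2, -⟩ := blk hd hl (b1 ℚ _ l e)
    rw [← Matrix.map_mul, ← Matrix.map_mul] at c1 c2
    refine ⟨(U' * g * U).toBlocks₁₁.det, (U' * g * U).toBlocks₂₂.det,
      c2.symm.trans ((Int.castRingHom ℚ).map_det _).symm, ?_⟩
    rw [← det_conj_of_mul_eq_one h2 h1, ← det_fromBlocks_zero₁₂ _ (U' * g * U).toBlocks₂₁]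
    exact congrArg det (map_injective (f := Int.castRingHom ℚ) Int.cast_injective
      (c1.trans (by ext (i | i) (j | j) <;> simp [toBlocks₁₁, toBlocks₂₁, toBlocks₂₂])))
  · have c := fun p : PS N => blk hd one_ne_zero (b1 _ _ _ (hz p).1)
    obtain ⟨s, ⟨s1, s2⟩, s3⟩ := approx hN Jd_skew (Jd_det hd) _ _ _
      (fun p => (c p).2.2.trans (one_smul _ _)) (fun p => by
        have := (hz p).2
        rwa [← det_conj_of_mul_eq_one (a2 _) (a1 _), (c p).1, det_fromBlocks_zero₁₂, (c p).2.1,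
          one_pow, one_mul] at this)
      (U := (fun (x : ∀ p : PS N, Matrix (Ix k r) (Ix k r) ℚ_[p]) (p : PS N) =>
        U.map (Int.castRingHom ℚ_[p]) * x p * U'.map (Int.castRingHom ℚ_[p])) ⁻¹' V)
      (hV.preimage (continuous_pi fun p => (continuous_const.matrix_mul
        (continuous_apply p)).matrix_mul continuous_const)) (by
        refine (congrArg (· ∈ V) (funext fun p => ?_)).mpr h
        beta_reduce
        rw [← (c p).1, ← Matrix.mul_assoc, ← Matrix.mul_assoc, a1, Matrix.one_mul, Matrix.mul_assoc,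
          a1, Matrix.mul_one])
    refine ⟨U.map (Int.castRingHom (Lam N)) * (s : Matrix (Ix k r) (Ix k r) (Lam N)) *
      U'.map (Int.castRingHom (Lam N)), ?_, ?_, ?_⟩
    · rwa [isUnit_iff_isUnit_det, det_conj_of_mul_eq_one (a1 _) (a2 _), ← isUnit_iff_isUnit_det]
    · simpa only [Matrix.map_mul, cast_map, Set.mem_preimage] using s3
    · have := congrArg (·.map (Lam N).subtype) (b2 _ s 1 (s1.trans (one_smul _ _).symm))
      simpa only [one_smul, Matrix.map_mul, transpose_map, cast_map] using this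

lemma Hom.iso {F : Type} [Field F] [CharZero F] {g g' : Matrix σ σ F} {h : Matrix I I F}
    (H : Hom T T' g h) (e : g * g' = 1) {S : I → σ → σ → ℤ} {f : ℕ} (L : LI S T f) (hf : 0 < f) :
    ∃ h', IsoT T T' g g' h h' :=
  ⟨(f : F)⁻¹ • hS S T' g', e, mul_eq_one_comm.1 (by
    rw [Matrix.smul_mul, H.left L e, inv_smul_smul₀ (by exact_mod_cast hf.ne')]), H⟩

lemma int_of_pow {l : ℚ} {j : ℕ} (hj : j ≠ 0) {a : ℤ} (h : l ^ j = a) : ∃ b : ℤ, l = b :=
  ⟨l.num, (Rat.coe_int_num_of_den_eq_one ((Nat.pow_eq_one (a := l.den) (n := j)).1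
    (by rw [← Rat.den_pow, h, Rat.den_intCast]) |>.resolve_right hj)).symm⟩

theorem pk_of (H : SP U U' Sim) {S : I → σ → σ → ℤ} {f : ℕ} (L : LI S T f) (hf : 0 < f) (w : ℕ)
    {γ : ℤ} (hγ : γ = 1 ∨ γ = -1)
    (k2 : ∀ (F : Type) [Field F] [CharZero F] g l, Sim F g l → ∃ h, Hom T T g h)
    (k3 : ∀ (F : Type) [Field F] [CharZero F] (g g' : Matrix σ σ F) (h h' : Matrix I I F),
      IsoT T T g g' h h' → ∃ l, l ≠ 0 ∧ Sim F g l ∧ (k = 0 → l = 1) ∧ h.det = l ^ γ * g.det ^ w) :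
    Nonempty (Pk T) := by
  have k4 : ∀ (F : Type) [Field F] [CharZero F] (g : Matrix σ σ F) h l b, Au T k w γ g h l b →
      Sim F g l := fun F _ _ g h l b A => by
    obtain ⟨l', -, h1, -, h2⟩ := k3 F _ _ _ _ A.iso
    have := mul_right_cancel₀ (pow_ne_zero _ A.dg) (h2.symm.trans A.2.2.2.2)
    rwa [show l = l' by rcases hγ with rfl | rfl <;> simpa using this.symm]
  refine ⟨⟨k, r, w, γ, U, U', hγ, H.h1, H.h2, fun F _ _ g g' h h' e => ?_, fun g h l b A hk => ?_,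
    fun F _ _ u v hu hv h1 h2 => ?_, fun N hN z hz V hV h => ?_⟩⟩
  · obtain ⟨l, h1, h2, h3, h4⟩ := k3 F _ _ _ _ e
    have := pow_ne_zero k h1
    have h5 := (isUnit_det_of_right_inverse e.1).ne_zero
    exact ⟨l, g.det / l ^ k, ⟨h1, div_ne_zero h5 this, e.2.2, by field_simp, h4⟩, h3,
      fun hr => by rw [H.d F g l h1 hr h2, div_self this]⟩
  · obtain ⟨a, b0, h1, h2⟩ := H.e g l A.1 (k4 ℚ _ _ _ _ A)
    obtain ⟨l0, h3⟩ : ∃ l0 : ℤ, l = l0 := by
      by_cases e : k = 0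
      exacts [⟨1, by simp [hk e]⟩, int_of_pow e h1]
    refine ⟨l0, b0, h3, mul_left_cancel₀ (pow_ne_zero k A.1) ?_⟩
    rw [← A.2.2.2.1, h1, ← Int.cast_mul, ← h2]
    exact ((Int.castRingHom ℚ).map_det g).symm
  · obtain ⟨h, e⟩ := k2 F _ _ (H.a F u v)
    obtain ⟨h', e'⟩ := e.iso (g' := dl U U' u⁻¹ v⁻¹) (by
      rw [dl_mul H.h2, mul_inv_cancel₀ hu, mul_inv_cancel₀ hv, dl_one H.h1]) L hf
    obtain ⟨l, -, a2, a3, a4⟩ := k3 F _ _ _ _ e'
    obtain rfl : l = u := by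
      by_cases c : k = 0
      exacts [(a3 c).trans (h1 c).symm, H.u F _ _ _ c a2 (H.a F u v)]
    exact ⟨h, hu, hv, e, det_dl H.h1 H.h2 h2, a4⟩
  · obtain ⟨s, a1, a2, a3⟩ := H.g N hN z (fun p => (hz p).elim fun h A =>
      ⟨k4 _ _ _ _ _ A, by rw [A.2.2.2.1, one_pow, one_mul]⟩) V hV h
    exact ⟨s, a1, a2, k2 ℚ _ _ a3⟩

/-- the form attached to a bilinear map with values in a lattice of rank at most one -/
def fm (T : σ → σ → I → ℤ) : Matrix σ σ ℤ := of fun i j => ∑ a, T i j a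

section
variable [Subsingleton I] {F : Type} [Field F] {g : Matrix σ σ F}

omit [Fintype σ] [DecidableEq σ] [DecidableEq I] [Subsingleton I] in
lemma fm_skew (h : Alt T) : (fm T)ᵀ = -fm T := by
  ext i j; simp [fm, h i j]

omit [Fintype σ] [DecidableEq σ] [DecidableEq I] in
lemma fm_eq (i j : σ) (a : I) : fm T i j = T i j a := Fintype.sum_subsingleton _ a

omit [DecidableEq σ] in
lemma p1 {h : Matrix I I F} (H : Hom T T' g h) :
    gᵀ * (fm T).map (Int.castRingHom F) * g = h.det • (fm T').map (Int.castRingHom F) := by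
  ext i j
  rcases isEmpty_or_nonempty I with e | ⟨⟨a⟩⟩
  · simp [fm, Matrix.mul_apply]
  · have := H i j a
    rw [Fintype.sum_subsingleton _ a] at this
    simp only [Matrix.mul_apply, Matrix.smul_apply, map_apply, fm_eq _ _ a, transpose_apply,
      det_eq_elem_of_subsingleton h a, Finset.sum_mul, smul_eq_mul, eq_intCast]
    rw [mul_comm, ← this, Finset.sum_comm]
    exact Finset.sum_congr rfl fun _ _ => Finset.sum_congr rfl fun _ _ => by ring

omit [DecidableEq σ] in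
lemma p2 {l : F} (H : gᵀ * (fm T).map (Int.castRingHom F) * g = l • (fm T').map (Int.castRingHom F)) :
    ∃ h, Hom T T' g h := ⟨l • 1, fun i j a => by
  have := congrFun (congrFun H i) j
  simp only [Matrix.mul_apply, Matrix.smul_apply, map_apply, fm_eq _ _ a, transpose_apply,
    Finset.sum_mul, smul_eq_mul, eq_intCast] at this
  rw [Fintype.sum_subsingleton _ a, Tor.sm, if_pos rfl, mul_comm, ← this, Finset.sum_comm]
  exact Finset.sum_congr rfl fun _ _ => Finset.sum_congr rfl fun _ _ => by ring⟩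

end

lemma zero_of {Ω : Matrix σ σ ℤ} (h1 : U * U' = 1) (h3 : Uᵀ * Ω * U = fromBlocks (Jd d) 0 0 0)
    (hk : k = 0) : Ω = 0 := by
  subst hk
  rw [Subsingleton.elim (Jd d) 0, fromBlocks_zero] at h3
  have : U'ᵀ * (Uᵀ * Ω * U) * U' = Ω := by
    rw [Matrix.mul_assoc, Matrix.mul_assoc, h1, Matrix.mul_one, ← Matrix.mul_assoc, ← transpose_mul,
      h1, transpose_one, Matrix.one_mul]
  rw [← this, h3, Matrix.mul_zero, Matrix.zero_mul]

variable {n : ℕ} {T T' : Fin n → Fin n → I → ℤ} {S S' : I → Fin n → Fin n → ℤ} {f f' : ℕ}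

theorem tame (ha : Alt T) (L : LI S T f) (hf : 0 < f)
    (hc : Fintype.card I ≤ 1 ∨ n.choose 2 ≤ Fintype.card I + 1) : Nonempty (Pk T) := by
  rcases hc with hc | hc
  · have := Fintype.card_le_one_iff_subsingleton.1 hc
    obtain ⟨k, r, d, U, U', h0, h1, h2, h3⟩ := normal_form (fm_skew ha)
    refine pk_of (sp_of h0 h1 h2 h3) L hf 0 (.inl rfl) (fun F _ _ g l => p2) fun F _ _ g g' h h' e =>
      ⟨h.det, (isUnit_det_of_right_inverse e.2.1).ne_zero, p1 e.2.2, fun hk => ?_, by simp⟩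
    rcases isEmpty_or_nonempty I with e | ⟨⟨a⟩⟩
    · exact det_isEmpty
    · have := L a a
      simp only [← fm_eq, zero_of h1 h3 hk] at this
      simp [eq_comm, hf.ne'] at this
  · obtain ⟨Ω, hΩ⟩ := exists_ker ha L hf hc
    obtain ⟨k, r, d, U, U', h0, h1, h2, h3⟩ := normal_form hΩ.1
    obtain ⟨w, hw⟩ := k3 ha L hf hΩ
    refine pk_of (sp_of h0 h1 h2 h3).tr L hf w (.inr rfl) (fun F _ _ g l => k2 ha hΩ hΩ)
      fun F _ _ g g' h h' e => ?_
    obtain ⟨l, a1, a2, a3, a4⟩ := hw F _ _ _ _ e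
    exact ⟨l, a1, a2, fun hk => a3 (zero_of h1 h3 hk), by
      rw [← a4, _root_.zpow_neg_one]; field_simp⟩

theorem rat_iso (ha : Alt T) (ha' : Alt T') (L : LI S T f) (L' : LI S' T' f') (hf : 0 < f)
    (hf' : 0 < f') (hc : Fintype.card I ≤ 1 ∨ n.choose 2 ≤ Fintype.card I + 1) {F : Type} [Field F]
    [CharZero F] {g g' : Matrix (Fin n) (Fin n) F} {h h' : Matrix I I F} (e : IsoT T T' g g' h h') :
    ∃ (a a' : Matrix (Fin n) (Fin n) ℚ) (b b' : Matrix I I ℚ), IsoT T T' a a' b b' := by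
  rcases hc with hc | hc
  · have := Fintype.card_le_one_iff_subsingleton.1 hc
    obtain ⟨a, a', h1, h2⟩ := rat_sim (fm_skew ha) (fm_skew ha') e.1
      (isUnit_det_of_right_inverse e.2.1).ne_zero (p1 e.2.2)
    obtain ⟨b, h3⟩ := p2 (h2.trans (one_smul _ _).symm)
    exact ⟨a, a', b, h3.iso h1 L hf⟩
  · obtain ⟨Ω, hΩ⟩ := exists_ker ha L hf hc
    obtain ⟨Ω', hΩ'⟩ := exists_ker ha' L' hf' hc
    obtain ⟨l, h0, h1⟩ := k1 hΩ hΩ' e
    obtain ⟨a, a', h2, h3⟩ := rat_sim hΩ'.1 hΩ.1 (g := gᵀ) (g' := g'ᵀ)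
      (by rw [← transpose_mul, e.symm.1, transpose_one]) h0 h1
    obtain ⟨b, h4⟩ := k2 ha hΩ hΩ' (g := aᵀ) (h3.trans (one_smul _ _).symm)
    exact ⟨aᵀ, a'ᵀ, b, h4.iso (by rw [← transpose_mul, mul_eq_one_comm.1 h2, transpose_one]) L hf⟩

end Pool.Agent.Lib.MP_a8bb0e_al.Ex
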