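import Pool.Agent.Lib.MP_a8bb0e_al.Ex.Core
import Pool.Agent.Lib.MP_a8bb0e_al.Ex.Pack
import Pool.Agent.Lib.MP_a8bb0e_al.Ex.Back
import Pool.Agent.Lib.MP_a8bb0e_al.Ex.Hall
import Pool.Agent.Lib.MP_a8bb0e_al.Ex.Bar
import Pool.Agent.Lib.MP_a8bb0e_al.Tor.Defs

/-! Genus one for class two groups of extreme type. -/

open scoped commutatorElement
open Matrix

namespace Pool.Agent.Lib.MP_a8bb0e_al.Ex

open Uni Tor

variable {G B : Type} [Group G] [Group B] {σ I : Type} [Fintype σ] [Fintype I] [DecidableEq σ]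
  [DecidableEq I] {T : σ → σ → I → ℤ} {k w : ℕ} {γ : ℤ} {g : Matrix σ σ ℤ} {h : Matrix I I ℤ}

lemma Au.abs {l b : ℚ} (A : Au T k w γ (g.map (Int.castRingHom ℚ)) (h.map (Int.castRingHom ℚ)) l b) :
    (g.det.natAbs : ℚ) = |l| ^ k * |b| ∧ (h.det.natAbs : ℚ) = |l| ^ γ * (g.det.natAbs : ℚ) ^ w := by
  have e1 : ((g.det : ℤ) : ℚ) = _ := ((Int.castRingHom ℚ).map_det g).trans A.2.2.2.1
  have e2 : ((h.det : ℤ) : ℚ) = _ := ((Int.castRingHom ℚ).map_det h).trans (A.2.2.2.2.trans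
    (congrArg (fun x => l ^ γ * x ^ w) ((Int.castRingHom ℚ).map_det g).symm))
  rw [Nat.cast_natAbs, Nat.cast_natAbs, Int.cast_abs, Int.cast_abs, e2, abs_mul, abs_pow, abs_zpow]
  exact ⟨by rw [e1, abs_mul, abs_pow], rfl⟩

lemma nat_of_pow {l : ℚ} (hl : 0 < l) {j : ℕ} (hj : 0 < j) {a : ℤ} (h : l ^ j = a) :
    ∃ b : ℕ, 0 < b ∧ l = b := by
  obtain ⟨b, rfl⟩ := int_of_pow hj.ne' h
  obtain ⟨b, rfl⟩ := Int.eq_ofNat_of_zero_le (Int.cast_pos.1 hl).le
  exact ⟨b, by exact_mod_cast hl, rfl⟩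

lemma num_den (hγ : γ = 1 ∨ γ = -1) {u : ℕ} (hu : 0 < u) :
    ∃ m n : ℕ, m ∣ u ∧ n ∣ u ∧ (u : ℚ) ^ γ * n = m := by
  rcases hγ with rfl | rfl
  · exact ⟨u, 1, dvd_rfl, one_dvd _, by simp⟩
  · exact ⟨1, u, one_dvd _, dvd_rfl, by simp [hu.ne']⟩

lemma zz (hγ : γ = 1 ∨ γ = -1) (x : ℚ) : (x ^ γ) ^ γ = x := by
  rcases hγ with rfl | rfl <;> simp

lemma part {a s x n y m : ℕ} (h : s * x * n = y * m) (h1 : s.Coprime a) (h2 : n.Coprime a)
    (h3 : m.Coprime a) (h4 : ∀ p : ℕ, p.Prime → p ∣ x → p ∣ a) (h5 : y ∣ a) : x = y :=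
  Nat.dvd_antisymm ((Nat.coprime_of_dvd fun p hp a1 a2 =>
      hp.one_lt.ne' (Nat.eq_one_of_dvd_coprimes h3 a2 (h4 p hp a1))).dvd_of_dvd_mul_right
        ⟨s * n, by rw [← h]; ring⟩)
    (((h1.mul_left h2).symm.coprime_dvd_left h5).dvd_of_dvd_mul_right ⟨m, by rw [← h]; ring⟩)

lemma exists_inv {e a u : ℕ} (he : 0 < e) (ha : 0 < a) (h : a.Coprime e) (hu : u.Coprime e) :
    ∃ u', 0 < u' ∧ u'.Coprime (a * e) ∧ u * u' ≡ 1 [MOD e] ∧ (u = 1 → u' = 1) := by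
  by_cases c : u = 1
  · exact ⟨1, one_pos, by simp, by rw [c], fun _ => rfl⟩
  obtain ⟨x, h1, h2⟩ := Nat.chineseRemainder h 1 (u ^ (e.totient - 1))
  have h3 : u * (x + a * e) ≡ 1 [MOD e] := by
    refine .trans ?_ (Nat.ModEq.pow_totient hu)
    rw [← Nat.sub_add_cancel (Nat.totient_pos.2 he), pow_succ']
    exact (h2.add (Nat.modEq_zero_iff_dvd.2 (dvd_mul_left e a))).mul_left u
  exact ⟨x + a * e, by positivity, Nat.Coprime.mul_right
    (Nat.coprime_of_mul_modEq_one 1 (by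
      simpa using h1.add (Nat.modEq_zero_iff_dvd.2 (dvd_mul_right a e))))
    (Nat.coprime_of_mul_modEq_one u (mul_comm u _ ▸ h3)), h3, fun e => absurd e c⟩

lemma int_dl (P : Pk T) {S : I → σ → σ → ℤ} {f : ℕ} (L : LI S T f) (hf : 0 < f) {u v : ℕ}
    (hu : 0 < u) (hv : 0 < v) (h1 : u ≡ 1 [MOD f]) (h2 : v ≡ 1 [MOD f]) (h3 : P.k = 0 → u = 1)
    (h4 : P.r = 0 → v = 1) : ∃ (g : Matrix σ σ ℤ) (h : Matrix I I ℤ), Hom T T g h ∧
      Au T P.k P.w P.γ (g.map (Int.castRingHom ℚ)) (h.map (Int.castRingHom ℚ)) u v := by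
  obtain ⟨hq, A⟩ := P.C ℚ u v (by positivity) (by positivity) (fun e => by simp [h3 e])
    fun e => by simp [h4 e]
  have e0 : (dl P.U P.U' (u : ℤ) v).map (Int.castRingHom ℚ) = dl P.U P.U' (u : ℚ) v := by
    rw [dl_map, map_natCast, map_natCast]
  have e1 : (hS S T (dl P.U P.U' (u : ℤ) v)).map (Int.castRingHom (ZMod f)) = 0 := by
    rw [hS_map, dl_map, map_natCast, map_natCast, (ZMod.natCast_eq_natCast_iff _ _ _).2 h1,
      (ZMod.natCast_eq_natCast_iff _ _ _).2 h2, Nat.cast_one, dl_one P.h1, hS_one L,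
      ZMod.natCast_self, zero_smul]
  choose h hh using fun i j => (ZMod.intCast_zmod_eq_zero_iff_dvd _ _).1 (congrFun (congrFun e1 i) j)
  obtain rfl : hq = (Matrix.of h).map (Int.castRingHom ℚ) := by
    ext i j
    have := congrFun (congrFun ((hS_map (Int.castRingHom ℚ)).trans (e0 ▸ A.2.2.1.eq L)) i) j
    rw [map_apply, hh, map_mul, map_natCast] at this
    exact (mul_left_cancel₀ (by positivity) this).symm
  rw [← e0] at A
  exact ⟨_, _, fun i j a => Int.cast_injective (α := ℚ) (by simpa using A.2.2.1 i j a), A⟩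

variable (E : Ext B σ I) {π : G →* B} (hπ : Function.Surjective π)

/-- index pairs of the copies of `G` inside `G` -/
def Pair (J : Subgroup G) (a c : ℕ) : Prop :=
  ∃ K : Subgroup G, Nonempty (K ≃* G) ∧ K.index = a ∧ K.relIndex J = c

include hπ in
lemma idx {ψ : B →* B} (h1 : ∀ u, E.p (ψ u) = g *ᵥ E.p u) (h2 : ∀ c, ψ (E.i c) = E.i (c ᵥ* h))
    (hg : g.det ≠ 0) (hh : h.det ≠ 0) :
    (ψ.range.comap π).index = g.det.natAbs * h.det.natAbs ∧
      (ψ.range.comap π).relIndex (E.J.range.comap π) = h.det.natAbs :=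
  ⟨(Subgroup.index_comap_of_surjective _ hπ).trans (index_endo E h1 h2 hg hh), by
    rw [Subgroup.relIndex_comap, Subgroup.map_comap_eq_self_of_surjective hπ,
      index_cen E h1 h2 hg hh]⟩

omit [DecidableEq I] in
lemma endo (H : Hom (ten E) (ten E) g h) :
    ∃ ψ : B →* B, (∀ u, E.p (ψ u) = g *ᵥ E.p u) ∧ ∀ c, ψ (E.i c) = E.i (c ᵥ* h) := by
  classical
  choose s hs using fun i : σ => E.p_surj (Pi.single i 1)
  choose y hy using fun i : σ => E.p_surj (g *ᵥ Pi.single i 1)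
  exact (exists_endo E hs hy H).imp fun _ h => h.2

variable [Finite π.ker] [Group.FG G]

include hπ in
lemma of_pair (P : Pk (ten E)) {a c : ℕ} (ha : a ≠ 0) (H : Pair (E.J.range.comap π) a c) :
    ∃ (g : Matrix σ σ ℤ) (h : Matrix I I ℤ) (l b : ℚ), Cp E π g h ∧
      g.det.natAbs * h.det.natAbs = a ∧ h.det.natAbs = c ∧ (P.k = 0 → l = 1) ∧ (P.r = 0 → b = 1) ∧
      Au (ten E) P.k P.w P.γ (g.map (Int.castRingHom ℚ)) (h.map (Int.castRingHom ℚ)) l b := by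
  obtain ⟨K, ⟨e⟩, rfl, rfl⟩ := H
  obtain ⟨φ, φ', p1, p2, p3, rfl⟩ := self_copy E hπ K e
  obtain ⟨g, h, h1, h2⟩ := mats_of_hom E E φ'
  have hg := det_ne E h1 (by rwa [Subgroup.index_comap_of_surjective _ hπ] at ha)
  have hh := det_ne' E h2 p3
  obtain ⟨l, b, a1, a2, a3⟩ := P.A ℚ _ _ _ _ (iso_rat E h1 h2 hg hh ℚ)
  have := idx E hπ h1 h2 hg hh
  exact ⟨g, h, l, b, ⟨φ, φ', p1, p2, h1, h2⟩, this.1.symm, this.2.symm, a2, a3, a1⟩

variable [Group.IsNilpotent G]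

include hπ in
lemma copy_pow (H : Hom (ten E) (ten E) g h) (hg : g.det ≠ 0) (hh : h.det ≠ 0)
    (hc : (g.det.natAbs * h.det.natAbs).Coprime (Nat.card π.ker)) :
    ∃ j, 0 < j ∧ Pair (E.J.range.comap π) ((g.det.natAbs * h.det.natAbs) ^ j) (h.det.natAbs ^ j) := by
  have := Group.nilpotent_of_surjective π hπ
  have := Group.fg_of_surjective hπ
  obtain ⟨ψ, h1, h2⟩ := endo E H
  obtain ⟨c, hc'⟩ := exists_sep π.ker
  obtain ⟨j, hj⟩ := exists_iter ψ (E := Nat.card π.ker ^ c) (pow_pos Nat.card_pos c)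
    (by rw [index_endo E h1 h2 hg hh]; exact hc.pow_right c)
  have h3 : ∀ j, (∀ u, E.p (it ψ j u) = (g ^ j) *ᵥ E.p u) ∧
      ∀ c, it ψ j (E.i c) = E.i (c ᵥ* h ^ j) := fun j => by
    induction j with
    | zero => exact ⟨fun u => by simp [it], fun c => by simp [it]⟩
    | succ j ih => exact ⟨fun u => by rw [it, MonoidHom.comp_apply, h1, ih.1, mulVec_mulVec, pow_succ'],
        fun c => by rw [it, MonoidHom.comp_apply, ih.2, h2, vecMul_vecMul, pow_succ]⟩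
  have hg' : (g ^ (j + 1)).det ≠ 0 := by rw [det_pow]; exact pow_ne_zero _ hg
  have hh' : (h ^ (j + 1)).det ≠ 0 := by rw [det_pow]; exact pow_ne_zero _ hh
  have h4 := idx E hπ (h3 _).1 (h3 _).2 hg' hh'
  rw [det_pow, det_pow, Int.natAbs_pow, Int.natAbs_pow, ← mul_pow] at h4
  obtain ⟨Φ, r1, r2⟩ := pullback hπ hc' ((it ψ (j + 1)).comp π)
    (QuotientGroup.mk' _) fun x => (hj _).symm
  have iΦ : Function.Injective Φ := (injective_iff_map_eq_one _).2 fun x hx =>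
    hc' x (inj_of_det E (h3 _).1 (h3 _).2 hg' hh' (by
      rw [map_one, ← map_one π, ← hx, r1]; rfl)) ((QuotientGroup.eq_one_iff _).1 (by
        rw [← QuotientGroup.mk'_apply, ← r2, hx]; rfl))
  have eq : Φ.range = (it ψ (j + 1)).range.comap π := by
    ext z
    refine ⟨fun ⟨x, hx⟩ => ⟨π x, by rw [← hx, r1]; rfl⟩, fun ⟨x, hx⟩ => ?_⟩
    obtain ⟨x, rfl⟩ := hπ x
    obtain ⟨t, -, e⟩ := ker_onto (π := π) iΦ (fun t ht => by
      rw [MonoidHom.mem_ker, r1, MonoidHom.comp_apply, ht, map_one]) (t := (Φ x)⁻¹ * z) (by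
      rw [MonoidHom.mem_ker, map_mul, map_inv, r1, ← hx, inv_mul_eq_one]; rfl)
    exact ⟨x * t, by rw [map_mul, e, mul_inv_cancel_left]⟩
  exact ⟨j + 1, j.succ_pos, Φ.range, ⟨(MonoidHom.ofInjective iΦ).symm⟩, eq ▸ h4⟩

variable (P : Pk (ten E)) {S : I → σ → σ → ℤ} {f : ℕ} (L : LI S (ten E) f) (hf : 0 < f)

include hπ L hf in
lemma crit_of (rc : ∀ a c j : ℕ, 0 < a → 0 < j → a.Coprime (Nat.card π.ker * f) →
      Pair (E.J.range.comap π) (a ^ j) (c ^ j) → Pair (E.J.range.comap π) a c)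
    (u v : ℕ) (hu : 0 < u) (hv : 0 < v) (hc : (u * v).Coprime (Nat.card π.ker * f))
    (h1 : P.k = 0 → u = 1) (h2 : P.r = 0 → v = 1) :
    ∃ (g : Matrix σ σ ℤ) (h : Matrix I I ℤ) (l b : ℚ), Cp E π g h ∧ |l| = u ∧ |b| = v ∧
      (P.k = 0 → l = 1) ∧ (P.r = 0 → b = 1) ∧
      Au (ten E) P.k P.w P.γ (g.map (Int.castRingHom ℚ)) (h.map (Int.castRingHom ℚ)) l b := by
  have cu := hc.coprime_mul_right
  have cv := hc.coprime_mul_left
  have hj := Nat.totient_pos.2 hf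
  obtain ⟨g1, k1, a1, a2⟩ := int_dl P L hf (pow_pos hu _) (pow_pos hv _)
    (Nat.ModEq.pow_totient cu.coprime_mul_left_right)
    (Nat.ModEq.pow_totient cv.coprime_mul_left_right) (fun e => by rw [h1 e, one_pow])
    fun e => by rw [h2 e, one_pow]
  obtain ⟨a3, a4⟩ := a2.abs
  generalize f.totient = j at hj a2 a3 a4
  have a5 : g1.det.natAbs = (u ^ P.k * v) ^ j := by
    rw [Nat.abs_cast, Nat.abs_cast] at a3
    rw [mul_pow, ← pow_mul, mul_comm P.k, pow_mul]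
    exact_mod_cast a3
  have a6 : ((u : ℚ) ^ P.γ * ((u ^ P.k * v : ℕ) : ℚ) ^ P.w) ^ j = (k1.det.natAbs : ℤ) := by
    rw [Int.cast_natCast, a4, a5, Nat.abs_cast, mul_pow, Nat.cast_pow, Nat.cast_pow, ← pow_mul,
      ← pow_mul, mul_comm j, ← zpow_natCast _ j, ← zpow_natCast _ j, ← _root_.zpow_mul,
      ← _root_.zpow_mul, mul_comm P.γ]
  have c0 : (u ^ P.k * v).Coprime (Nat.card π.ker * f) := (cu.pow_left _).mul_left cv
  have p0 : 0 < u ^ P.k * v := by positivity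
  generalize hx : u ^ P.k * v = x at a5 a6 c0 p0
  obtain ⟨c, b1, b2⟩ := nat_of_pow (by positivity) hj a6
  have a7 : k1.det.natAbs = c ^ j := by rw [b2] at a6; exact_mod_cast a6.symm
  have c1 : (x * c).Coprime (Nat.card π.ker * f) := by
    obtain ⟨m, n, d1, -, d3⟩ := num_den P.hγ hu
    refine c0.mul_left (((cu.coprime_dvd_left d1).mul_left (c0.pow_left P.w)).coprime_dvd_left
      ⟨n, Nat.cast_injective (R := ℚ) ?_⟩)
    push_cast
    rw [← d3, ← b2]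
    ring
  obtain ⟨i, hi, d⟩ := copy_pow E hπ a1 (Int.natAbs_pos.1 (by rw [a5]; positivity))
    (Int.natAbs_pos.1 (by rw [a7]; positivity))
    (by rw [a5, a7, ← mul_pow]; exact c1.coprime_mul_right_right.pow_left _)
  rw [a5, a7, ← mul_pow, ← pow_mul, ← pow_mul] at d
  obtain ⟨g, h, l, b, e1, e2, e3, e4, e5, e6⟩ := of_pair E hπ P (by positivity)
    (rc _ _ _ (by positivity) (by positivity) c1 d)
  obtain ⟨e7, e8⟩ := e6.abs
  rw [e3] at e2 e8
  rw [Nat.eq_of_mul_eq_mul_right b1 e2] at e7 e8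
  have e9 : |l| = u := by
    rw [← zz P.hγ |l|, ← mul_right_cancel₀ (by positivity) (b2.trans e8), zz P.hγ]
  refine ⟨g, h, l, b, e1, e9, mul_left_cancel₀ (a := (u : ℚ) ^ P.k) (by positivity) ?_, e4, e5, e6⟩
  rw [← e9, ← e7, e9, ← hx]
  push_cast
  rfl

include hπ P L hf in
lemma root_closed (H : ∀ (H : Type) [Group H] [Group.IsNilpotent H] [Group.FG H], SameFin G H →
      Nonempty (H ≃* G)) (a c j : ℕ) (ha : 0 < a) (hj : 0 < j)
    (hc : a.Coprime (Nat.card π.ker * f)) (d : Pair (E.J.range.comap π) (a ^ j) (c ^ j)) :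
    Pair (E.J.range.comap π) a c := by
  obtain ⟨g, h, l, b, -, e2, e3, e4, e5, e6⟩ := of_pair E hπ P (by positivity) d
  obtain ⟨l, b, rfl, rfl⟩ := P.B _ _ _ _ e6 e4
  obtain ⟨e7, e8⟩ := e6.abs
  rw [e3] at e2 e8
  obtain ⟨x, rfl⟩ : c ∣ a := (Nat.pow_dvd_pow_iff hj.ne').1 (Dvd.intro_left _ e2)
  have p1 : 0 < c := Nat.pos_of_mul_pos_right ha
  have p2 : 0 < x := Nat.pos_of_mul_pos_left ha
  rw [mul_pow, mul_comm] at e2
  rw [Nat.eq_of_mul_eq_mul_left (pow_pos p1 j) e2] at e7 e8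
  have a1 : (((c : ℚ) / x ^ P.w) ^ P.γ) ^ j = |l| := by
    rw [Int.cast_abs, ← zz P.hγ |(l : ℚ)|, ← zpow_natCast, ← _root_.zpow_mul, mul_comm,
      _root_.zpow_mul, zpow_natCast, div_pow, ← pow_mul, mul_comm, pow_mul]
    congr 1
    push_cast at e8
    rw [e8]
    field_simp
  obtain ⟨u, u1, u2⟩ := nat_of_pow (by positivity) hj a1
  have a2 : ((x : ℚ) / u ^ P.k) ^ j = |b| := by
    rw [u2, Int.cast_abs] at a1
    push_cast at e7
    rw [div_pow, e7, ← a1, ← pow_mul, ← pow_mul, mul_comm j, Int.cast_abs]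
    field_simp
  obtain ⟨v, v1, v2⟩ := nat_of_pow (by positivity) hj a2
  have a3 : (u : ℚ) ^ P.γ * x ^ P.w = c := by rw [← u2, zz P.hγ]; field_simp
  have a4 : u ^ P.k * v = x := Nat.cast_injective (R := ℚ) (by push_cast; rw [← v2]; field_simp)
  have k1 : P.k = 0 → u = 1 := fun e => by
    rw [u2, Int.cast_abs, e4 e, abs_one] at a1
    exact (Nat.pow_eq_one.1 (by exact_mod_cast a1)).resolve_right hj.ne'
  have k2 : P.r = 0 → v = 1 := fun e => by
    rw [v2, Int.cast_abs, e5 e, abs_one] at a2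
    exact (Nat.pow_eq_one.1 (by exact_mod_cast a2)).resolve_right hj.ne'
  have he : 0 < Nat.card π.ker * f := Nat.mul_pos Nat.card_pos hf
  have cx := hc.coprime_mul_left
  obtain ⟨u', b1, b2, b3, b4⟩ := exists_inv he ha hc (u := u) (by
    by_cases e : P.k = 0
    · simp [k1 e]
    · exact cx.coprime_dvd_left (a4 ▸ (dvd_pow_self u e).mul_right v))
  obtain ⟨v', c1, c2, c3, c4⟩ := exists_inv he ha hc (u := v)
    (cx.coprime_dvd_left (Dvd.intro_left _ a4))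
  obtain ⟨g1, h1, d1, d2⟩ := int_dl P L hf (Nat.mul_pos u1 b1) (Nat.mul_pos v1 c1)
    (b3.of_mul_left _) (c3.of_mul_left _) (fun e => by rw [b4 (k1 e), k1 e])
    fun e => by rw [c4 (k2 e), k2 e]
  obtain ⟨d3, d4⟩ := d2.abs
  rw [Nat.abs_cast] at d3 d4
  have d5 : g1.det.natAbs = x * (u' ^ P.k * v') := Nat.cast_injective (R := ℚ) (by
    rw [d3, Nat.abs_cast, ← a4]; push_cast; ring)
  have cz : (u' ^ P.k * v').Coprime _ := (b2.pow_left _).mul_left c2
  have pz : 0 < u' ^ P.k * v' := by positivity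
  generalize u' ^ P.k * v' = z at d5 cz pz
  obtain ⟨m, n, m1, m2, m3⟩ := num_den P.hγ b1
  have d6 : h1.det.natAbs * n = c * (m * z ^ P.w) := Nat.cast_injective (R := ℚ) (by
    push_cast at d4 ⊢
    rw [d4, d5, ← m3, ← a3, mul_zpow]
    push_cast
    ring)
  have cm := (b2.coprime_dvd_left m1).mul_left (cz.pow_left P.w)
  have cn := (b2.coprime_dvd_left m2).coprime_mul_right_right
  have hg : g1.det ≠ 0 := fun e => d2.dg (((Int.castRingHom ℚ).map_det g1).symm.trans (by simp [e]))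
  have hh : h1.det ≠ 0 := fun e => d2.dh (((Int.castRingHom ℚ).map_det h1).symm.trans (by simp [e]))
  obtain ⟨ψ, q1, q2⟩ := endo E d1
  obtain ⟨i1, i2⟩ := idx E hπ q1 q2 hg hh
  have fi : (ψ.range.comap π).FiniteIndex := ⟨by rw [i1]; positivity⟩
  have : E.J.range.Normal := ⟨by
    rintro _ ⟨c, rfl⟩ g
    exact ⟨c, by rw [← (E.cen c g).eq, mul_inv_cancel_right]⟩⟩
  obtain ⟨K, s, t, r1, r2, r3, r4, r5, r6⟩ := hall _ (E.J.range.comap π)
    (fwd hπ ψ (inj_of_det E q1 q2 hg hh) (by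
      rw [index_endo E q1 q2 hg hh, d5]
      exact ((cx.mul_left cz.coprime_mul_left_right).mul_left
        ((hc.coprime_mul_right.mul_left cm.coprime_mul_left_right).coprime_dvd_left
          (Dvd.intro _ d6))).coprime_mul_right_right)) (c * x)
  have : K.FiniteIndex := ⟨right_ne_zero_of_mul (r4 ▸ fi.1)⟩
  refine ⟨K, H K r1, part (m := z * (m * z ^ P.w)) ?_ r2 cn
    (cz.mul_left cm).coprime_mul_right_right (fun p hp h => r6 p hp (h.mul_right _)) dvd_rfl,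
    part (by rw [← r5, i2, d6]) r3 cn cm.coprime_mul_right_right
      (fun p hp h => r6 p hp (h.mul_left _)) (dvd_mul_right _ _)⟩
  rw [← r4, i1, mul_assoc, d6, d5]
  ring

omit [Fintype σ] [Fintype I] [DecidableEq I] in
lemma alt_ten : Alt (ten E) := fun _ _ a => congrFun (E.w_swap _ _) a

omit [Fintype σ] [DecidableEq σ] in
lemma exists_f : ∃ f, 0 < f ∧ ∀ c, E.i c ^ f ∈ commutator B := by
  choose N hN hN' using fun b : I => E.tor (.ofAdd (Pi.single b 1))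
  refine ⟨∏ b, N b, Finset.prod_pos fun b _ => hN b, fun c => ?_⟩
  have := pi_ind (((commutator B).comap E.J).comap (powMonoidHom (∏ b, N b))).toAddSubgroup'
    (fun b => by
      obtain ⟨r, hr⟩ := Finset.dvd_prod_of_mem N (Finset.mem_univ b)
      change E.J (_ ^ _) ∈ commutator B
      rw [hr, map_pow, pow_mul]
      exact pow_mem (hN' b) r) c
  exact (map_pow E.J _ _).symm.trans rfl ▸ this

include hπ in
theorem genus_iff' {n : ℕ} (E : Ext B (Fin n) I) (hf : 0 < f) (h1 : ∀ c, E.i c ^ f ∈ commutator B)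
    (hc : Fintype.card I ≤ 1 ∨ n.choose 2 ≤ Fintype.card I + 1) :
    GenusOne G ↔ ∀ a c j : ℕ, 0 < a → 0 < j → a.Coprime (Nat.card π.ker * f) →
      Pair (E.J.range.comap π) (a ^ j) (c ^ j) → Pair (E.J.range.comap π) a c := by
  obtain ⟨S, L⟩ := exists_left E h1
  obtain ⟨P⟩ := tame (alt_ten E) L hf hc
  refine ⟨root_closed E hπ P L hf, fun rc H _ _ _ h => ?_⟩
  obtain ⟨B', _, π', hπ', fin, c1, c2⟩ := exists_bar E hπ h
  have := Group.nilpotent_of_surjective π hπ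
  have := Group.fg_of_surjective hπ
  have := Group.nilpotent_of_surjective π' hπ'
  have := Group.fg_of_surjective hπ'
  obtain ⟨E', h2⟩ := local_iso E c2
  obtain ⟨f', hf', h3⟩ := exists_f E'
  obtain ⟨S', L'⟩ := exists_left E' h3
  obtain ⟨g, g', k, k', h4⟩ := h2 2
  obtain ⟨a, a', b, b', h5⟩ := rat_iso (alt_ten E) (alt_ten E') L L' hf hf' hc
    (h4.map PadicInt.Coe.ringHom)
  exact back2 E E' hπ hπ' c1 h c2 fun D hD => core P L L' hf hf' (Nat.mul_pos Nat.card_pos hf) h5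
    (Cp E π) (crit_of E hπ P L hf rc) hD

theorem main (G : Type) [Group G] [Group.IsNilpotent G] [Group.FG G]
    (hG : Group.nilpotencyClass G = 2) {n m : ℕ}
    (hn : n = Module.finrank ℤ (Additive (Abelianization G)))
    (hm : m = Module.finrank ℤ (Additive (Abelianization (commutator G))))
    (h : m ≤ 1 ∨ n.choose 2 ≤ m + 1) {J : Subgroup G}
    (hJ : ∀ x, x ∈ J ↔ ∃ k : ℕ, 0 < k ∧ x ^ k ∈ commutator G) :
    GenusOne G ↔ ∀ a c j : ℕ, 0 < a → 0 < j → a.Coprime (Nat.card {x : G // IsOfFinOrder x} *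
      Nat.card (CommGroup.torsion (Abelianization G))) → Pair J (a ^ j) (c ^ j) → Pair J a c := by
  have := cl2_of hG
  obtain ⟨B, _, π, E, h1, h2, h3, h4, h5, h6⟩ := exists_bar' G
  obtain rfl : J = E.J.range.comap π := Subgroup.ext fun x => by
    rw [h4, hJ, Subgroup.mem_comap, CommGroup.mem_torsion, isOfFinOrder_iff_pow_eq_one]
    simp only [← map_pow, ← Abelianization.ker_of, MonoidHom.mem_ker]
  rw [← h3]
  exact genus_iff' h1 E h5 h6 (by rwa [Fintype.card_fin, ← hm, ← hn])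

end Pool.Agent.Lib.MP_a8bb0e_al.Ex
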