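import Pool.Agent.Lib.MP_a8bb0e_al.Ex.Au

/-! Arithmetic lemmas on `p`-adic approximation. -/

open Matrix Filter Topology

namespace Pool.Agent.Lib.MP_a8bb0e_al.Ex

open Uni

variable {σ I : Type} [Fintype σ] [Fintype I] [DecidableEq σ] [DecidableEq I]
  {T T' : σ → σ → I → ℤ} {N : ℕ}

lemma exists_den {a b : Type} [Finite a] [Finite b] (M : Matrix a b ℚ) :
    ∃ n : ℕ, n ≠ 0 ∧ ∀ N, n ∣ N → In (Lam N) M := by
  have := Fintype.ofFinite (a × b)
  exact ⟨∏ q : a × b, (M q.1 q.2).den, Finset.prod_ne_zero_iff.2 fun q _ => Rat.den_nz _,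
    fun N hN i j p _ hp => Padic.norm_rat_le_one fun h => hp (h.trans
      ((Finset.dvd_prod_of_mem (fun q : a × b => (M q.1 q.2).den) (Finset.mem_univ (i, j))).trans hN))⟩

lemma norm_cop (p : PS N) {u : ℕ} (h : u.Coprime N) : ‖(u : ℚ_[p])‖ = 1 :=
  Padic.norm_natCast_eq_one_iff.2 (h.symm.coprime_dvd_left (Nat.dvd_of_mem_primeFactors p.2))

lemma approx_unit (hN : N ≠ 0) (h2 : N ≠ 1) (x : ∀ p : PS N, ℚ_[p]) (hx : ∀ p, x p ≠ 0) {ε : ℝ}
    (hε : 0 < ε) : ∃ (q : ℚ) (u : ℕ), q ≠ 0 ∧ q ∈ Lam N ∧ q⁻¹ ∈ Lam N ∧ 0 < u ∧ u.Coprime N ∧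
      (∀ p : PS N, ‖u * (q : ℚ_[p]) / x p - 1‖ < ε) ∧ ((∀ p, x p = 1) → q = 1 ∧ u = 1) := by
  by_cases h : ∀ p, x p = 1
  · exact ⟨1, 1, one_ne_zero, one_mem _, by simp, one_pos, by simp,
      fun p => by simpa [h] using hε, fun _ => ⟨rfl, rfl⟩⟩
  obtain ⟨q, a1, a2, a3, a4⟩ := exists_norm x hx
  have a5 : ∀ p : PS N, ‖x p / q‖ = 1 := fun p => by
    rw [norm_div, a4, div_self (norm_ne_zero_iff.2 (hx p))]
  obtain ⟨k, hk⟩ := small (N := N) _ (lt_min hε one_pos)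
  obtain ⟨u, hu⟩ := crt (fun p => ⟨_, (a5 p).le⟩) k
  have a6 : u.Coprime N := Nat.coprime_of_dvd fun p hp h1 h2 => by
    obtain ⟨P, rfl⟩ : ∃ P : PS N, P.1 = p := ⟨⟨p, Nat.mem_primeFactors.2 ⟨hp, h2, hN⟩⟩, rfl⟩
    have := Padic.norm_eq_of_norm_sub_lt_left (z1 := x P / (q : ℚ_[P])) (z2 := u)
      (by rw [a5]; exact ((hu P).trans_lt (hk P)).trans_le (min_le_right _ _))
    rw [a5] at this
    exact (Padic.norm_natCast_lt_one_iff.2 h1).ne this.symm
  refine ⟨q, u, a1, a2, a3, Nat.pos_of_ne_zero fun e => h2 (by simpa [e] using a6), a6,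
    fun p => ?_, fun e => absurd e h⟩
  have hq : (q : ℚ_[p]) ≠ 0 := by exact_mod_cast a1
  have := hx p
  rw [show u * (q : ℚ_[p]) / x p - 1 = -(x p / q - u) / (x p / q) by field_simp; ring, norm_div, a5,
    div_one, norm_neg]
  exact ((hu p).trans_lt (hk p)).trans_le (min_le_left _ _)

lemma int_of_lam {a b : Type} (hN : N ≠ 0) {M : Matrix a b ℚ} (h : In (Lam N) M)
    (h' : ∀ p : PS N, In (PadicInt.subring p) (M.map (Rat.castHom ℚ_[p]))) :
    ∃ M0 : Matrix a b ℤ, M0.map (Int.castRingHom ℚ) = M :=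
  int_of_padic M fun p _ i j => by
    by_cases e : p ∣ N
    · exact h' ⟨p, Nat.mem_primeFactors.2 ⟨Fact.out, e, hN⟩⟩ i j
    · exact h i j p e

lemma dvd_of_norm (hN : N ≠ 0) {D : ℕ} (hD : D ∣ N) {x : ℤ}
    (h : ∀ p : PS N, ‖(x : ℚ_[p])‖ < ‖(D : ℚ_[p])‖) : (D : ℤ) ∣ x := by
  have h0 : D ≠ 0 := fun e => hN (by simpa [e] using hD)
  obtain ⟨M, hM⟩ := int_of_lam hN (M := of fun (_ _ : Unit) => (x : ℚ) * (D : ℚ)⁻¹)
    (fun _ _ => mul_mem (intCast_mem _ _) (inv_mem fun _ _ h => h.trans hD)) fun p _ _ => by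
      have := h p
      simpa [PadicInt.mem_subring_iff, ← div_eq_mul_inv] using
        div_le_one_of_le₀ this.le (norm_nonneg _)
  refine ⟨M () (), Int.cast_injective (α := ℚ) ?_⟩
  have : (M () () : ℚ) = x * (D : ℚ)⁻¹ := congrFun (congrFun hM ()) ()
  push_cast
  rw [this]
  field_simp

lemma In.inv {p : ℕ} [Fact p.Prime] {M : Matrix σ σ ℚ_[p]} (h : In (PadicInt.subring p) M)
    (h1 : ‖M.det‖ = 1) : In (PadicInt.subring p) M⁻¹ := by
  rw [inv_def, Ring.inverse_eq_inv']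
  exact h.adj.smul (by rw [PadicInt.mem_subring_iff, norm_inv, h1, inv_one])

lemma lift_padic (T T' : σ → σ → I → ℤ) (p : ℕ) [Fact p.Prime] {ε : ℝ} (hε : 0 < ε) :
    ∃ k, ∀ (g0 : Matrix σ σ ℤ) (h0 : Matrix I I ℤ) (g' : Matrix σ σ (ZMod (p ^ k)))
      (h' : Matrix I I (ZMod (p ^ k))),
      IsoT T T' (g0.map (Int.castRingHom _)) g' (h0.map (Int.castRingHom _)) h' →
      ∃ (g g' : Matrix σ σ ℤ_[p]) (h h' : Matrix I I ℤ_[p]), IsoT T T' g g' h h' ∧
        (∀ i j, ‖g i j - g0 i j‖ < ε) ∧ ∀ i j, ‖h i j - h0 i j‖ < ε := by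
  by_contra hc
  simp only [not_exists, not_forall] at hc
  choose g0 h0 g' h' H hn using hc
  choose s hs using fun k => ZMod.ringHom_surjective (PadicInt.toZModPow (p := p) k)
  let u : ℕ → ((σ → σ → ℤ_[p]) × (σ → σ → ℤ_[p])) × (I → I → ℤ_[p]) × (I → I → ℤ_[p]) := fun k =>
    (((g0 k).map (Int.castRingHom _), (g' k).map (s k)), (h0 k).map (Int.castRingHom _),
      (h' k).map (s k))
  have hu : ∀ k, IsoT T T' ((Matrix.of (u k).1.1).map (PadicInt.toZModPow k))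
      ((Matrix.of (u k).1.2).map (PadicInt.toZModPow k))
      ((Matrix.of (u k).2.1).map (PadicInt.toZModPow k))
      ((Matrix.of (u k).2.2).map (PadicInt.toZModPow k)) := fun k => by
    have e : ∀ {a : Type} (m : Matrix a a (ZMod (p ^ k))),
        (Matrix.of (m.map (s k))).map (PadicInt.toZModPow k) = m := fun m => by
      ext i j; exact hs _ _
    have e' : ∀ {a : Type} (m : Matrix a a ℤ), (Matrix.of (m.map (Int.castRingHom ℤ_[p]))).map
      (PadicInt.toZModPow k) = m.map (Int.castRingHom _) := fun m => cast_map m _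
    simpa only [u, e, e'] using H k
  obtain ⟨x, φ, hφ, hx⟩ := CompactSpace.tendsto_subseq u
  simp only [isoT_map_iff] at hu
  obtain ⟨k, hk⟩ := (Metric.tendsto_nhds.1 hx ε hε).exists
  rw [dist_comm, Prod.dist_eq, Prod.dist_eq, Prod.dist_eq, max_lt_iff, max_lt_iff, max_lt_iff] at hk
  simp only [dist_pi_lt_iff hε] at hk
  simp only [dist_eq_norm] at hk
  refine hn (φ k) (Matrix.of x.1.1) (Matrix.of x.1.2) (Matrix.of x.2.1) (Matrix.of x.2.2)
    ⟨⟨?_, ?_, ?_⟩, hk.1.1, hk.2.1⟩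
  · ext i j
    refine sub_eq_zero.1 (lim_zero' hφ hx (fun X => (Matrix.of X.1.1 * Matrix.of X.1.2) i j -
      (1 : Matrix _ _ ℤ_[p]) i j) ?_ fun k => (hu k).1 i j)
    simp only [Matrix.mul_apply, of_apply]; fun_prop
  · ext i j
    refine sub_eq_zero.1 (lim_zero' hφ hx (fun X => (Matrix.of X.2.1 * Matrix.of X.2.2) i j -
      (1 : Matrix _ _ ℤ_[p]) i j) ?_ fun k => (hu k).2.1 i j)
    simp only [Matrix.mul_apply, of_apply]; fun_prop
  · intro i j a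
    refine sub_eq_zero.1 (lim_zero' hφ hx (fun X => ∑ k, ∑ l, Matrix.of X.1.1 k i *
      Matrix.of X.1.1 l j * (T k l a : ℤ_[p]) - ∑ b, (T' i j b : ℤ_[p]) * Matrix.of X.2.1 b a) ?_
      fun k => (hu k).2.2 i j a)
    simp only [of_apply]; fun_prop

/-- close to an integral matrix and invertible over the `p`-adic integers -/
def Near (p : ℕ) [Fact p.Prime] (D : ℕ) (M0 : Matrix σ σ ℤ) (M : Matrix σ σ ℚ_[p]) : Prop :=
  (∀ i j, ‖M i j - M0 i j‖ < ‖(D : ℚ_[p])‖) ∧ ‖M.det‖ = 1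

section
variable {p : ℕ} [Fact p.Prime] {D : ℕ} {M0 : Matrix σ σ ℤ}

lemma Near.open : IsOpen {M | Near p D M0 M} := by
  have := (IsUltrametricDist.isOpen_sphere (0 : ℚ_[p]) one_ne_zero).preimage
    (continuous_id.matrix_det (n := σ))
  simp only [Metric.sphere, dist_zero_right] at this
  refine IsOpen.inter (s := {M : Matrix σ σ ℚ_[p] | ∀ i j, ‖M i j - M0 i j‖ < ‖(D : ℚ_[p])‖}) ?_ this
  simp only [Set.ofPred_forall]
  exact isOpen_iInter_of_finite fun i => isOpen_iInter_of_finite fun j =>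
    isOpen_lt (by fun_prop) continuous_const

lemma Near.in {M : Matrix σ σ ℚ_[p]} (h : Near p D M0 M) : In (PadicInt.subring p) M := fun i j => by
  rw [← sub_add_cancel (M i j) (M0 i j)]
  exact add_mem ((h.1 i j).le.trans (Padic.norm_int_le_one (D : ℤ))) (intCast_mem _ _)

lemma near_of {g g' : Matrix σ σ ℤ_[p]} (h : g * g' = 1)
    (h1 : ∀ i j, ‖g i j - M0 i j‖ < ‖(D : ℚ_[p])‖) : Near p D M0 (g.map PadicInt.Coe.ringHom) :=
  ⟨h1, by
    rw [← RingHom.mapMatrix_apply, ← RingHom.map_det]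
    exact PadicInt.isUnit_iff.1 (isUnit_det_of_right_inverse h)⟩

end

end Pool.Agent.Lib.MP_a8bb0e_al.Ex
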